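import Pool.Agent.W5h86.LP.Mn
import Pool.Agent.W5h86.LX.Fin4

set_option autoImplicit false

/-!
# The alternating forms annihilated by the Lefschetz Lie algebra
-/

open Module Function Polynomial

noncomputable section

namespace Pool.Agent.W5h86.LP

open Pool.Agent.Y102 Pool.Agent.W516.DR Pool.Agent.W516.KC Pool.Agent.W5h86.LZ
open Pool.Agent.W5h86.LY Pool.Agent.W5h86.RK Pool.Agent.H204R3.SP

section Alt

variable {W : Type} [AddCommGroup W] [Module ℚ W]

/-- the alternated products of divisor classes -/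
def AltP (om : W →ₗ[ℚ] W →ₗ[ℚ] ℚ) (P : Module.End ℚ W) (k : ℕ) :
    Set (W [⋀^Fin k × Fin 2]→ₗ[ℚ] ℚ) :=
  {ψ | ∃ i : Fin k → ℕ, (∀ l, Even (i l)) ∧ ∀ v, ψ v =
    ∑ σ : Equiv.Perm (Fin k × Fin 2), ((Equiv.Perm.sign σ : ℤ) : ℚ) *
      ∏ l, om ((P ^ i l) (v (σ (l, 0)))) (v (σ (l, 1)))}

lemma pow_skew {om : W →ₗ[ℚ] W →ₗ[ℚ] ℚ} {P : Module.End ℚ W} (hPs : IsSkew om P) (i : ℕ)
    (u v : W) : om ((P ^ i) u) v = (-1) ^ i * om u ((P ^ i) v) := by
  induction i generalizing u v with
  | zero => simp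
  | succ i ih =>
    have h1 := hPs ((P ^ i) u) v
    have h2 := ih u (P v)
    rw [pow_succ' P i, Module.End.mul_apply]
    have h3 : (P ^ i) (P v) = P ((P ^ i) v) := by
      rw [← Module.End.mul_apply, ← Module.End.mul_apply, ← pow_succ, ← pow_succ']
    rw [h3] at h2
    rw [Module.End.mul_apply, pow_succ]
    linear_combination h1 - h2

lemma alt_prod {om : W →ₗ[ℚ] W →ₗ[ℚ] ℚ} (hanti : ∀ u v, om u v = -om v u)
    {P : Module.End ℚ W} (hPs : IsSkew om P) {k : ℕ}
    {ψ : MultilinearMap ℚ (fun _ : Fin k × Fin 2 => W) ℚ} {σ : Equiv.Perm (Fin k × Fin 2)}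
    {i : Fin k → ℕ} (hψ : ∀ v, ψ v = ∏ l, om ((P ^ i l) (v (σ (l, 0)))) (v (σ (l, 1)))) :
    MultilinearMap.alternatization ψ ∈ Submodule.span ℚ (AltP om P k) := by
  classical
  have hval : ∀ v, MultilinearMap.alternatization ψ v =
      ((Equiv.Perm.sign σ : ℤ) : ℚ) * ∑ τ : Equiv.Perm (Fin k × Fin 2),
        ((Equiv.Perm.sign τ : ℤ) : ℚ) *
        ∏ l, om ((P ^ i l) (v (τ (l, 0)))) (v (τ (l, 1))) := by
    intro v
    rw [MultilinearMap.alternatization_apply, Finset.mul_sum]
    rw [← Equiv.sum_comp (Equiv.mulRight σ⁻¹)]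
    refine Finset.sum_congr rfl fun τ _ => ?_
    have h1 : Equiv.mulRight σ⁻¹ τ = τ * σ⁻¹ := rfl
    rw [h1, MultilinearMap.domDomCongr_apply, hψ, Units.smul_def, zsmul_eq_mul, map_mul,
      Equiv.Perm.sign_inv]
    have h2 : ∀ x, (τ * σ⁻¹) (σ x) = τ x := fun x => by
      rw [Equiv.Perm.mul_apply]
      congr 1
      exact σ.symm_apply_apply x
    simp only [h2]
    push_cast
    ring
  by_cases hev : ∀ l, Even (i l)
  · have h1 : MultilinearMap.alternatization ψ = ((Equiv.Perm.sign σ : ℤ) : ℚ) •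
        (((Equiv.Perm.sign σ : ℤ) : ℚ) • MultilinearMap.alternatization ψ) := by
      rw [smul_smul]
      rcases Int.units_eq_one_or (Equiv.Perm.sign σ) with h | h <;> rw [h] <;> simp
    rw [h1]
    refine Submodule.smul_mem _ _ (Submodule.subset_span ⟨i, hev, fun v => ?_⟩)
    rw [AlternatingMap.smul_apply, hval, smul_eq_mul, ← mul_assoc]
    rcases Int.units_eq_one_or (Equiv.Perm.sign σ) with h | h <;> rw [h] <;> simp
  · push Not at hev
    obtain ⟨l0, hl0⟩ := hev
    rw [Nat.not_even_iff_odd] at hl0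
    have h1 : MultilinearMap.alternatization ψ = 0 := by
      refine AlternatingMap.ext fun v => ?_
      rw [hval, AlternatingMap.zero_apply]
      have h2 : ∑ τ : Equiv.Perm (Fin k × Fin 2), ((Equiv.Perm.sign τ : ℤ) : ℚ) *
          ∏ l, om ((P ^ i l) (v (τ (l, 0)))) (v (τ (l, 1))) =
          -∑ τ : Equiv.Perm (Fin k × Fin 2), ((Equiv.Perm.sign τ : ℤ) : ℚ) *
          ∏ l, om ((P ^ i l) (v (τ (l, 0)))) (v (τ (l, 1))) := by
        conv_lhs => rw [← Equiv.sum_comp (Equiv.mulRight (Equiv.swap (l0, (0 : Fin 2)) (l0, 1)))]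
        rw [← Finset.sum_neg_distrib]
        refine Finset.sum_congr rfl fun τ _ => ?_
        have h01 : ((l0, 0) : Fin k × Fin 2) ≠ (l0, 1) := fun h =>
          absurd (congrArg (fun x : Fin k × Fin 2 => x.2) h) (show (0 : Fin 2) ≠ 1 by decide)
        set s : Equiv.Perm (Fin k × Fin 2) := Equiv.swap (l0, 0) (l0, 1) with hs
        have h4 : ∏ l, om ((P ^ i l) (v ((τ * s) (l, 0)))) (v ((τ * s) (l, 1))) =
            ∏ l, om ((P ^ i l) (v (τ (l, 0)))) (v (τ (l, 1))) := by
          refine Finset.prod_congr rfl fun l _ => ?_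
          by_cases hl : l = l0
          · subst hl
            have e0 : s (l, 0) = (l, 1) := Equiv.swap_apply_left _ _
            have e1 : s (l, 1) = (l, 0) := Equiv.swap_apply_right _ _
            rw [Equiv.Perm.mul_apply, Equiv.Perm.mul_apply, e0, e1, pow_skew hPs, hanti,
              hl0.neg_one_pow]
            ring
          · have h5 : ∀ ε : Fin 2, s (l, ε) = (l, ε) := by
              intro ε
              refine Equiv.swap_apply_of_ne_of_ne ?_ ?_
              · intro h
                exact hl (congrArg Prod.fst h)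
              · intro h
                exact hl (congrArg Prod.fst h)
            rw [Equiv.Perm.mul_apply, Equiv.Perm.mul_apply, h5, h5]
        have h3 : Equiv.mulRight s τ = τ * s := rfl
        rw [h3, h4, map_mul, Equiv.Perm.sign_swap h01]
        push_cast
        ring
      have h3 : ∑ τ : Equiv.Perm (Fin k × Fin 2), ((Equiv.Perm.sign τ : ℤ) : ℚ) *
          ∏ l, om ((P ^ i l) (v (τ (l, 0)))) (v (τ (l, 1))) = 0 := self_eq_neg.1 h2
      rw [h3, mul_zero]
    rw [h1]
    exact Submodule.zero_mem _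

/-- **The alternating forms annihilated by the Lefschetz Lie algebra.** -/
theorem alt_of_span {om : W →ₗ[ℚ] W →ₗ[ℚ] ℚ} (hanti : ∀ u v, om u v = -om v u)
    {P : Module.End ℚ W} (hPs : IsSkew om P) {k : ℕ} {φ : W [⋀^Fin k × Fin 2]→ₗ[ℚ] ℚ}
    (hφ : φ.toMultilinearMap ∈ Submodule.span ℚ (Pool.Agent.W5h86.LX.ProdP om P k)) :
    φ ∈ Submodule.span ℚ (AltP om P k) := by
  classical
  have h1 : ∀ m ∈ Submodule.span ℚ (Pool.Agent.W5h86.LX.ProdP om P k),
      MultilinearMap.alternatization m ∈ Submodule.span ℚ (AltP om P k) := by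
    intro m hm
    induction hm using Submodule.span_induction with
    | mem m hm =>
      obtain ⟨σ, i, hψ⟩ := hm
      exact alt_prod hanti hPs hψ
    | zero => rw [map_zero]; exact Submodule.zero_mem _
    | add a b _ _ ha hb => rw [map_add]; exact Submodule.add_mem _ ha hb
    | smul c a _ ha =>
      have h2 : MultilinearMap.alternatization (c • a) = c • MultilinearMap.alternatization a := by
        refine AlternatingMap.ext fun v => ?_
        rw [MultilinearMap.alternatization_apply, AlternatingMap.smul_apply,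
          MultilinearMap.alternatization_apply, Finset.smul_sum]
        refine Finset.sum_congr rfl fun σ _ => ?_
        rw [MultilinearMap.domDomCongr_apply, MultilinearMap.domDomCongr_apply,
          smul_apply, smul_comm]
      rw [h2]
      exact Submodule.smul_mem _ _ ha
  have h2 := h1 _ hφ
  have h3 : MultilinearMap.alternatization φ.toMultilinearMap =
      (Nat.factorial (Fintype.card (Fin k × Fin 2)) : ℚ) • φ := by
    have h4 := AlternatingMap.coe_alternatization φ
    rw [← Nat.cast_smul_eq_nsmul ℚ] at h4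
    exact h4
  rw [h3] at h2
  have h4 : (Nat.factorial (Fintype.card (Fin k × Fin 2)) : ℚ) ≠ 0 := by
    exact_mod_cast Nat.factorial_ne_zero _
  have h5 := Submodule.smul_mem _ (Nat.factorial (Fintype.card (Fin k × Fin 2)) : ℚ)⁻¹ h2
  rwa [smul_smul, inv_mul_cancel₀ h4, one_smul] at h5

end Alt

variable {g : ℕ}

/-- the classes annihilated by the Lefschetz Lie algebra are combinations of products of divisor
classes -/
theorem alt_of_kills (A : AbVar g) {P : Module.End ℚ A.H1} (hP : P ∈ A.EA) (hPs : IsSkew A.om P)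
    (hPi : Function.Injective P) {k : ℕ} {φ : A.H1 [⋀^Fin k × Fin 2]→ₗ[ℚ] ℚ}
    (h : ∀ Z : Module.End ℚ A.H1, IsSkew A.om Z → Z * P = P * Z →
      ∀ w : Fin k × Fin 2 → A.H1, ∑ r, φ (update w r (Z (w r))) = 0) :
    φ ∈ Submodule.span ℚ (AltP A.om P k) := by
  refine alt_of_span A.om_anti hPs ?_
  exact Pool.Agent.W5h86.LX.prod_of_kills A.om A.om_anti (fun u hu => A.om_nondeg hu) P hPs hPi
    (fun p => A.aeval_reduced hP hPs p) φ.toMultilinearMap (fun Z hZ1 hZ2 w => h Z hZ1 hZ2 w)

end Pool.Agent.W5h86.LP
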