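import Pool.Agent.W5h86.LP.Fin
import Pool.Agent.W5h86.LY.Br5

set_option autoImplicit false

/-!
# The coordinates of a place of signature `(1, n - 1)`
-/

open Module Function

noncomputable section

namespace Pool.Agent.W5h86.LP

open Pool.Agent.Y102 Pool.Agent.W516.DR Pool.Agent.W516.KC Pool.Agent.W5h86.LZ
open Pool.Agent.W5h86.LY Pool.Agent.W5h86.RK

variable {g : ℕ} {A : AbVar g} {P : Module.End ℚ A.H1}
  {M : (Fin g → ℂ) →ₗ[ℂ] (Fin g → ℂ)} {e : Basis (Fin g) ℂ (Fin g → ℂ)} {t : Fin g → ℝ}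
  {i0 : Fin g}

/-- the data -/
structure St (A : AbVar g) (P : Module.End ℚ A.H1) (M : (Fin g → ℂ) →ₗ[ℂ] (Fin g → ℂ))
    (e : Basis (Fin g) ℂ (Fin g → ℂ)) (t : Fin g → ℝ) : Prop where
  hM : ∀ w, M (A.per w) = A.per (P w)
  he : ∀ i, M (e i) = (t i * Complex.I : ℂ) • e i
  skew : ∀ u v, A.E (M u) v = -A.E u (M v)
  hP : P ∈ A.EA
  hEA : ∀ Q ∈ A.EA, Q ∈ Algebra.adjoin ℚ {P}
  ht : ∀ i, t i ≠ 0

lemma St.M_comm (h : St A P M e t) {Y : (Fin g → ℂ) →ₗ[ℝ] (Fin g → ℂ)}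
    (hY : Y ∈ A.CR A.LA) (v : Fin g → ℂ) : Y (M v) = M (Y v) := by
  have h1 := CR_comm (A := A) (C := A.LA) (P := P) (fun X hX => h.hP X hX) hY v
  rwa [ext_eq h.hM, ext_eq h.hM] at h1

/-- orthogonality of the eigenspaces -/
lemma St.orth (h : St A P M e t) {i j : Fin g} (hij : t i ≠ t j) (z w : ℂ) :
    A.E (z • e i) (w • e j) = 0 := by
  have hsl : ∀ (r : ℝ) x y, A.E (r • x) y = r * A.E x y := fun r x y => by
    rw [map_smul, LinearMap.smul_apply, smul_eq_mul]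
  have hsr : ∀ (r : ℝ) x y, A.E x (r • y) = r * A.E x y := fun r x y => by
    rw [map_smul, smul_eq_mul]
  have hI : ∀ x y, A.E (Complex.I • x) y = -A.E x (Complex.I • y) := fun x y => by
    rw [(A.E_I x y).2]
  have hMM : ∀ (z : ℂ) (i : Fin g), M (z • e i) = t i • (Complex.I • (z • e i)) := by
    intro z i
    rw [map_smul, h.he]
    funext x
    simp only [Pi.smul_apply, smul_eq_mul, Complex.real_smul]
    ring
  have key : ∀ z w : ℂ, A.E (z • e i) (Complex.I • (w • e j)) = 0 := by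
    intro z w
    have h1 := h.skew (z • e i) (w • e j)
    rw [hMM, hMM, hsl, hsr, hI] at h1
    have h2 : (t i - t j) * A.E (z • e i) (Complex.I • (w • e j)) = 0 := by linarith
    exact (mul_eq_zero.1 h2).resolve_left (sub_ne_zero.2 hij)
  have h3 := key z (-Complex.I * w)
  rw [smul_smul, ← mul_assoc, mul_neg, Complex.I_mul_I, neg_neg, one_mul] at h3
  exact h3

/-- the indices of the place -/
abbrev Io (t : Fin g → ℝ) (i0 : Fin g) : Type := {i : Fin g // t i = t i0 ∨ t i = -t i0}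

/-- the distinguished index -/
def j0 (t : Fin g → ℝ) (i0 : Fin g) : Io t i0 := ⟨i0, Or.inl rfl⟩

/-- the coordinates of the place -/
def Th (e : Basis (Fin g) ℂ (Fin g → ℂ)) (t : Fin g → ℝ) (i0 : Fin g) :
    (Io t i0 → ℂ) →ₗ[ℝ] (Fin g → ℂ) where
  toFun z := ∑ i, cj i0 i.1 (z i) • e i.1
  map_add' z w := by
    rw [← Finset.sum_add_distrib]
    refine Finset.sum_congr rfl fun i _ => ?_
    rw [Pi.add_apply, map_add, add_smul]
  map_smul' c z := by
    rw [RingHom.id_apply, Finset.smul_sum]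
    refine Finset.sum_congr rfl fun i _ => ?_
    rw [Pi.smul_apply, map_smul, smul_assoc]

lemma Th_apply (z : Io t i0 → ℂ) : Th e t i0 z = ∑ i, cj i0 i.1 (z i) • e i.1 := rfl

/-- the projection to the place -/
def Pr (e : Basis (Fin g) ℂ (Fin g → ℂ)) (t : Fin g → ℝ) (i0 : Fin g) :
    (Fin g → ℂ) →ₗ[ℝ] (Io t i0 → ℂ) where
  toFun v i := (cj i0 i.1).symm (e.repr v i.1)
  map_add' v w := by
    funext i
    rw [map_add, Finsupp.add_apply, map_add]
    rfl
  map_smul' c v := by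
    funext i
    have h1 : c • v = (c : ℂ) • v := by
      funext x
      rw [Pi.smul_apply, Pi.smul_apply, Complex.real_smul, smul_eq_mul]
    rw [h1, map_smul, Finsupp.smul_apply, RingHom.id_apply, Pi.smul_apply, smul_eq_mul,
      ← Complex.real_smul, map_smul]

lemma Pr_apply (v : Fin g → ℂ) (i : Io t i0) :
    Pr e t i0 v i = (cj i0 i.1).symm (e.repr v i.1) := rfl

lemma Pr_Th (z : Io t i0 → ℂ) : Pr e t i0 (Th e t i0 z) = z := by
  classical
  funext i
  rw [Pr_apply, Th_apply, map_sum, Finsupp.finsetSum_apply, Finset.sum_eq_single i]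
  · rw [map_smul, Finsupp.smul_apply, e.repr_self, Finsupp.single_eq_same, smul_eq_mul, mul_one,
      LinearEquiv.symm_apply_apply]
  · intro j _ hj
    rw [map_smul, Finsupp.smul_apply, e.repr_self, Finsupp.single_eq_of_ne, smul_zero]
    intro h
    exact hj (Subtype.ext h.symm)
  · intro h
    exact absurd (Finset.mem_univ _) h

lemma Th_inj : Function.Injective (Th e t i0) := fun z w h => by
  rw [← Pr_Th (e := e) z, h, Pr_Th]

lemma cj_symm (i0 i : Fin g) (z : ℂ) : (cj i0 i).symm z = cj i0 i z := by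
  by_cases h : i = i0
  · subst h
    rw [cj_same]
    apply (cj i i).injective
    rw [LinearEquiv.apply_symm_apply, cj_same]
  · apply (cj i0 i).injective
    rw [LinearEquiv.apply_symm_apply, cj_ne h, cj_ne h, Complex.conj_conj]

/-- the sign -/
lemma cj_I (hu : ∀ i, t i = t i0 → i = i0) (i : Io t i0) (z : ℂ) :
    (t i.1 : ℂ) * (Complex.I * cj i0 i.1 z) = (t i0 : ℂ) * cj i0 i.1 (Complex.I * z) := by
  by_cases h : i.1 = i0
  · rw [h, cj_same, cj_same]
  · have h1 : t i.1 = -t i0 := by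
      rcases i.2 with h2 | h2
      · exact absurd (hu _ h2) h
      · exact h2
    rw [cj_ne h, cj_ne h, map_mul, Complex.conj_I, h1]
    push_cast
    ring

lemma St.M_Th (h : St A P M e t) (hu : ∀ i, t i = t i0 → i = i0) (z : Io t i0 → ℂ) :
    M (Th e t i0 z) = t i0 • Th e t i0 (Complex.I • z) := by
  rw [Th_apply, Th_apply, map_sum, Finset.smul_sum]
  refine Finset.sum_congr rfl fun i _ => ?_
  rw [map_smul, h.he, smul_smul, Pi.smul_apply, smul_eq_mul]
  funext x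
  rw [Pi.smul_apply, Pi.smul_apply, Pi.smul_apply, smul_eq_mul, Complex.real_smul, smul_eq_mul]
  linear_combination e i.1 x * cj_I hu i (z i)

lemma St.repr_M (h : St A P M e t) (v : Fin g → ℂ) (i : Fin g) :
    e.repr (M v) i = (t i * Complex.I) * e.repr v i := by
  classical
  conv_lhs => rw [← e.sum_repr v]
  rw [map_sum, map_sum, Finsupp.finsetSum_apply, Finset.sum_eq_single i]
  · rw [map_smul, h.he, map_smul, map_smul, Finsupp.smul_apply, Finsupp.smul_apply, e.repr_self,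
      Finsupp.single_eq_same, smul_eq_mul, smul_eq_mul, mul_one, mul_comm]
  · intro j _ hj
    rw [map_smul, h.he, map_smul, map_smul, Finsupp.smul_apply, Finsupp.smul_apply, e.repr_self,
      Finsupp.single_eq_of_ne (Ne.symm hj), smul_zero, smul_zero]
  · intro h
    exact absurd (Finset.mem_univ _) h

lemma St.Pr_M (h : St A P M e t) (hu : ∀ i, t i = t i0 → i = i0) (v : Fin g → ℂ) :
    Pr e t i0 (M v) = t i0 • (Complex.I • Pr e t i0 v) := by
  funext i
  have h1 := h.repr_M v i.1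
  rw [Pi.smul_apply, Pi.smul_apply, Pr_apply, Pr_apply, h1, cj_symm, cj_symm, smul_eq_mul,
    Complex.real_smul]
  have h2 := cj_I hu i (cj i0 i.1 (e.repr v i.1))
  have h3 : ∀ z : ℂ, cj i0 i.1 (cj i0 i.1 z) = z := fun z => by
    rw [← cj_symm, LinearEquiv.symm_apply_apply]
  rw [h3] at h2
  have h4 := congrArg (cj i0 i.1) h2
  have h5 : ∀ (r : ℝ) (z : ℂ), cj i0 i.1 ((r : ℂ) * z) = (r : ℂ) * cj i0 i.1 z := by
    intro r z
    rw [← Complex.real_smul, map_smul, Complex.real_smul]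
  rw [h5, h5, h3, ← h5] at h4
  rw [mul_assoc, h4]

lemma St.Th_mem (h : St A P M e t) (hu : ∀ i, t i = t i0 → i = i0) (z : Io t i0 → ℂ) :
    A.ext (P * P) (Th e t i0 z) = (-(t i0) ^ 2) • Th e t i0 z := by
  rw [ext_sq h.hM, h.M_Th hu]
  have h1 : M (t i0 • Th e t i0 (Complex.I • z)) = t i0 • M (Th e t i0 (Complex.I • z)) := by
    have h2 : ∀ v : Fin g → ℂ, t i0 • v = (t i0 : ℂ) • v := fun v => by
      funext x
      rw [Pi.smul_apply, Pi.smul_apply, Complex.real_smul, smul_eq_mul]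
    rw [h2, h2, map_smul]
  rw [h1, h.M_Th hu, smul_smul, smul_smul, Complex.I_mul_I, neg_one_smul, map_neg, smul_neg,
    neg_smul, sq]

lemma St.Th_Pr (h : St A P M e t) {v : Fin g → ℂ}
    (hv : A.ext (P * P) v = (-(t i0) ^ 2) • v) : Th e t i0 (Pr e t i0 v) = v := by
  classical
  rw [Th_apply]
  have h1 : ∀ i : Io t i0, cj i0 i.1 (Pr e t i0 v i) = e.repr v i.1 := fun i => by
    rw [Pr_apply, LinearEquiv.apply_symm_apply]
  simp only [h1]
  have h2 : ∀ i : Fin g, ¬ (t i = t i0 ∨ t i = -t i0) → e.repr v i = 0 := by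
    intro i hi
    have h3 : e.repr (A.ext (P * P) v) i = (-(t i : ℂ) ^ 2) * e.repr v i := by
      rw [ext_sq h.hM, h.repr_M, h.repr_M]
      linear_combination ((t i : ℂ) ^ 2 * e.repr v i) * Complex.I_sq
    have h4 : ((-(t i0) ^ 2 : ℝ)) • v = ((-(t i0) ^ 2 : ℝ) : ℂ) • v := by
      funext x
      rw [Pi.smul_apply, Pi.smul_apply, Complex.real_smul, smul_eq_mul]
    rw [hv, h4, map_smul, Finsupp.smul_apply, smul_eq_mul] at h3
    push_cast at h3
    have h5 : ((t i - t i0) * (t i + t i0) : ℂ) * e.repr v i = 0 := by linear_combination h3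
    rcases mul_eq_zero.1 h5 with h6 | h6
    · exfalso
      apply hi
      rcases mul_eq_zero.1 h6 with h7 | h7
      · left
        exact_mod_cast sub_eq_zero.1 h7
      · right
        have h8 : (t i : ℂ) = ((-t i0 : ℝ) : ℂ) := by
          push_cast
          linear_combination h7
        exact_mod_cast h8
    · exact h6
  conv_rhs => rw [← e.sum_repr v]
  rw [← Fintype.sum_subtype_add_sum_subtype (fun i : Fin g => t i = t i0 ∨ t i = -t i0)
    (fun i => e.repr v i • e i)]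
  rw [Finset.sum_eq_zero (s := (Finset.univ : Finset {i : Fin g // ¬ (t i = t i0 ∨ t i = -t i0)})),
    add_zero]
  intro i _
  rw [h2 i.1 i.2, zero_smul]

/-- the form in the coordinates -/
def Eo (A : AbVar g) (e : Basis (Fin g) ℂ (Fin g → ℂ)) (t : Fin g → ℝ) (i0 : Fin g) :
    (Io t i0 → ℂ) →ₗ[ℝ] (Io t i0 → ℂ) →ₗ[ℝ] ℝ :=
  A.E.compl₁₂ (Th e t i0) (Th e t i0)

lemma Eo_apply (z w : Io t i0 → ℂ) : Eo A e t i0 z w = A.E (Th e t i0 z) (Th e t i0 w) := rfl

/-- the multiplication by the imaginary unit -/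
def Jo (t : Fin g → ℝ) (i0 : Fin g) : (Io t i0 → ℂ) →ₗ[ℝ] (Io t i0 → ℂ) :=
  (Complex.I • (LinearMap.id : (Io t i0 → ℂ) →ₗ[ℂ] (Io t i0 → ℂ))).restrictScalars ℝ

lemma Jo_apply (z : Io t i0 → ℂ) : Jo t i0 z = Complex.I • z := rfl

lemma St.cx (h : St A P M e t) (hu : ∀ i, t i = t i0 → i = i0) :
    Cx (Eo A e t i0) (Jo t i0) (LinearEquiv.refl ℝ (Io t i0 → ℂ)) := by
  refine ⟨fun z => rfl, fun z => A.E_self _, fun z w => ?_⟩
  rw [Eo_apply, Eo_apply, Jo_apply, Jo_apply]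
  have h1 := h.skew (Th e t i0 z) (M (Th e t i0 w))
  rw [h.M_Th hu z, h.M_Th hu w] at h1
  have h2 : M (t i0 • Th e t i0 (Complex.I • w)) = t i0 • M (Th e t i0 (Complex.I • w)) := by
    have h2 : ∀ v : Fin g → ℂ, t i0 • v = (t i0 : ℂ) • v := fun v => by
      funext x
      rw [Pi.smul_apply, Pi.smul_apply, Complex.real_smul, smul_eq_mul]
    rw [h2, h2, map_smul]
  rw [h2, h.M_Th hu (Complex.I • w), smul_smul Complex.I, Complex.I_mul_I, neg_one_smul, map_neg,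
    smul_neg, smul_neg] at h1
  simp only [map_smul, LinearMap.smul_apply, smul_eq_mul, map_neg, neg_neg] at h1
  have h3 : t i0 * t i0 ≠ 0 := mul_ne_zero (h.ht i0) (h.ht i0)
  apply mul_left_cancel₀ h3
  linear_combination h1

/-- the Lie algebra of the place -/
def Go (A : AbVar g) (e : Basis (Fin g) ℂ (Fin g → ℂ)) (t : Fin g → ℝ) (i0 : Fin g) :
    Submodule ℝ ((Io t i0 → ℂ) →ₗ[ℝ] (Io t i0 → ℂ)) where
  carrier := {T' | ∃ T ∈ A.CR A.LA, ∀ z, T (Th e t i0 z) = Th e t i0 (T' z)}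
  zero_mem' := ⟨0, Submodule.zero_mem _, fun z => by
    rw [LinearMap.zero_apply, LinearMap.zero_apply, map_zero]⟩
  add_mem' := by
    rintro a b ⟨T, hT, h1⟩ ⟨S, hS, h2⟩
    exact ⟨T + S, Submodule.add_mem _ hT hS, fun z => by
      rw [LinearMap.add_apply, LinearMap.add_apply, map_add, h1, h2]⟩
  smul_mem' := by
    rintro c a ⟨T, hT, h1⟩
    exact ⟨c • T, Submodule.smul_mem _ c hT, fun z => by
      rw [LinearMap.smul_apply, LinearMap.smul_apply, map_smul, h1]⟩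

/-- the restriction to the place -/
lemma St.exists_res (h : St A P M e t) (hu : ∀ i, t i = t i0 → i = i0)
    {T : (Fin g → ℂ) →ₗ[ℝ] (Fin g → ℂ)} (hT : ∀ v, T (M v) = M (T v)) :
    ∃ T' : (Io t i0 → ℂ) →ₗ[ℝ] (Io t i0 → ℂ), (∀ z, T (Th e t i0 z) = Th e t i0 (T' z)) ∧
      ∀ z, T' (Jo t i0 z) = Jo t i0 (T' z) := by
  have h1 : ∀ z, T (Th e t i0 z) = Th e t i0 (Pr e t i0 (T (Th e t i0 z))) := by
    intro z
    rw [h.Th_Pr]
    have h2 := h.Th_mem hu z
    rw [ext_sq h.hM] at h2 ⊢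
    rw [← hT, ← hT, h2, map_smul]
  refine ⟨(Pr e t i0).comp (T.comp (Th e t i0)), h1, fun z => ?_⟩
  apply Th_inj (e := e)
  change Th e t i0 (Pr e t i0 (T (Th e t i0 (Complex.I • z)))) =
    Th e t i0 (Complex.I • Pr e t i0 (T (Th e t i0 z)))
  have h3 := h.M_Th hu (Pr e t i0 (T (Th e t i0 z)))
  rw [← h1, ← hT, h.M_Th hu z, map_smul] at h3
  rw [← h1]
  exact smul_right_injective _ (h.ht i0) h3

/-- **Irreducibility.** -/
lemma St.irr (h : St A P M e t) (hu : ∀ i, t i = t i0 → i = i0)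
    (N : Submodule ℝ (Io t i0 → ℂ)) (hN : ∀ T' ∈ Go A e t i0, ∀ u ∈ N, T' u ∈ N)
    (X : Matrix (Io t i0) (Io t i0) ℂ) : ∀ u ∈ N, X.mulVec u ∈ N := by
  let W : Submodule ℝ (Fin g → ℂ) := N.map (Th e t i0)
  have h1 : ∀ Y ∈ A.CR A.LA, ∀ v ∈ W, Y v ∈ W := by
    rintro Y hY _ ⟨z, hz, rfl⟩
    obtain ⟨T', h2, -⟩ := h.exists_res hu (T := Y) (h.M_comm hY)
    rw [h2]
    exact ⟨T' z, hN T' ⟨Y, hY, h2⟩ z hz, rfl⟩
  let Y : (Fin g → ℂ) →ₗ[ℝ] (Fin g → ℂ) :=
    (Th e t i0).comp ((X.mulVecLin.restrictScalars ℝ).comp (Pr e t i0))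
  have hY : ∀ v, Y v = Th e t i0 (X.mulVec (Pr e t i0 v)) := fun v => rfl
  have h2 := stable' h.hEA h1 (Y := Y) (fun w => by
    rw [ext_eq h.hM, ext_eq h.hM, hY, hY, h.Pr_M hu, h.M_Th hu]
    have h3 : X.mulVec (t i0 • (Complex.I • Pr e t i0 w)) =
        t i0 • (Complex.I • X.mulVec (Pr e t i0 w)) := by
      rw [Matrix.mulVec_smul, Matrix.mulVec_smul]
    rw [h3, map_smul])
  intro u hu'
  obtain ⟨z, hz, h3⟩ := h2 (Th e t i0 u) ⟨u, hu', rfl⟩
  rw [hY, Pr_Th] at h3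
  rw [← Th_inj h3]
  exact hz

end Pool.Agent.W5h86.LP
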