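import Pool.Agent.W5h86.LY.Rat
import Pool.Agent.W5h86.RK.Mn

set_option autoImplicit false

/-!
# The types of the components of a rational form are permuted by the conjugations
-/

open Module Function Polynomial

noncomputable section

namespace Pool.Agent.W5h86.LP

open Pool.Agent.Y102 Pool.Agent.W516.DR Pool.Agent.W516.KC Pool.Agent.W5h86.LZ
open Pool.Agent.W5h86.LY

/-- the polynomials which give the coefficients of the quotient by a linear factor -/
def bp (p : ℚ[X]) (i : ℕ) : ℚ[X] := ∑ j ∈ Finset.range p.natDegree, C (p.coeff (i + 1 + j)) * X ^ j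

lemma aeval_bp {p : ℚ[X]} {ρ : ℝ} (hρ : IsIntegral ℚ ρ) (hp : minpoly ℚ ρ = p) (i : ℕ) :
    aeval ρ (bp p i) = (minpolyDiv ℚ ρ).coeff i := by
  have key : ∀ k i, p.natDegree ≤ i + k →
      (minpolyDiv ℚ ρ).coeff i = ∑ j ∈ Finset.range k, (p.coeff (i + 1 + j) : ℝ) * ρ ^ j := by
    intro k
    induction k with
    | zero =>
      intro i hi
      rw [Finset.range_zero, Finset.sum_empty]
      apply coeff_eq_zero_of_natDegree_lt
      have h2 := natDegree_minpolyDiv_lt hρ
      rw [hp] at h2
      omega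
    | succ k ih =>
      intro i hi
      rw [coeff_minpolyDiv, ih (i + 1) (by omega), Finset.sum_range_succ', Finset.sum_mul, hp,
        add_comm]
      congr 1
      · refine Finset.sum_congr rfl fun j _ => ?_
        rw [show i + 1 + 1 + j = i + 1 + (j + 1) from by omega]
        ring
      · simp
  rw [key p.natDegree i (by omega)]
  unfold bp
  rw [map_sum]
  refine Finset.sum_congr rfl fun j _ => ?_
  rw [map_mul, map_pow, aeval_X, aeval_C]
  rfl

variable {g : ℕ} {A : AbVar g} {N : Type} [Fintype N] [DecidableEq N]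

/-- the operators -/
def Op (A : AbVar g) (R : Module.End ℚ A.H1) (n : ℕ) (c : ℕ → ℚ[X]) (ρ : ℝ) :
    (Fin g → ℂ) →ₗ[ℝ] (Fin g → ℂ) :=
  ∑ i : Fin n, (aeval ρ (c i)) • A.ext (R ^ (i : ℕ))

/-- the sum of the components -/
def Psi (A : AbVar g) (R : Module.End ℚ A.H1) (n : ℕ) (𝒮 : Finset (Finset N))
    (c : Finset N → N → ℕ → ℚ[X]) (ψ : MultilinearMap ℝ (fun _ : N => Fin g → ℂ) ℝ) (ρ : ℝ) :
    MultilinearMap ℝ (fun _ : N => Fin g → ℂ) ℝ :=
  ∑ s ∈ 𝒮, ψ.compLinearMap (fun r => Op A R n (c s r) ρ)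

omit [DecidableEq N] in
lemma Psi_apply (R : Module.End ℚ A.H1) (n : ℕ) (𝒮 : Finset (Finset N))
    (c : Finset N → N → ℕ → ℚ[X]) (ψ : MultilinearMap ℝ (fun _ : N => Fin g → ℂ) ℝ) (ρ : ℝ)
    (v : N → (Fin g → ℂ)) :
    Psi A R n 𝒮 c ψ ρ v = ∑ s ∈ 𝒮, ψ (fun r => Op A R n (c s r) ρ (v r)) := by
  unfold Psi
  rw [MultilinearMap.sum_apply]
  rfl

/-- the values on the lattice are the values of a rational polynomial -/
lemma exists_poly (R : Module.End ℚ A.H1) (n : ℕ) (𝒮 : Finset (Finset N))
    (c : Finset N → N → ℕ → ℚ[X]) (ψ : MultilinearMap ℝ (fun _ : N => Fin g → ℂ) ℝ)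
    (hψ : ∀ w : N → A.H1, ∃ q : ℚ, ψ (fun r => A.per (w r)) = q) (w : N → A.H1) :
    ∃ G : ℚ[X], ∀ ρ : ℝ, aeval ρ G = Psi A R n 𝒮 c ψ ρ (fun r => A.per (w r)) := by
  choose q hq using hψ
  refine ⟨∑ s ∈ 𝒮, ∑ ι : N → Fin n, (∏ r, c s r (ι r)) *
    C (q (fun r => (R ^ (ι r : ℕ)) (w r))), fun ρ => ?_⟩
  rw [Psi_apply, map_sum]
  refine Finset.sum_congr rfl fun s _ => ?_
  have h1 : (fun r => Op A R n (c s r) ρ (A.per (w r))) =
      fun r => ∑ i : Fin n, (aeval ρ (c s r i)) • A.per ((R ^ (i : ℕ)) (w r)) := by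
    funext r
    unfold Op
    rw [LinearMap.sum_apply]
    refine Finset.sum_congr rfl fun i _ => ?_
    rw [LinearMap.smul_apply, AbVar.ext_apply]
  rw [h1, MultilinearMap.map_sum, map_sum]
  refine Finset.sum_congr rfl fun ι _ => ?_
  rw [MultilinearMap.map_smul_univ, hq, map_mul, map_prod, aeval_C, smul_eq_mul]
  rfl

lemma ext_pow (R : Module.End ℚ A.H1) {x : ℝ} {v : Fin g → ℂ} (hv : A.ext R v = x • v) (i : ℕ) :
    A.ext (R ^ i) v = (x ^ i) • v := by
  have h := Pool.Agent.W5h86.RK.ext_aeval_eig hv (X ^ i)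
  rwa [map_pow, aeval_X, map_pow, aeval_X] at h

/-- the operators on eigenvectors -/
lemma Op_eig {R : Module.End ℚ A.H1} {n : ℕ} (c : ℕ → ℚ[X]) (ρ : ℝ) {x : ℝ} {v : Fin g → ℂ}
    (hv : A.ext R v = x • v) :
    Op A R n c ρ v = (∑ i ∈ Finset.range n, aeval ρ (c i) * x ^ i) • v := by
  unfold Op
  rw [LinearMap.sum_apply, Finset.sum_smul, Finset.sum_range]
  refine Finset.sum_congr rfl fun i _ => ?_
  rw [LinearMap.smul_apply, ext_pow R hv, smul_smul]

/-- **The types of the components are permuted by the conjugations.** -/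
theorem trp {ψ : MultilinearMap ℝ (fun _ : N => Fin g → ℂ) ℝ}
    (hψ : ∀ w : N → A.H1, ∃ q : ℚ, ψ (fun r => A.per (w r)) = q) {R : Module.End ℚ A.H1}
    (hirr : Irreducible (minpoly ℚ R)) {ι : Type} (b : Basis ι ℝ (Fin g → ℂ)) {ev : ι → ℝ}
    (hb : ∀ i, A.ext R (b i) = ev i • b i) (hev : ∀ i, aeval (ev i) (minpoly ℚ R) = 0)
    {ρ ρ' : ℝ} (hρ : aeval ρ (minpoly ℚ R) = 0) (hρ' : aeval ρ' (minpoly ℚ R) = 0) {m : ℕ}
    (h : ∀ v : N → ι, (Finset.univ.filter fun r => ev (v r) = ρ).card = m →
      ψ (fun r => b (v r)) = 0) (v : N → ι)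
    (hv : (Finset.univ.filter fun r => ev (v r) = ρ').card = m) : ψ (fun r => b (v r)) = 0 := by
  classical
  set p := minpoly ℚ R with hp
  have hRint : IsIntegral ℚ R := Algebra.IsIntegral.isIntegral R
  have hmon : p.Monic := minpoly.monic hRint
  have hmin : ∀ x : ℝ, aeval x p = 0 → minpoly ℚ x = p := fun x hx =>
    (minpoly.eq_of_irreducible_of_monic hirr hx hmon).symm
  have hint : ∀ x : ℝ, aeval x p = 0 → IsIntegral ℚ x := fun x hx =>
    ⟨p, hmon, by rwa [← aeval_def]⟩
  set n := p.natDegree with hn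
  have hn0 : 0 < n := hirr.natDegree_pos
  -- the coefficients
  let c : Finset N → N → ℕ → ℚ[X] := fun s r i =>
    if r ∈ s then bp p i else (if i = 0 then derivative p else 0) - bp p i
  -- the values on the eigenvectors
  have hd : ∀ x y : ℝ, aeval x p = 0 → aeval y p = 0 →
      ∑ i ∈ Finset.range n, aeval x (bp p i) * y ^ i =
        if x = y then aeval x (derivative p) else 0 := by
    intro x y hx hy
    have h1 : ∑ i ∈ Finset.range n, aeval x (bp p i) * y ^ i = (minpolyDiv ℚ x).eval y := by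
      have h2 : (minpolyDiv ℚ x).natDegree < n := by
        have h3 := natDegree_minpolyDiv_lt (hint x hx)
        rwa [hmin x hx] at h3
      rw [eval_eq_sum_range' h2]
      refine Finset.sum_congr rfl fun i _ => ?_
      rw [aeval_bp (hint x hx) (hmin x hx)]
    rw [h1, eval_minpolyDiv_of_aeval_eq_zero (by rw [hmin x hx]; exact hy), hmin x hx]
  have hop : ∀ (s : Finset N) (r : N) (x : ℝ) (i : ι), aeval x p = 0 →
      Op A R n (c s r) x (b i) = (if (r ∈ s ↔ ev i = x) then aeval x (derivative p) else 0) •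
        b i := by
    intro s r x i hx
    rw [Op_eig _ _ (hb i)]
    congr 1
    by_cases hr : r ∈ s
    · have h1 : ∀ j, c s r j = bp p j := fun j => by
        simp only [c]
        rw [if_pos hr]
      simp only [h1]
      rw [hd x _ hx (hev i)]
      by_cases hxe : x = ev i
      · rw [if_pos hxe, if_pos (by rw [hxe]; simp [hr])]
      · rw [if_neg hxe, if_neg]
        intro h2
        exact hxe (h2.1 hr).symm
    · have h1 : ∀ j, c s r j = (if j = 0 then derivative p else 0) - bp p j := fun j => by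
        simp only [c]
        rw [if_neg hr]
      simp only [h1, map_sub, sub_mul]
      rw [Finset.sum_sub_distrib, hd x _ hx (hev i), Finset.sum_eq_single 0]
      · rw [if_pos rfl, pow_zero, mul_one]
        by_cases hxe : x = ev i
        · rw [if_pos hxe, sub_self, if_neg]
          intro h2
          exact hr (h2.2 hxe.symm)
        · rw [if_neg hxe, sub_zero, if_pos]
          exact ⟨fun h2 => absurd h2 hr, fun h2 => absurd h2.symm hxe⟩
      · intro j _ hj
        rw [if_neg hj, map_zero, zero_mul]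
      · intro h2
        exact absurd (Finset.mem_range.2 hn0) h2
  let 𝒮 : Finset (Finset N) := Finset.univ.filter fun s => s.card = m
  have hval : ∀ (x : ℝ), aeval x p = 0 → ∀ v : N → ι, Psi A R n 𝒮 c ψ x (fun r => b (v r)) =
      if (Finset.univ.filter fun r => ev (v r) = x).card = m then
        (aeval x (derivative p)) ^ Fintype.card N * ψ (fun r => b (v r)) else 0 := by
    intro x hx v
    rw [Psi_apply]
    have h1 : ∀ s : Finset N, ψ (fun r => Op A R n (c s r) x (b (v r))) =
        if s = Finset.univ.filter fun r => ev (v r) = x then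
          (aeval x (derivative p)) ^ Fintype.card N * ψ (fun r => b (v r)) else 0 := by
      intro s
      have h2 : (fun r => Op A R n (c s r) x (b (v r))) = fun r =>
          (if (r ∈ s ↔ ev (v r) = x) then aeval x (derivative p) else 0) • b (v r) := by
        funext r
        exact hop s r x (v r) hx
      rw [h2, MultilinearMap.map_smul_univ, smul_eq_mul]
      by_cases hs : s = Finset.univ.filter fun r => ev (v r) = x
      · rw [if_pos hs]
        congr 1
        rw [← Finset.card_univ, ← Finset.prod_const]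
        refine Finset.prod_congr rfl fun r _ => ?_
        rw [if_pos]
        rw [hs, Finset.mem_filter]
        simp
      · rw [if_neg hs]
        obtain ⟨r, hr⟩ : ∃ r, ¬ (r ∈ s ↔ ev (v r) = x) := by
          by_contra hcon
          push Not at hcon
          apply hs
          ext r
          rw [Finset.mem_filter, hcon r]
          simp
        rw [Finset.prod_eq_zero (Finset.mem_univ r) (if_neg hr), zero_mul]
    rw [Finset.sum_congr rfl fun s _ => h1 s, Finset.sum_ite_eq']
    by_cases hm : (Finset.univ.filter fun r => ev (v r) = x).card = m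
    · rw [if_pos hm, if_pos]
      rw [Finset.mem_filter]
      exact ⟨Finset.mem_univ _, hm⟩
    · rw [if_neg hm, if_neg]
      rw [Finset.mem_filter]
      exact fun h2 => hm h2.2
  -- the form is zero for the first root
  have h0 : Psi A R n 𝒮 c ψ ρ = 0 := by
    refine Basis.ext_multilinear (fun _ => b) fun v => ?_
    rw [MultilinearMap.zero_apply, hval ρ hρ v]
    by_cases hm : (Finset.univ.filter fun r => ev (v r) = ρ).card = m
    · rw [if_pos hm, h v hm, mul_zero]
    · rw [if_neg hm]
  -- and so for the second one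
  have h1 : Psi A R n 𝒮 c ψ ρ' = 0 := by
    refine Basis.ext_multilinear (fun _ => A.lam) fun u => ?_
    rw [MultilinearMap.zero_apply]
    obtain ⟨G, hG⟩ := exists_poly R n 𝒮 c ψ hψ (fun r => A.bas (u r))
    have h2 : (fun r => A.per (A.bas (u r))) = fun r => A.lam (u r) := by
      funext r
      rw [AbVar.per_bas]
    rw [h2] at hG
    have h3 : aeval ρ G = 0 := by
      rw [hG, h0, MultilinearMap.zero_apply]
    have h4 : p ∣ G := by
      rw [← hmin ρ hρ]
      exact minpoly.dvd ℚ ρ h3
    obtain ⟨G', rfl⟩ := h4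
    rw [← hG, map_mul, hρ', zero_mul]
  have h2 := hval ρ' hρ' v
  rw [if_pos hv, h1, MultilinearMap.zero_apply] at h2
  refine (mul_eq_zero.1 h2.symm).resolve_left (pow_ne_zero _ ?_)
  have hsep : p.Separable := hirr.separable
  exact hsep.aeval_derivative_ne_zero hρ'

end Pool.Agent.W5h86.LP
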