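import Pool.Agent.W5h86.LP.Par
import Pool.Agent.W5h86.LP.Trp

set_option autoImplicit false

/-!
# From the Lie algebra at one place to the annihilation of the classes
-/

open Module Function Polynomial

noncomputable section

namespace Pool.Agent.W5h86.LP

open Pool.Agent.Y102 Pool.Agent.W516.DR Pool.Agent.W516.KC Pool.Agent.W5h86.LZ
open Pool.Agent.W5h86.LY Pool.Agent.W5h86.RK

section Gen

variable {V : Type} [AddCommGroup V] [Module ℝ V] {ι : Type} (b : Basis ι ℝ V) (ev : ι → ℝ)

/-- the span of the eigenvectors for the other eigenvalues -/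
def Vc (ρ : ℝ) : Submodule ℝ V where
  carrier := {v | ∀ i, ev i = ρ → b.repr v i = 0}
  zero_mem' := fun i _ => by rw [map_zero, Finsupp.zero_apply]
  add_mem' := fun {v w} hv hw i hi => by rw [map_add, Finsupp.add_apply, hv i hi, hw i hi, add_zero]
  smul_mem' := fun c v hv i hi => by rw [map_smul, Finsupp.smul_apply, hv i hi, smul_zero]

variable {b ev}

lemma mem_Vc {ρ : ℝ} {v : V} : v ∈ Vc b ev ρ ↔ ∀ i, ev i = ρ → b.repr v i = 0 := Iff.rfl

lemma basis_mem_Vc {ρ : ℝ} {i : ι} (hi : ev i ≠ ρ) : b i ∈ Vc b ev ρ := by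
  classical
  intro j hj
  rw [b.repr_self, Finsupp.single_apply, if_neg]
  rintro rfl
  exact hi hj

/-- eigenvectors -/
lemma repr_of_eig {T : V →ₗ[ℝ] V} (hb : ∀ i, T (b i) = ev i • b i) {ρ : ℝ} {v : V}
    (hv : T v = ρ • v) (i : ι) (hi : ev i ≠ ρ) : b.repr v i = 0 := by
  have h1 : b.coord i ∘ₗ T = ev i • b.coord i := by
    refine b.ext fun j => ?_
    rw [LinearMap.comp_apply, hb, map_smul, LinearMap.smul_apply, Basis.coord_apply, b.repr_self]
    by_cases hij : j = i
    · rw [hij]
    · rw [Finsupp.single_eq_of_ne (Ne.symm hij), smul_zero, smul_zero]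
  have h2 := LinearMap.congr_fun h1 v
  rw [LinearMap.comp_apply, hv, map_smul, LinearMap.smul_apply, Basis.coord_apply, smul_eq_mul,
    smul_eq_mul] at h2
  have h3 : (ρ - ev i) * b.repr v i = 0 := by linear_combination h2
  exact (mul_eq_zero.1 h3).resolve_left (sub_ne_zero.2 (Ne.symm hi))

/-- the decomposition -/
lemma exists_dec [Fintype ι] {T : V →ₗ[ℝ] V} (hb : ∀ i, T (b i) = ev i • b i) (ρ : ℝ) (v : V) :
    ∃ u, T u = ρ • u ∧ v - u ∈ Vc b ev ρ := by
  classical
  refine ⟨∑ i, (if ev i = ρ then b.repr v i else 0) • b i, ?_, ?_⟩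
  · rw [map_sum, Finset.smul_sum]
    refine Finset.sum_congr rfl fun i _ => ?_
    rw [map_smul, hb]
    by_cases hi : ev i = ρ
    · rw [hi, smul_comm]
    · rw [if_neg hi, zero_smul, zero_smul, smul_zero]
  · intro i hi
    rw [map_sub, Finsupp.sub_apply, map_sum, Finsupp.finsetSum_apply, Finset.sum_eq_single i]
    · rw [map_smul, Finsupp.smul_apply, b.repr_self, Finsupp.single_eq_same, if_pos hi, smul_eq_mul,
        mul_one, sub_self]
    · intro j _ hj
      rw [map_smul, Finsupp.smul_apply, b.repr_self, Finsupp.single_eq_of_ne (Ne.symm hj), smul_zero]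
    · intro h
      exact absurd (Finset.mem_univ _) h

end Gen

variable {g : ℕ} {A : AbVar g} {P : Module.End ℚ A.H1}
  {κ : Type} [Fintype κ] [DecidableEq κ]

/-- **The classes are annihilated**, given the Lie algebra at one place. -/
theorem final_place
    (hP : P ∈ A.EA) (hPs : IsSkew A.om P)
    {ι : Type} [Fintype ι] (b : Basis ι ℝ (Fin g → ℂ)) {ev : ι → ℝ}
    (hb : ∀ i, A.ext (P * P) (b i) = ev i • b i)
    (hirr : Irreducible (minpoly ℚ (P * P)))
    (hev : ∀ i, aeval (ev i) (minpoly ℚ (P * P)) = 0)
    {ρ : ℝ} (hρ : aeval ρ (minpoly ℚ (P * P)) = 0)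
    (L : (κ × Fin 2 → ℝ) →ₗ[ℝ] (Fin g → ℂ)) (hL : Function.Injective L)
    (hLr : ∀ x, A.ext (P * P) (L x) = ρ • L x)
    (hLs : ∀ v, A.ext (P * P) v = ρ • v → ∃ x, L x = v)
    (hex : ExchK (fun r : κ × Fin 2 => L (Pi.single r 1))
      {T | T ∈ A.CR A.LA ∧ ∀ v ∈ Vc b ev ρ, T v = 0})
    (h0 : ∀ i j, i ≠ j → ∀ ε δ,
      A.E (L (Pi.single (i, ε) 1)) (L (Pi.single (j, δ) 1)) = 0)
    (h1 : ∀ i, A.E (L (Pi.single (i, 0) 1)) (L (Pi.single (i, 1) 1)) ≠ 0)
    (hκ : 0 < Fintype.card κ)
    (hdim : ∀ i, (Finset.univ.filter fun j => ev j = ev i).card = 2 * Fintype.card κ)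
    {k : ℕ} (hk : 2 * k < Fintype.card κ ∨ (Odd (Fintype.card κ) ∧ k < Fintype.card κ) ∨
      Fintype.card ι < 2 * k + Fintype.card κ ∨
      (Odd (Fintype.card κ) ∧ Fintype.card ι < 2 * k + 2 * Fintype.card κ))
    (φ : A.H1 [⋀^Fin k × Fin 2]→ₗ[ℚ] ℚ)
    (hφ : IsDeRhamBettiForm QBar A.dR tau k φ.toMultilinearMap)
    {Z : Module.End ℚ A.H1} (hZ1 : IsSkew A.om Z) (hZ2 : Z * P = P * Z)
    (w : Fin k × Fin 2 → A.H1) : ∑ r, φ (update w r (Z (w r))) = 0 := by
  classical
  set R : Module.End ℚ A.H1 := P * P with hR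
  set p := minpoly ℚ R with hp
  have hRint : IsIntegral ℚ R := Algebra.IsIntegral.isIntegral R
  have hmon : p.Monic := minpoly.monic hRint
  have hmin : minpoly ℚ ρ = p := (minpoly.eq_of_irreducible_of_monic hirr hρ hmon).symm
  have hint : IsIntegral ℚ ρ := ⟨p, hmon, by rwa [← aeval_def]⟩
  have hRmin : aeval R (minpoly ℚ ρ) = 0 := by rw [hmin, hp, minpoly.aeval]
  set ψ := MultilinearMap.alternatization (A.Phi φ.toMultilinearMap) with hψd
  set K : Set ((Fin g → ℂ) →ₗ[ℝ] (Fin g → ℂ)) := {T | T ∈ A.CR A.LA ∧ ∀ v ∈ Vc b ev ρ, T v = 0}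
    with hK
  have hRcomm : ∀ X ∈ A.LA, X * R = R * X := by
    intro X hX
    have h2 : X * P = P * X := hP X hX
    rw [hR, ← mul_assoc, h2, mul_assoc, h2, mul_assoc]
  have hKr : ∀ T ∈ K, ∀ x, ∃ y, T (L x) = L y := by
    intro T hT x
    obtain ⟨y, hy⟩ := hLs (T (L x)) (by
      have h2 := CR_comm (A := A) (C := A.LA) (P := R) hRcomm hT.1 (L x)
      rw [← h2, hLr, map_smul])
    exact ⟨y, hy.symm⟩
  have hψk : ∀ T ∈ K, Kills T ψ := by
    intro T hT
    refine kills_alternatization fun u => ?_
    exact A.Phi_kills φ.toMultilinearMap T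
      (fun f v => AbVar.kills_of_mem A hφ (A.CR_cmp hT.1 f) v) u
  have hψr : ∀ w : Fin k × Fin 2 → A.H1, ∃ q : ℚ, ψ.toMultilinearMap (fun r => A.per (w r)) = q := by
    intro w
    refine ⟨(Fintype.card (Equiv.Perm (Fin k × Fin 2)) : ℚ) * φ w, ?_⟩
    have h2 := alt_Phi φ w
    rw [AlternatingMap.coe_multilinearMap, hψd, h2]
    push_cast
    rfl
  -- the odd components vanish
  have hodd : ∀ m : ℕ, m ≠ Fintype.card κ → ¬ (∃ j, m = 2 * j) → ∀ f : Fin k × Fin 2 → ι,
      (Finset.univ.filter fun r => ev (f r) = ρ).card = m →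
      ψ.toMultilinearMap (fun r => b (f r)) = 0 := by
    intro m hm1 hm2 f hf
    set s : Finset (Fin k × Fin 2) := Finset.univ.filter fun r => ev (f r) = ρ with hs
    have hbV : ∀ r, r ∉ s → b (f r) ∈ Vc b ev ρ := by
      intro r hr
      apply basis_mem_Vc
      intro h2
      exact hr (Finset.mem_filter.2 ⟨Finset.mem_univ _, h2⟩)
    have h2 := slot_zero L hL (Vc b ev ρ) hKr (fun T hT => hT.2) hex ψ hψk
      (s := s) (by rw [hf]; exact hm1) (by rw [hf]; exact hm2) (b := fun r => b (f r)) hbV
    have h3 : ∀ r : s, ∃ x, L x = b (f r.1) := fun r => hLs _ (by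
      rw [hb, (Finset.mem_filter.1 r.2).2])
    choose y hy using h3
    have h4 := congrArg (fun F => F y) h2
    rw [slot_apply] at h4
    have h5 : wx L (fun r => b (f r)) s y = fun r => b (f r) := by
      funext r
      unfold wx
      by_cases hr : r ∈ s
      · rw [dif_pos hr, hy]
      · rw [dif_neg hr]
    rw [h5] at h4
    exact h4
  have hzero : ∀ s : Finset (Fin k × Fin 2), s.card = Fintype.card κ →
      ∀ bb : Fin k × Fin 2 → (Fin g → ℂ), (∀ r, r ∉ s → bb r ∈ Vc b ev ρ) → slot ψ L bb s = 0 := by
    intro s hs bb hbb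
    have hsle : s.card ≤ 2 * k := by
      have h2 := Finset.card_le_univ s
      rw [Fintype.card_prod, Fintype.card_fin, Fintype.card_fin] at h2
      omega
    ext y
    rw [slot_apply, AlternatingMap.zero_apply]
    set v := wx L bb s y with hv
    have hv1 : ∀ r ∈ s, ∀ i, ev i ≠ ρ → b.repr (v r) i = 0 := by
      intro r hr i hi
      have h2 : v r = L (y ⟨r, hr⟩) := by
        rw [hv]
        unfold wx
        rw [dif_pos hr]
      rw [h2]
      exact repr_of_eig hb (hLr _) i hi
    have hv2 : ∀ r, r ∉ s → ∀ i, ev i = ρ → b.repr (v r) i = 0 := by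
      intro r hr i hi
      have h2 : v r = bb r := by
        rw [hv]
        unfold wx
        rw [dif_neg hr]
      rw [h2]
      exact hbb r hr i hi
    have h2 : v = fun r => ∑ i, b.repr (v r) i • b i := by
      funext r
      exact (b.sum_repr (v r)).symm
    have h3 : ψ v = ψ.toMultilinearMap v := rfl
    rw [h3, h2, MultilinearMap.map_sum]
    refine Finset.sum_eq_zero fun f _ => ?_
    rw [MultilinearMap.map_smul_univ]
    by_cases hf : ∀ r, r ∈ s ↔ ev (f r) = ρ
    · rw [smul_eq_mul]
      apply mul_eq_zero_of_right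
      have hfs : (Finset.univ.filter fun r => ev (f r) = ρ) = s := by
        ext r
        rw [Finset.mem_filter, hf r]
        simp
      -- the other values
      set S' : Finset ℝ := (Finset.univ.image fun r => ev (f r)).erase ρ with hS'
      have hsum : ∑ x ∈ S', (Finset.univ.filter fun r => ev (f r) = x).card =
          (Finset.univ.filter fun r => ev (f r) ≠ ρ).card := by
        rw [Finset.card_eq_sum_card_fiberwise (f := fun r => ev (f r)) (t := S')]
        · refine Finset.sum_congr rfl fun x hx => ?_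
          congr 1
          ext r
          simp only [Finset.mem_filter, Finset.mem_univ, true_and]
          constructor
          · intro h4
            exact ⟨by rw [h4]; exact (Finset.mem_erase.1 hx).1, h4⟩
          · exact fun h4 => h4.2
        · intro r hr
          rw [Finset.coe_filter, Set.mem_ofPred_eq] at hr
          rw [hS', Finset.mem_coe, Finset.mem_erase]
          exact ⟨hr.2, Finset.mem_image_of_mem _ (Finset.mem_univ _)⟩
      have htot : (Finset.univ.filter fun r => ev (f r) = ρ).card +
          (Finset.univ.filter fun r => ¬ ev (f r) = ρ).card = 2 * k := by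
        rw [Finset.card_filter_add_card_filter_not, Finset.card_univ, Fintype.card_prod,
          Fintype.card_fin, Fintype.card_fin, mul_comm]
      rw [hfs, hs] at htot
      by_contra hne
      have hinjf : Function.Injective f := by
        intro r r' hrr
        by_contra hrne
        apply hne
        exact ψ.map_eq_zero_of_eq (fun r => b (f r)) (by rw [hrr]) hrne
      -- the odd multiplicities
      have hoddx : ∀ x ∈ S', ¬ Even (Finset.univ.filter fun r => ev (f r) = x).card →
          (Finset.univ.filter fun r => ev (f r) = x).card = Fintype.card κ := by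
        intro x hx hxo
        by_contra hxn
        apply hne
        obtain ⟨r0, -, hr0⟩ := Finset.mem_image.1 (Finset.mem_erase.1 hx).2
        refine trp hψr hirr b hb hev hρ (ρ' := x) (by rw [← hr0]; exact hev _) (m := _)
          (hodd _ hxn ?_) f rfl
        rintro ⟨j, hj⟩
        exact hxo ⟨j, by rw [hj]; ring⟩
      have hexx : Odd (Fintype.card κ) → ∃ x ∈ S',
          (Finset.univ.filter fun r => ev (f r) = x).card = Fintype.card κ := by
        intro hodd'
        by_contra hcon
        push Not at hcon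
        have h4 : Even (∑ x ∈ S', (Finset.univ.filter fun r => ev (f r) = x).card) :=
          Finset.even_sum _ fun x hx => by
            by_contra hxo
            exact hcon x hx (hoddx x hx hxo)
        rw [hsum] at h4
        obtain ⟨a, ha⟩ := h4
        obtain ⟨c, hc⟩ := hodd'
        change _ + (Finset.univ.filter fun r => ev (f r) ≠ ρ).card = _ at htot
        omega
      have hle : ∀ x ∈ S', (Finset.univ.filter fun r => ev (f r) = x).card ≤
          (Finset.univ.filter fun r => ¬ ev (f r) = ρ).card := by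
        intro x hx
        have hxρ : x ≠ ρ := (Finset.mem_erase.1 hx).1
        apply Finset.card_le_card
        intro r hr
        rw [Finset.mem_filter] at hr ⊢
        exact ⟨hr.1, by rw [hr.2]; exact hxρ⟩
      -- the number of the other variables
      obtain ⟨r1, hr1⟩ : s.Nonempty := by
        rw [← Finset.card_pos, hs]
        exact hκ
      have hρ1 : ev (f r1) = ρ := (hf r1).1 hr1
      have hι : (Finset.univ.filter fun j : ι => ev j = ρ).card = 2 * Fintype.card κ := by
        rw [← hρ1]
        exact hdim _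
      have hιn : (Finset.univ.filter fun j : ι => ev j = ρ).card +
          (Finset.univ.filter fun j : ι => ¬ ev j = ρ).card = Fintype.card ι := by
        rw [Finset.card_filter_add_card_filter_not, Finset.card_univ]
      have hle2 : (Finset.univ.filter fun r => ¬ ev (f r) = ρ).card ≤
          (Finset.univ.filter fun j : ι => ¬ ev j = ρ).card := by
        refine Finset.card_le_card_of_injOn f (fun r hr => ?_) (fun r _ r' _ h => hinjf h)
        rw [Finset.coe_filter, Set.mem_ofPred_eq] at hr ⊢
        exact ⟨Finset.mem_univ _, hr.2⟩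
      rcases hk with h2 | ⟨h2, h3⟩ | h2 | ⟨h2, h3⟩
      · omega
      · obtain ⟨x, hx, hxn⟩ := hexx h2
        have h4 := hle x hx
        omega
      · omega
      · obtain ⟨x, hx, hxn⟩ := hexx h2
        have hxρ : x ≠ ρ := (Finset.mem_erase.1 hx).1
        obtain ⟨r0, -, hr0⟩ := Finset.mem_image.1 (Finset.mem_erase.1 hx).2
        have hιx : (Finset.univ.filter fun j : ι => ev j = x).card = 2 * Fintype.card κ := by
          rw [← hr0]
          exact hdim _
        have e1 : ((Finset.univ.filter fun j : ι => ¬ ev j = ρ).filter fun j => ev j = x) =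
            Finset.univ.filter fun j : ι => ev j = x := by
          ext j
          simp only [Finset.mem_filter, Finset.mem_univ, true_and]
          constructor
          · exact fun h4 => h4.2
          · intro h4
            exact ⟨by rw [h4]; exact hxρ, h4⟩
        have e2 : ((Finset.univ.filter fun r => ¬ ev (f r) = ρ).filter fun r => ev (f r) = x) =
            Finset.univ.filter fun r => ev (f r) = x := by
          ext j
          simp only [Finset.mem_filter, Finset.mem_univ, true_and]
          constructor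
          · exact fun h4 => h4.2
          · intro h4
            exact ⟨by rw [h4]; exact hxρ, h4⟩
        have e3 := Finset.card_filter_add_card_filter_not
          (s := Finset.univ.filter fun j : ι => ¬ ev j = ρ) (fun j => ev j = x)
        have e4 := Finset.card_filter_add_card_filter_not
          (s := Finset.univ.filter fun r => ¬ ev (f r) = ρ) (fun r => ev (f r) = x)
        rw [e1] at e3
        rw [e2] at e4
        have e5 : ((Finset.univ.filter fun r => ¬ ev (f r) = ρ).filter
            fun r => ¬ ev (f r) = x).card ≤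
            ((Finset.univ.filter fun j : ι => ¬ ev j = ρ).filter fun j => ¬ ev j = x).card := by
          refine Finset.card_le_card_of_injOn f (fun r hr => ?_) (fun r _ r' _ h => hinjf h)
          simp only [Finset.coe_filter, Finset.mem_filter, Finset.mem_univ, true_and,
            Set.mem_ofPred_eq] at hr ⊢
          exact hr
        omega
    · push Not at hf
      obtain ⟨r, hr⟩ := hf
      rw [Finset.prod_eq_zero (Finset.mem_univ r), zero_smul]
      rcases hr with ⟨hr1, hr2⟩ | ⟨hr1, hr2⟩
      · exact hv1 r hr1 _ hr2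
      · exact hv2 r hr1 _ hr2
  -- the operator
  have hRZ : R * Z = Z * R := by
    rw [hR, mul_assoc, ← hZ2, ← mul_assoc, ← hZ2, mul_assoc]
  have hRZi : ∀ i, R ^ i * Z = Z * R ^ i := fun i => (show Commute R Z from hRZ).pow_left i
  have hRs : ∀ u v, A.om (R u) v = A.om u (R v) := by
    intro u v
    have h1 := hPs (P u) v
    have h2 := hPs u (P v)
    simp only [hR, Module.End.mul_apply]
    linarith
  have hRis : ∀ i, ∀ u v, A.om ((R ^ i) u) v = A.om u ((R ^ i) v) := by
    intro i
    induction i with
    | zero => intro u v; rfl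
    | succ i ih =>
      intro u v
      rw [pow_succ, Module.End.mul_apply, ih, hRs, ← Module.End.mul_apply, ← pow_succ', pow_succ]
  refine kills_of_YY hint (R := R) φ ?_ w
  refine kills_slot L hL (Vc b ev ρ) hKr (fun T hT => hT.2) hex ψ hψk ?_ A.E_self h0 h1
    (fun T hT u v => CR_skew (fun X hX => A.LA_skew hX) hT.1 u v) hzero ?_ ?_ ?_
  · intro v
    obtain ⟨u, hu1, hu2⟩ := exists_dec hb ρ v
    obtain ⟨x, hx⟩ := hLs u hu1
    exact ⟨x, by rwa [hx]⟩
  · intro x
    obtain ⟨y, hy⟩ := hLs _ (YY_root hint Z hRmin (L x))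
    exact ⟨y, hy.symm⟩
  · intro v hv
    have h2 : extA A Z * aeval (extA A R) (minpolyDiv ℚ ρ) =
        aeval (extA A R) (minpolyDiv ℚ ρ) * extA A Z := by
      have h4 : aeval (extA A R) (minpolyDiv ℚ ρ) ∈ Algebra.adjoin ℝ {extA A R} :=
        aeval_mem_adjoin_singleton ℝ (extA A R)
      have h5 : Algebra.adjoin ℝ {extA A R} ≤ Subalgebra.centralizer ℝ {extA A Z} := by
        apply Algebra.adjoin_le
        intro x hx
        rw [Set.mem_singleton_iff] at hx
        rw [SetLike.mem_coe, Subalgebra.mem_centralizer_iff]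
        intro y hy
        rw [Set.mem_singleton_iff] at hy
        rw [hx, hy, ← map_mul, ← map_mul, hRZ]
      exact Subalgebra.mem_centralizer_iff ℝ |>.1 (h5 h4) (extA A Z) rfl
    rw [YY_eq hint, ← h2, Module.End.mul_apply]
    have h3 : aeval (extA A R) (minpolyDiv ℚ ρ) v = 0 := by
      rw [← b.sum_repr v, map_sum]
      refine Finset.sum_eq_zero fun i _ => ?_
      rw [map_smul]
      by_cases hi : ev i = ρ
      · rw [hv i hi, zero_smul]
      · rw [aeval_real_eig (hb i), minpolyDiv_eval_eq_zero_of_ne_of_aeval_eq_zero hi (by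
          rw [hmin]
          exact hev i), zero_smul, smul_zero]
    rw [h3, map_zero]
  · intro u v
    unfold YY
    rw [LinearMap.sum_apply, LinearMap.sum_apply, map_sum, map_sum, LinearMap.sum_apply,
      ← Finset.sum_add_distrib]
    refine Finset.sum_eq_zero fun i _ => ?_
    rw [LinearMap.smul_apply, LinearMap.smul_apply, map_smul, map_smul, LinearMap.smul_apply,
      ← smul_add]
    have h1 : A.E (A.ext (R ^ i * Z) u) v + A.E u (A.ext (R ^ i * Z) v) = 0 := by
      have h2 : IsSkew A.om (R ^ i * Z) := by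
        intro x y
        rw [Module.End.mul_apply, hRis, hRZi, Module.End.mul_apply]
        exact hZ1 x ((R ^ i) y)
      exact CR_skew (C := Submodule.span ℚ {R ^ i * Z}) (fun X hX => by
        obtain ⟨c, rfl⟩ := Submodule.mem_span_singleton.1 hX
        intro x y
        have h3 := h2 x y
        simp only [LinearMap.smul_apply, map_smul]
        rw [← smul_add, h3, smul_zero])
        (Submodule.subset_span ⟨_, Submodule.mem_span_singleton_self _, rfl⟩) u v
    rw [h1, smul_zero]

end Pool.Agent.W5h86.LP
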