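import Pool.Agent.W5h86.LP.Sep3
import Pool.Agent.W5h86.RK.Co

set_option autoImplicit false

/-!
# The derived algebra is stable under the totally real field
-/

open Module Function Polynomial

noncomputable section

namespace Pool.Agent.W5h86.LP

open Pool.Agent.Y102 Pool.Agent.W516.DR Pool.Agent.W516.KC Pool.Agent.W5h86.LZ
open Pool.Agent.W5h86.LY Pool.Agent.W5h86.RK

variable {g : ℕ} {A : AbVar g} {P : Module.End ℚ A.H1}
  {M : (Fin g → ℂ) →ₗ[ℂ] (Fin g → ℂ)} {e : Basis (Fin g) ℂ (Fin g → ℂ)} {t : Fin g → ℝ}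
  {i0 : Fin g}

lemma exists_q (t : Fin g → ℝ) (χ : ℝ → ℝ) :
    ∃ q : ℝ[X], ∀ i, q.eval (-(t i) ^ 2) = χ (-(t i) ^ 2) := by
  classical
  refine ⟨Lagrange.interpolate (Finset.univ.image fun i => (-(t i) ^ 2 : ℝ)) id χ, fun i => ?_⟩
  have h1 := Lagrange.eval_interpolate_at_node (s := Finset.univ.image fun i => (-(t i) ^ 2 : ℝ))
    (v := id) (i := (-(t i) ^ 2 : ℝ)) χ (Set.injOn_id _)
    (Finset.mem_image.2 ⟨i, Finset.mem_univ i, rfl⟩)
  exact h1

/-- real polynomials of a rational endomorphism -/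
lemma aeval_mem_CR (B : Module.End ℚ A.H1) (q : ℝ[X]) :
    (aeval (extA A B) q : (Fin g → ℂ) →ₗ[ℝ] (Fin g → ℂ)) ∈
      A.CR (Subalgebra.toSubmodule (Algebra.adjoin ℚ {B})) := by
  induction q using Polynomial.induction_on' with
  | add p q hp hq => rw [map_add]; exact Submodule.add_mem _ hp hq
  | monomial n a =>
    rw [aeval_monomial, ← map_pow, ← Algebra.smul_def]
    exact Submodule.smul_mem _ _ (Submodule.subset_span
      ⟨B ^ n, pow_mem (Algebra.self_mem_adjoin_singleton ℚ B) n, rfl⟩)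

/-- the elements of the field which preserve the derived algebra -/
def Fp (A : AbVar g) (P : Module.End ℚ A.H1) : Subalgebra ℚ (Module.End ℚ A.H1) where
  carrier := {c | c ∈ Algebra.adjoin ℚ {P * P} ∧ ∀ X ∈ Der A, c * X ∈ Der A}
  mul_mem' := by
    rintro a b ⟨h1, h2⟩ ⟨h3, h4⟩
    exact ⟨mul_mem h1 h3, fun X hX => by rw [mul_assoc]; exact h2 _ (h4 X hX)⟩
  add_mem' := by
    rintro a b ⟨h1, h2⟩ ⟨h3, h4⟩
    exact ⟨add_mem h1 h3, fun X hX => by
      rw [add_mul]
      exact Submodule.add_mem _ (h2 X hX) (h4 X hX)⟩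
  algebraMap_mem' r := ⟨Subalgebra.algebraMap_mem _ r, fun X hX => by
    rw [← Algebra.smul_def]
    exact Submodule.smul_mem _ _ hX⟩

lemma mem_Fp {c : Module.End ℚ A.H1} :
    c ∈ Fp A P ↔ c ∈ Algebra.adjoin ℚ {P * P} ∧ ∀ X ∈ Der A, c * X ∈ Der A := Iff.rfl

lemma ext_add' (a b : Module.End ℚ A.H1) : A.ext (a + b) = A.ext a + A.ext b :=
  map_add (extA A) a b

lemma ext_smul' (r : ℚ) (a : Module.End ℚ A.H1) : A.ext (r • a) = (r : ℝ) • A.ext a := by
  refine A.ext_per fun w => ?_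
  rw [AbVar.ext_apply, LinearMap.smul_apply, LinearMap.smul_apply, AbVar.ext_apply, map_smul]
  exact (Rat.cast_smul_eq_qsmul ℝ r _).symm

lemma ext_zero' : A.ext (0 : Module.End ℚ A.H1) = 0 := map_zero (extA A)

/-- the projection to the indefinite places preserves the derived algebra -/
lemma St.proj_mem (h : St A P M e t) (hty : Ty t) {q : ℝ[X]}
    (hq0 : ∀ i, Df t i → q.eval (-(t i) ^ 2) = 0) (hq1 : ∀ i, ¬ Df t i → q.eval (-(t i) ^ 2) = 1)
    {Y : (Fin g → ℂ) →ₗ[ℝ] (Fin g → ℂ)} (hY : Y ∈ A.CR (Der A)) :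
    LinearMap.comp (aeval (extA A (P * P)) q) Y ∈ A.CR (Der A) := by
  unfold AbVar.CR at hY
  induction hY using Submodule.span_induction with
  | mem Y hY =>
    obtain ⟨Q, hQ, rfl⟩ := hY
    unfold Der at hQ
    induction hQ using Submodule.span_induction with
    | mem Q hQ =>
      obtain ⟨X, hX, Z, hZ, rfl⟩ := hQ
      have hX' : A.ext X ∈ A.CR A.LA := Submodule.subset_span ⟨X, hX, rfl⟩
      have hZ' : A.ext Z ∈ A.CR A.LA := Submodule.subset_span ⟨Z, hZ, rfl⟩
      have hXZ : A.ext (X * Z - Z * X) ∈ A.CR A.LA :=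
        Submodule.subset_span ⟨_, A.LA_bracket hX hZ, rfl⟩
      obtain ⟨W, hW, hW0, hW1⟩ := h.exists_W hty hX' hZ'
      have h1 : LinearMap.comp (aeval (extA A (P * P)) q) (A.ext (X * Z - Z * X)) = W := by
        refine ext_ze (e := e) fun i z => ?_
        have h2 := h.pl_mem (h.M_comm hXZ) (h.e_mem i z)
        rw [LinearMap.comp_apply, aeval_real_eig h2]
        by_cases hi : Df t i
        · rw [hW0 i hi, hq0 i hi, zero_smul]
        · rw [hW1 i hi, hq1 i hi, one_smul]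
          have h3 : A.ext (X * Z - Z * X) = (A.ext X).comp (A.ext Z) - (A.ext Z).comp (A.ext X) := by
            have h4 := map_sub (extA A) (X * Z) (Z * X)
            rw [map_mul, map_mul] at h4
            exact h4
          rw [h3]
          rfl
      rw [h1]
      exact hW
    | zero => rw [ext_zero', LinearMap.comp_zero]; exact Submodule.zero_mem _
    | add a b _ _ ha hb =>
      rw [ext_add', LinearMap.comp_add]
      exact Submodule.add_mem _ ha hb
    | smul r a _ ha =>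
      rw [ext_smul', LinearMap.comp_smul]
      exact Submodule.smul_mem _ _ ha
  | zero => rw [LinearMap.comp_zero]; exact Submodule.zero_mem _
  | add a b _ _ ha hb => rw [LinearMap.comp_add]; exact Submodule.add_mem _ ha hb
  | smul c a _ ha => rw [LinearMap.comp_smul]; exact Submodule.smul_mem _ _ ha

lemma cmpE_comp (f : ℝ →ₗ[ℚ] ℚ) (Y : (Fin g → ℂ) →ₗ[ℝ] (Fin g → ℂ))
    (X : Module.End ℚ A.H1) : A.cmpE f (Y.comp (A.ext X)) = A.cmpE f Y * X := by
  refine LinearMap.ext fun w => ?_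
  rw [AbVar.cmpE_apply, LinearMap.comp_apply, AbVar.ext_apply, Module.End.mul_apply,
    AbVar.cmpE_apply]

lemma St.cmp_Fp (h : St A P M e t) (hty : Ty t) {q : ℝ[X]}
    (hq0 : ∀ i, Df t i → q.eval (-(t i) ^ 2) = 0) (hq1 : ∀ i, ¬ Df t i → q.eval (-(t i) ^ 2) = 1)
    (f : ℝ →ₗ[ℚ] ℚ) : A.cmpE f (aeval (extA A (P * P)) q) ∈ Fp A P :=
  ⟨A.CR_cmp (aeval_mem_CR _ q) f, fun X hX => by
    rw [← cmpE_comp]
    exact A.CR_cmp (h.proj_mem hty hq0 hq1 (Submodule.subset_span ⟨X, hX, rfl⟩)) f⟩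

/-- the value at a place -/
def vl (A : AbVar g) (e : Basis (Fin g) ℂ (Fin g → ℂ)) (i : Fin g) (c : Module.End ℚ A.H1) : ℝ :=
  (e.repr (A.ext c (e i)) i).re

lemma vl_add (i : Fin g) (a b : Module.End ℚ A.H1) :
    vl A e i (a + b) = vl A e i a + vl A e i b := by
  unfold vl
  rw [ext_add', LinearMap.add_apply, map_add, Finsupp.add_apply, Complex.add_re]

lemma vl_smul (i : Fin g) (r : ℚ) (a : Module.End ℚ A.H1) :
    vl A e i (r • a) = r * vl A e i a := by
  unfold vl
  rw [ext_smul', LinearMap.smul_apply, rsmul, map_smul, Finsupp.smul_apply, smul_eq_mul,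
    Complex.re_ofReal_mul]

lemma St.vl_aeval (h : St A P M e t) (i : Fin g) (f : ℚ[X]) :
    vl A e i (aeval (P * P) f) = aeval (-(t i) ^ 2 : ℝ) f := by
  have h1 := h.e_mem i 1
  rw [one_smul] at h1
  unfold vl
  rw [ext_aeval_eig h1, rsmul, map_smul, Finsupp.smul_apply, smul_eq_mul,
    Complex.re_ofReal_mul, e.repr_self, Finsupp.single_eq_same, Complex.one_re, mul_one]

lemma exists_f0 {c : Module.End ℚ A.H1} (hc : c ∈ Algebra.adjoin ℚ {P * P}) :
    ∃ f : ℚ[X], c = aeval (P * P) f := by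
  rw [Algebra.adjoin_singleton_eq_range_aeval] at hc
  obtain ⟨f, hf⟩ := hc
  exact ⟨f, hf.symm⟩

lemma St.vl_spec (h : St A P M e t) {c : Module.End ℚ A.H1}
    (hc : c ∈ Algebra.adjoin ℚ {P * P}) (i : Fin g) (z : ℂ) :
    A.ext c (z • e i) = (vl A e i c) • (z • e i) := by
  obtain ⟨f, rfl⟩ := exists_f0 hc
  rw [h.vl_aeval, ext_aeval_eig (h.e_mem i z)]

/-- **Separation.** -/
lemma St.sep (h : St A P M e t) (hty : Ty t) {i j : Fin g} (hi : Df t i) (hj : ¬ Df t j) :
    ∃ c ∈ Fp A P, vl A e i c ≠ vl A e j c := by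
  classical
  by_contra hcon
  push Not at hcon
  obtain ⟨q, hq⟩ := exists_q t (fun x => if ∃ k, Df t k ∧ x = -(t k) ^ 2 then 0 else 1)
  have hq0 : ∀ i, Df t i → q.eval (-(t i) ^ 2) = 0 := fun i hi => by
    rw [hq, if_pos ⟨i, hi, rfl⟩]
  have hq1 : ∀ i, ¬ Df t i → q.eval (-(t i) ^ 2) = 1 := fun i hi => by
    rw [hq, if_neg]
    rintro ⟨k, hk, hki⟩
    exact hi (hk.of_sq (by linarith))
  have hmem : (aeval (extA A (P * P)) q : (Fin g → ℂ) →ₗ[ℝ] (Fin g → ℂ)) ∈
      A.CR (Subalgebra.toSubmodule (Fp A P)) :=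
    mem_CR_of_cmp A (fun f => h.cmp_Fp hty hq0 hq1 f)
  have key : ∀ Y ∈ A.CR (Subalgebra.toSubmodule (Fp A P)),
      ∃ r : ℝ, Y (e i) = r • e i ∧ Y (e j) = r • e j := by
    intro Y hY
    unfold AbVar.CR at hY
    induction hY using Submodule.span_induction with
    | mem Y hY =>
      obtain ⟨c, hc, rfl⟩ := hY
      have hc' : c ∈ Fp A P := hc
      refine ⟨vl A e i c, ?_, ?_⟩
      · have h1 := h.vl_spec (mem_Fp.1 hc').1 i 1
        rwa [one_smul] at h1
      · have h1 := h.vl_spec (mem_Fp.1 hc').1 j 1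
        rw [one_smul] at h1
        rw [hcon c hc']
        exact h1
    | zero => exact ⟨0, by rw [LinearMap.zero_apply, zero_smul], by
        rw [LinearMap.zero_apply, zero_smul]⟩
    | add a b _ _ ha hb =>
      obtain ⟨r, h1, h2⟩ := ha
      obtain ⟨s, h3, h4⟩ := hb
      exact ⟨r + s, by rw [LinearMap.add_apply, h1, h3, add_smul], by
        rw [LinearMap.add_apply, h2, h4, add_smul]⟩
    | smul c a _ ha =>
      obtain ⟨r, h1, h2⟩ := ha
      exact ⟨c * r, by rw [LinearMap.smul_apply, h1, smul_smul], by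
        rw [LinearMap.smul_apply, h2, smul_smul]⟩
  obtain ⟨r, h1, h2⟩ := key _ hmem
  have e1 := h.e_mem i 1
  have e2 := h.e_mem j 1
  rw [one_smul] at e1 e2
  have h3 : (aeval (extA A (P * P)) q) (e i) = (0 : ℝ) • e i := by
    rw [aeval_real_eig e1, hq0 i hi]
  have h4 : (aeval (extA A (P * P)) q) (e j) = (1 : ℝ) • e j := by
    rw [aeval_real_eig e2, hq1 j hj]
  have h5 : r = 0 := smul_left_injective ℝ (e.ne_zero i) (h1.symm.trans h3)
  have h6 : r = 1 := smul_left_injective ℝ (e.ne_zero j) (h2.symm.trans h4)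
  rw [h5] at h6
  exact zero_ne_one h6

/-- **The derived algebra is stable under the totally real field.** -/
theorem St.all_mem (h : St A P M e t) (hty : Ty t) (i1 : Fin g)
    (hirr : Irreducible (minpoly ℚ (P * P)))
    (hN : ∀ f : ℚ[X], (∀ i j, aeval (-(t i) ^ 2 : ℝ) f = aeval (-(t j) ^ 2 : ℝ) f →
      Df t i → Df t j) → ∀ i j, aeval (-(t i) ^ 2 : ℝ) f = aeval (-(t j) ^ 2 : ℝ) f →
      t i ^ 2 = t j ^ 2) {c : Module.End ℚ A.H1} (hc : c ∈ Algebra.adjoin ℚ {P * P}) :
    ∀ X ∈ Der A, c * X ∈ Der A := by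
  classical
  have hone : vl A e i1 1 = 1 := by
    have h1 := h.vl_aeval i1 1
    rwa [map_one, map_one] at h1
  have hone' : ∀ i, vl A e i 1 = 1 := fun i => by
    have h1 := h.vl_aeval i 1
    rwa [map_one, map_one] at h1
  have h10 : (1 : Module.End ℚ A.H1) ≠ 0 := by
    intro h0
    rw [h0] at hone
    unfold vl at hone
    rw [ext_zero', LinearMap.zero_apply, map_zero, Finsupp.zero_apply, Complex.zero_re] at hone
    exact zero_ne_one hone
  obtain ⟨c0, hc0, -, hgen⟩ := exists_generic (fun c => c ∈ Fp A P)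
    (fun x y hx hy => (Fp A P).add_mem hx hy) (fun r x hx => (Fp A P).smul_mem hx r)
    (fun i c => (vl A e i c) ^ 2) (fun i x y => 2 * vl A e i x * vl A e i y)
    (fun i x y r => by
      simp only [vl_add, vl_smul]
      ring)
    (fun i => by
      have h1 : vl A e i 0 = 0 := by
        unfold vl
        rw [ext_zero', LinearMap.zero_apply, map_zero, Finsupp.zero_apply, Complex.zero_re]
      simp only [h1]
      norm_num) ⟨1, (Fp A P).one_mem, h10⟩
  have hgen' : ∀ i j, vl A e i c0 = vl A e j c0 → ∀ c ∈ Fp A P, vl A e i c = vl A e j c := by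
    intro i j hij c hc
    have h1 := hgen i j (by simp only [hij]) c hc
    have h2 := hgen i j (by simp only [hij]) (c + 1) ((Fp A P).add_mem hc (Fp A P).one_mem)
    simp only [vl_add, hone'] at h1 h2
    nlinarith
  obtain ⟨f0, hf0⟩ := exists_f0 (mem_Fp.1 hc0).1
  have hv : ∀ i, vl A e i c0 = aeval (-(t i) ^ 2 : ℝ) f0 := fun i => by
    rw [hf0, h.vl_aeval]
  have hinj := hN f0 (fun i j hij hi => by
    by_contra hj
    obtain ⟨c, hc, hcne⟩ := h.sep hty hi hj
    exact hcne (hgen' i j (by rw [hv, hv, hij]) c hc))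
  have hgen2 := gen_of_inj hirr (f := f0) (Finset.univ.image fun i => (-(t i) ^ 2 : ℝ))
    (fun ρ hρ => by
      obtain ⟨i, -, rfl⟩ := Finset.mem_image.1 hρ
      exact place_root h.hM h.he i) (card_places h.hM h.he)
    (fun ρ hρ ρ' hρ' hf => by
      obtain ⟨i, -, rfl⟩ := Finset.mem_image.1 hρ
      obtain ⟨j, -, rfl⟩ := Finset.mem_image.1 hρ'
      rw [hinj i j hf]) ⟨_, Finset.mem_image.2 ⟨i1, Finset.mem_univ i1, rfl⟩⟩
  rw [← hf0] at hgen2
  have hle1 : Algebra.adjoin ℚ {c0} ≤ Fp A P := Algebra.adjoin_le fun x hx => by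
    rw [Set.mem_singleton_iff] at hx
    rw [hx]
    exact hc0
  have hle : Algebra.adjoin ℚ {P * P} ≤ Fp A P := Algebra.adjoin_le fun x hx => by
    rw [Set.mem_singleton_iff] at hx
    rw [hx]
    exact hle1 hgen2
  exact (mem_Fp.1 (hle hc)).2

/-- **The components at the places.** -/
theorem St.place_mem (h : St A P M e t)
    (hall : ∀ c ∈ Algebra.adjoin ℚ {P * P}, ∀ X ∈ Der A, c * X ∈ Der A)
    {Y : (Fin g → ℂ) →ₗ[ℝ] (Fin g → ℂ)} (hY : Y ∈ A.CR (Der A)) (i0 : Fin g) :
    ∃ T ∈ A.CR A.LA, (∀ i, t i ^ 2 = t i0 ^ 2 → ∀ z : ℂ, T (z • e i) = Y (z • e i)) ∧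
      ∀ i, t i ^ 2 ≠ t i0 ^ 2 → ∀ z : ℂ, T (z • e i) = 0 := by
  classical
  have hmono : A.CR (Der A) ≤ A.CR A.LA := by
    refine Submodule.span_mono ?_
    rintro _ ⟨Q, hQ, rfl⟩
    exact ⟨Q, Der_le hQ, rfl⟩
  obtain ⟨q, hq⟩ := exists_q t (fun x => if x = -(t i0) ^ 2 then 1 else 0)
  have hmem : ∀ q : ℝ[X], LinearMap.comp (aeval (extA A (P * P)) q) Y ∈ A.CR (Der A) := by
    intro q
    unfold AbVar.CR at hY
    induction hY using Submodule.span_induction with
    | mem Y hY =>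
      obtain ⟨X, hX, rfl⟩ := hY
      induction q using Polynomial.induction_on' with
      | add p q hp hq =>
        rw [map_add]
        have h1 : LinearMap.comp (aeval (extA A (P * P)) p + aeval (extA A (P * P)) q)
            (A.ext X) = LinearMap.comp (aeval (extA A (P * P)) p) (A.ext X) +
            LinearMap.comp (aeval (extA A (P * P)) q) (A.ext X) := LinearMap.add_comp _ _ _
        rw [h1]
        exact Submodule.add_mem _ hp hq
      | monomial n a =>
        have h1 : LinearMap.comp (aeval (extA A (P * P)) (monomial n a)) (A.ext X) =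
            a • A.ext ((P * P) ^ n * X) := by
          rw [aeval_monomial, ← map_pow, ← Algebra.smul_def, AbVar.ext_mul]
          rfl
        rw [h1]
        exact Submodule.smul_mem _ _ (Submodule.subset_span ⟨_, hall _
          (pow_mem (Algebra.self_mem_adjoin_singleton ℚ _) n) X hX, rfl⟩)
    | zero => rw [LinearMap.comp_zero]; exact Submodule.zero_mem _
    | add a b _ _ ha hb => rw [LinearMap.comp_add]; exact Submodule.add_mem _ ha hb
    | smul c a _ ha => rw [LinearMap.comp_smul]; exact Submodule.smul_mem _ _ ha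
  refine ⟨LinearMap.comp (aeval (extA A (P * P)) q) Y, hmono (hmem q), fun i hi z => ?_,
    fun i hi z => ?_⟩
  · have h2 := h.pl_mem (h.M_comm (hmono hY)) (h.e_mem i z)
    rw [LinearMap.comp_apply, aeval_real_eig h2, hq, if_pos (by rw [hi]), one_smul]
  · have h2 := h.pl_mem (h.M_comm (hmono hY)) (h.e_mem i z)
    rw [LinearMap.comp_apply, aeval_real_eig h2, hq, if_neg (fun h3 => hi (by linarith)),
      zero_smul]

end Pool.Agent.W5h86.LP
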