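import Pool.Agent.W5h86.LP.Blk

set_option autoImplicit false

/-!
# The Lie algebra of a place of signature `(1, n - 1)`
-/

open Module Function

noncomputable section

namespace Pool.Agent.W5h86.LP

open Pool.Agent.Y102 Pool.Agent.W516.DR Pool.Agent.W516.KC Pool.Agent.W5h86.LZ
open Pool.Agent.W5h86.LY Pool.Agent.W5h86.RK

variable {g : ℕ} {A : AbVar g} {P : Module.End ℚ A.H1}
  {M : (Fin g → ℂ) →ₗ[ℂ] (Fin g → ℂ)} {e : Basis (Fin g) ℂ (Fin g → ℂ)} {t : Fin g → ℝ}
  {i0 : Fin g}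

lemma St.go_J (h : St A P M e t) (hu : ∀ i, t i = t i0 → i = i0)
    {T' : (Io t i0 → ℂ) →ₗ[ℝ] (Io t i0 → ℂ)} (hT' : T' ∈ Go A e t i0) (z : Io t i0 → ℂ) :
    T' (Jo t i0 z) = Jo t i0 (T' z) := by
  obtain ⟨T, hT, h1⟩ := hT'
  apply Th_inj (e := e)
  have h2 := h.M_Th hu (T' z)
  rw [← h1, ← h.M_comm hT, h.M_Th hu z, map_smul] at h2
  rw [← h1]
  exact smul_right_injective _ (h.ht i0) h2

lemma go_bracket {X Y : (Io t i0 → ℂ) →ₗ[ℝ] (Io t i0 → ℂ)} (hX : X ∈ Go A e t i0)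
    (hY : Y ∈ Go A e t i0) : X.comp Y - Y.comp X ∈ Go A e t i0 := by
  obtain ⟨T, hT, h1⟩ := hX
  obtain ⟨S, hS, h2⟩ := hY
  refine ⟨T.comp S - S.comp T, CR_bracket (fun X hX Y hY => A.LA_bracket hX hY) hT hS,
    fun z => ?_⟩
  rw [LinearMap.sub_apply, LinearMap.sub_apply, LinearMap.comp_apply, LinearMap.comp_apply,
    LinearMap.comp_apply, LinearMap.comp_apply, h1, h2, h1, h2, map_sub]

lemma go_skew {X : (Io t i0 → ℂ) →ₗ[ℝ] (Io t i0 → ℂ)} (hX : X ∈ Go A e t i0)
    (u v : Io t i0 → ℂ) : Eo A e t i0 (X u) v + Eo A e t i0 u (X v) = 0 := by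
  obtain ⟨T, hT, h1⟩ := hX
  rw [Eo_apply, Eo_apply, ← h1, ← h1]
  exact CR_skew (fun X hX => A.LA_skew hX) hT _ _

/-- real irreducibility -/
lemma St.real_irr (h : St A P M e t) (hu : ∀ i, t i = t i0 → i = i0)
    (N : Submodule ℝ (Io t i0 → ℂ)) (hN : ∀ T' ∈ Go A e t i0, ∀ u ∈ N, T' u ∈ N) :
    N = ⊥ ∨ N = ⊤ := by
  by_cases hb : N = ⊥
  · exact Or.inl hb
  right
  obtain ⟨u, hu1, hu0⟩ := Submodule.exists_mem_ne_zero_of_ne_bot hb
  obtain ⟨i, hi⟩ : ∃ i, u i ≠ 0 := by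
    by_contra hcon
    push Not at hcon
    exact hu0 (funext hcon)
  rw [eq_top_iff]
  intro v _
  have h2 := h.irr hu N hN (Matrix.of fun j k => if k = i then v j * (u i)⁻¹ else 0) u hu1
  have h3 : (Matrix.of fun j k => if k = i then v j * (u i)⁻¹ else 0).mulVec u = v := by
    funext j
    unfold Matrix.mulVec dotProduct
    simp only [Matrix.of_apply]
    rw [Finset.sum_eq_single i]
    · rw [if_pos rfl, mul_assoc, inv_mul_cancel₀ hi, mul_one]
    · intro k _ hk
      rw [if_neg hk, zero_mul]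
    · intro h
      exact absurd (Finset.mem_univ _) h
  rw [h3] at h2
  exact h2

lemma Th_ee : Th e t i0 (ee (j0 t i0)) = e i0 := by
  rw [Th_apply, Finset.sum_eq_single (j0 t i0)]
  · have h1 : (j0 t i0).1 = i0 := rfl
    rw [h1, cj_same, ee_same, one_smul]
  · intro i _ hi
    rw [ee_ne hi, map_zero, zero_smul]
  · intro h
    exact absurd (Finset.mem_univ _) h

/-- the form on the distinguished vector -/
lemma St.E_j0 (h : St A P M e t) (hu : ∀ i, t i = t i0 → i = i0) (v : Io t i0 → ℂ) :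
    Eo A e t i0 (ee (j0 t i0)) v =
      (v (j0 t i0)).im * A.E (e i0) (Complex.I • e i0) := by
  rw [Eo_apply, Th_ee, Th_apply, map_sum, Finset.sum_eq_single (j0 t i0)]
  · have h1 : (j0 t i0).1 = i0 := rfl
    rw [h1, cj_same]
    have h2 : v (j0 t i0) • e i0 = (v (j0 t i0)).re • e i0 +
        (v (j0 t i0)).im • (Complex.I • e i0) := by
      funext x
      simp only [Pi.smul_apply, Pi.add_apply, smul_eq_mul, Complex.real_smul]
      conv_lhs => rw [← Complex.re_add_im (v (j0 t i0))]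
      ring
    rw [h2, map_add, map_smul, map_smul, A.E_self, smul_zero, zero_add, smul_eq_mul]
  · intro i _ hi
    have h1 : t i0 ≠ t i.1 := fun h2 => hi (Subtype.ext (hu _ h2.symm))
    have h2 := h.orth h1 1 (cj i0 i.1 (v i))
    rwa [one_smul] at h2
  · intro h
    exact absurd (Finset.mem_univ _) h

lemma Th_neg {v : Io t i0 → ℂ} (hv : v (j0 t i0) = 0) :
    Th e t i0 (Complex.I • v) = -(Complex.I • Th e t i0 v) := by
  rw [Th_apply, Th_apply, Finset.smul_sum, ← Finset.sum_neg_distrib]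
  refine Finset.sum_congr rfl fun i _ => ?_
  by_cases hi : i = j0 t i0
  · rw [hi, Pi.smul_apply, hv, smul_zero, map_zero, zero_smul, smul_zero, neg_zero]
  · have h1 : i.1 ≠ i0 := fun h2 => hi (Subtype.ext h2)
    rw [cj_ne h1, cj_ne h1, Pi.smul_apply, smul_eq_mul, map_mul, Complex.conj_I, smul_smul,
      ← neg_smul]
    congr 1
    ring

lemma nd_aux (h : St A P M e t) (hu : ∀ i, t i = t i0 → i = i0)
    {Y : (Io t i0 → ℂ) →ₗ[ℝ] (Io t i0 → ℂ)} (hY : Y ∈ Go A e t i0)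
    (htr : ∀ Y' ∈ Go A e t i0, LinearMap.trace ℝ (Io t i0 → ℂ) (Y.comp Y') = 0) : Y = 0 := by
  haveI : Nonempty (Io t i0) := ⟨j0 t i0⟩
  have hss : Semi (Go A e t i0) := by
    intro U hU
    rcases h.real_irr hu U hU with h1 | h1
    · exact ⟨⊤, fun _ _ _ _ => Submodule.mem_top, by rw [h1]; exact isCompl_bot_top⟩
    · exact ⟨⊥, fun X _ u hu' => by
        rw [Submodule.mem_bot] at hu' ⊢
        rw [hu', map_zero], by rw [h1]; exact isCompl_top_bot⟩
  have hcen := central_of_trace (Go A e t i0) hss (fun X hX Y hY => go_bracket hX hY) hY htr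
  obtain ⟨X, hX⟩ := exists_tr (h.cx hu) (h.go_J hu hY)
  have hYX : ∀ z, Y z = X.mulVec z := fun z => by
    rw [← hX]
    exact tr_theta (θ := LinearEquiv.refl ℝ (Io t i0 → ℂ)) X z
  obtain ⟨μ, hμ⟩ := Module.End.exists_eigenvalue (X.mulVecLin : Module.End ℂ (Io t i0 → ℂ))
  obtain ⟨u, hu1⟩ := hμ.exists_hasEigenvector
  let N : Submodule ℝ (Io t i0 → ℂ) :=
    (Module.End.eigenspace (X.mulVecLin : Module.End ℂ (Io t i0 → ℂ)) μ).restrictScalars ℝ
  have hN : ∀ z, z ∈ N ↔ Y z = μ • z := fun z => by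
    rw [hYX]
    exact Module.End.mem_eigenspace_iff
  have hlin : ∀ T' ∈ Go A e t i0, ∀ (c : ℂ) z, T' (c • z) = c • T' z := by
    intro T' hT' c z
    obtain ⟨X', hX'⟩ := exists_tr (h.cx hu) (h.go_J hu hT')
    have h1 : ∀ z, T' z = X'.mulVec z := fun z => by
      rw [← hX']
      exact tr_theta (θ := LinearEquiv.refl ℝ (Io t i0 → ℂ)) X' z
    rw [h1, h1, Matrix.mulVec_smul]
  have h1 := h.real_irr hu N (fun T' hT' z hz => by
    rw [hN] at hz ⊢
    have h2 : Y (T' z) = T' (Y z) := (LinearMap.congr_fun (hcen T' hT') z).symm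
    rw [h2, hz, hlin T' hT'])
  have hNb : N ≠ ⊥ := by
    intro h2
    have h3 : u ∈ N := hu1.1
    rw [h2, Submodule.mem_bot] at h3
    exact hu1.2 h3
  have hall : ∀ z, Y z = μ • z := fun z => by
    rw [← hN, h1.resolve_left hNb]
    exact Submodule.mem_top
  have hpos : 0 < A.E (e i0) (Complex.I • e i0) := A.E_pos (e.ne_zero _)
  -- the real part
  have ha : μ.re = 0 := by
    have h2 := go_skew hY (ee (j0 t i0)) (Complex.I • ee (j0 t i0))
    rw [hall, hall] at h2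
    have h3 : μ • ee (j0 t i0) = μ.re • ee (j0 t i0) + μ.im • (Complex.I • ee (j0 t i0)) := by
      funext x
      simp only [Pi.smul_apply, Pi.add_apply, smul_eq_mul, Complex.real_smul]
      conv_lhs => rw [← Complex.re_add_im μ]
      ring
    have hL : ∀ (r : ℝ) (u v : Io t i0 → ℂ), Eo A e t i0 (r • u) v = r * Eo A e t i0 u v := by
      intro r u v
      rw [map_smul, LinearMap.smul_apply, smul_eq_mul]
    have h4 : Eo A e t i0 (Complex.I • ee (j0 t i0)) (Complex.I • ee (j0 t i0)) = 0 := A.E_self _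
    rw [h3, map_add, LinearMap.add_apply, hL, hL, h4, h.E_j0 hu, h.E_j0 hu, smul_smul,
      Pi.smul_apply, Pi.smul_apply, ee_same] at h2
    simp only [smul_eq_mul, mul_one, Complex.I_im, one_mul, mul_zero, add_zero, Complex.mul_im,
      Complex.I_re] at h2
    have h5 : (2 * μ.re) * A.E (e i0) (Complex.I • e i0) = 0 := by linarith
    rcases mul_eq_zero.1 h5 with h6 | h6
    · linarith
    · exact absurd h6 hpos.ne'
  have hsq : Y.comp Y = (-(μ.im ^ 2)) • LinearMap.id := by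
    refine LinearMap.ext fun z => ?_
    rw [LinearMap.comp_apply, hall, hall, smul_smul, LinearMap.smul_apply, LinearMap.id_apply]
    have h2 : μ * μ = ((-(μ.im ^ 2) : ℝ) : ℂ) := by
      have h3 : μ = (μ.im : ℂ) * Complex.I := by
        conv_lhs => rw [← Complex.re_add_im μ, ha]
        simp
      rw [h3]
      simp only [Complex.mul_im, Complex.ofReal_re, Complex.I_im, mul_one, Complex.ofReal_im,
        Complex.I_re, mul_zero, add_zero]
      push_cast
      linear_combination ((μ.im : ℂ) ^ 2) * Complex.I_sq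
    rw [h2]
    funext x
    rw [Pi.smul_apply, Pi.smul_apply, Complex.real_smul, smul_eq_mul]
  have h2 := htr Y hY
  rw [hsq, map_smul, LinearMap.trace_id, smul_eq_mul] at h2
  have hfr : (finrank ℝ (Io t i0 → ℂ) : ℝ) ≠ 0 := by
    have h3 : 0 < finrank ℝ (Io t i0 → ℂ) := finrank_pos
    exact_mod_cast h3.ne'
  have h3 : μ.im = 0 := by
    rcases mul_eq_zero.1 h2 with h4 | h4
    · exact pow_eq_zero_iff two_ne_zero |>.1 (neg_eq_zero.1 h4)
    · exact absurd h4 hfr
  have hμ0 : μ = 0 := Complex.ext ha h3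
  refine LinearMap.ext fun z => ?_
  rw [hall, hμ0, zero_smul, LinearMap.zero_apply]

/-- **The Lie algebra of the place.** -/
theorem St.lieData (h : St A P M e t) (hu : ∀ i, t i = t i0 → i = i0) :
    LieData ((Go A e t i0).comap (tr (LinearEquiv.refl ℝ (Io t i0 → ℂ))))
      (Hm (Eo A e t i0) (Jo t i0) (LinearEquiv.refl ℝ (Io t i0 → ℂ))) := by
  refine LZ.lieData (h.cx hu) (fun X hX Y hY => go_bracket hX hY) (fun Y hY u v => go_skew hY u v)
    (fun Y hY v => h.go_J hu hY v) (fun N hN X u hu' => ?_) (fun Y hY htr => nd_aux h hu hY htr)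
  refine h.irr hu (N.restrictScalars ℝ) (fun T' hT' z hz => ?_) X u hu'
  obtain ⟨X', rfl⟩ := exists_tr (h.cx hu) (h.go_J hu hT')
  have h2 := hN X' hT' z hz
  have h3 : tr (LinearEquiv.refl ℝ (Io t i0 → ℂ)) X' z = X'.mulVec z :=
    tr_theta (θ := LinearEquiv.refl ℝ (Io t i0 → ℂ)) X' z
  rw [h3]
  exact h2

/-- negativity -/
lemma St.hneg (h : St A P M e t) (hu : ∀ i, t i = t i0 → i = i0) :
    ∀ v, v ≠ 0 → hf (Hm (Eo A e t i0) (Jo t i0) (LinearEquiv.refl ℝ (Io t i0 → ℂ)))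
      (ee (j0 t i0)) v = 0 →
      qf (Hm (Eo A e t i0) (Jo t i0) (LinearEquiv.refl ℝ (Io t i0 → ℂ))) v < 0 := by
  have hpos : 0 < A.E (e i0) (Complex.I • e i0) := A.E_pos (e.ne_zero _)
  intro v hv0 hv
  have h1 : v (j0 t i0) = 0 := by
    rw [hf_Hm (h.cx hu)] at hv
    simp only [LinearEquiv.refl_apply, Jo_apply] at hv
    rw [h.E_j0 hu, h.E_j0 hu, Pi.smul_apply] at hv
    have h2 := congrArg Complex.re hv
    have h3 := congrArg Complex.im hv
    simp only [Complex.add_re, Complex.ofReal_re, Complex.mul_re, Complex.I_re, zero_mul,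
      Complex.I_im, one_mul, Complex.ofReal_im, sub_self, add_zero, Complex.zero_re, smul_eq_mul,
      Complex.mul_im, Complex.ofReal_mul, mul_zero, zero_add, sub_zero] at h2
    simp only [Complex.add_im, Complex.ofReal_im, Complex.mul_im, Complex.I_re, zero_mul,
      Complex.I_im, one_mul, Complex.ofReal_re, zero_add, Complex.zero_im, smul_eq_mul,
      Complex.mul_re, Complex.ofReal_mul, mul_zero, sub_zero, add_zero] at h3
    apply Complex.ext
    · exact (mul_eq_zero.1 h2).resolve_right hpos.ne'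
    · exact (mul_eq_zero.1 h3).resolve_right hpos.ne'
  have h2 : Th e t i0 v ≠ 0 := by
    intro h3
    exact hv0 (Th_inj (e := e) (by rw [h3, map_zero]))
  have h3 := A.E_pos h2
  rw [qf_eq, hf_Hm (h.cx hu)]
  simp only [LinearEquiv.refl_apply, Jo_apply]
  rw [Eo_apply, Eo_apply, Th_neg h1, map_neg, A.E_self]
  simp only [Complex.ofReal_neg, Complex.ofReal_zero, mul_zero, add_zero, Complex.neg_re,
    Complex.ofReal_re]
  linarith

/-- positivity -/
lemma St.hpos (h : St A P M e t) (hu : ∀ i, t i = t i0 → i = i0) :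
    0 < qf (Hm (Eo A e t i0) (Jo t i0) (LinearEquiv.refl ℝ (Io t i0 → ℂ))) (ee (j0 t i0)) := by
  have hpos : 0 < A.E (e i0) (Complex.I • e i0) := A.E_pos (e.ne_zero _)
  rw [qf_eq, hf_Hm (h.cx hu)]
  simp only [LinearEquiv.refl_apply, Jo_apply]
  rw [h.E_j0 hu, h.E_j0 hu, Pi.smul_apply, ee_same]
  simp
  exact hpos

/-- **The exchange operators of the place.** -/
theorem St.exists_exch (h : St A P M e t) (hu : ∀ i, t i = t i0 → i = i0)
    (hcard : 3 ≤ Fintype.card (Io t i0)) :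
    ∃ (B : Io t i0 → Io t i0 → ℂ) (σ : Io t i0 → ℝ), (∀ i, σ i ≠ 0) ∧
      (∀ i j, hf (Hm (Eo A e t i0) (Jo t i0) (LinearEquiv.refl ℝ (Io t i0 → ℂ))) (B i) (B j) =
        if i = j then (σ i : ℂ) else 0) ∧
      ∀ i j, i ≠ j → Good ((Go A e t i0).comap (tr (LinearEquiv.refl ℝ (Io t i0 → ℂ)))) B i j := by
  have hdet : (Hm (Eo A e t i0) (Jo t i0) (LinearEquiv.refl ℝ (Io t i0 → ℂ))).det ≠ 0 := by
    intro h0
    obtain ⟨v, hv0, hv⟩ := Matrix.exists_mulVec_eq_zero_iff.2 h0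
    have h1 := h.hneg hu v hv0 (by
      unfold hf
      rw [hv, dotProduct_zero])
    rw [qf_eq] at h1
    unfold hf at h1
    rw [hv, dotProduct_zero, Complex.zero_re] at h1
    exact lt_irrefl _ h1
  obtain ⟨p, q, r, hpq, hpr, hqr⟩ := Fintype.two_lt_card_iff.1 (show 2 < _ from hcard)
  exact LZ.exists_basis (h.lieData hu) ⟨_, h.hneg hu⟩ hdet (h.hpos hu) hpq hpr.symm hqr.symm

end Pool.Agent.W5h86.LP
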