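import Pool.Agent.W5h86.LP.Gal

set_option autoImplicit false

/-!
# The annihilation of the classes
-/

open Module Function Polynomial

noncomputable section

namespace Pool.Agent.W5h86.LP

open Pool.Agent.Y102 Pool.Agent.W516.DR Pool.Agent.W516.KC Pool.Agent.W5h86.LZ
open Pool.Agent.W5h86.LY Pool.Agent.W5h86.RK

variable {g : ℕ} {A : AbVar g} {P : Module.End ℚ A.H1}
  {M : (Fin g → ℂ) →ₗ[ℂ] (Fin g → ℂ)} {e : Basis (Fin g) ℂ (Fin g → ℂ)} {t : Fin g → ℝ}
  {i0 : Fin g}

/-- values on the place are determined by the values on the basis -/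
lemma Th_val {T Y : (Fin g → ℂ) →ₗ[ℝ] (Fin g → ℂ)}
    (hT : ∀ i, t i ^ 2 = t i0 ^ 2 → ∀ z : ℂ, T (z • e i) = Y (z • e i)) (z : Io t i0 → ℂ) :
    T (Th e t i0 z) = Y (Th e t i0 z) := by
  rw [Th_apply, map_sum, map_sum]
  refine Finset.sum_congr rfl fun i _ => hT _ ?_ _
  rcases i.2 with hi | hi <;> rw [hi]
  ring

/-- **The main theorem in coordinates.** -/
theorem St.main (h : St A P M e t) (hty : Ty t) (hL0 : Lo t i0)
    (hcd : ∀ i, Fintype.card (Io t i) = Fintype.card (Io t i0)) (hPs : IsSkew A.om P)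
    (hirr : Irreducible (minpoly ℚ (P * P)))
    (hN : ∀ f : ℚ[X], (∀ i j, aeval (-(t i) ^ 2 : ℝ) f = aeval (-(t j) ^ 2 : ℝ) f →
      Df t i → Df t j) → ∀ i j, aeval (-(t i) ^ 2 : ℝ) f = aeval (-(t j) ^ 2 : ℝ) f →
      t i ^ 2 = t j ^ 2) {k : ℕ}
    (hk : 2 * k < Fintype.card (Io t i0) ∨
      (Odd (Fintype.card (Io t i0)) ∧ k < Fintype.card (Io t i0)) ∨
      2 * g < 2 * k + Fintype.card (Io t i0) ∨
      (Odd (Fintype.card (Io t i0)) ∧ 2 * g < 2 * k + 2 * Fintype.card (Io t i0)))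
    (φ : A.H1 [⋀^Fin k × Fin 2]→ₗ[ℚ] ℚ)
    (hφ : IsDeRhamBettiForm QBar A.dR tau k φ.toMultilinearMap)
    {Z : Module.End ℚ A.H1} (hZ1 : IsSkew A.om Z) (hZ2 : Z * P = P * Z)
    (w : Fin k × Fin 2 → A.H1) : ∑ r, φ (update w r (Z (w r))) = 0 := by
  classical
  obtain ⟨B, σ, hσ, hB, hG⟩ := h.exists_exch hL0.1 hL0.2
  have hBli := li_of_orth hσ hB
  have hne : Nonempty (Io t i0) := ⟨j0 t i0⟩
  let b0 : Basis (Io t i0) ℂ (Io t i0 → ℂ) := basisOfLinearIndependentOfCardEqFinrank hBli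
    (Module.finrank_fintype_fun_eq_card ℂ).symm
  have hb0 : ⇑b0 = B := coe_basisOfLinearIndependentOfCardEqFinrank _ _
  let cc : (Io t i0 × Fin 2 → ℝ) → Io t i0 → ℂ :=
    fun x i => (x (i, 0) : ℂ) + (x (i, 1) : ℂ) * Complex.I
  let L0 : (Io t i0 × Fin 2 → ℝ) →ₗ[ℝ] (Io t i0 → ℂ) :=
    { toFun := fun x => ∑ i, cc x i • B i
      map_add' := fun x y => by
        rw [← Finset.sum_add_distrib]
        refine Finset.sum_congr rfl fun i _ => ?_
        rw [← add_smul]
        congr 1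
        simp only [cc, Pi.add_apply]
        push_cast
        ring
      map_smul' := fun c x => by
        rw [RingHom.id_apply, Finset.smul_sum]
        refine Finset.sum_congr rfl fun i _ => ?_
        funext j
        simp only [cc, Pi.smul_apply, smul_eq_mul, Complex.real_smul]
        push_cast
        ring }
  have hL0x : ∀ x, L0 x = ∑ i, cc x i • B i := fun x => rfl
  let L : (Io t i0 × Fin 2 → ℝ) →ₗ[ℝ] (Fin g → ℂ) := (Th e t i0).comp L0
  have hLx : ∀ x, L x = Th e t i0 (L0 x) := fun x => rfl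
  have hL0s : ∀ u, ∃ x, L0 x = u := by
    intro u
    refine ⟨fun r => if r.2 = 0 then (b0.repr u r.1).re else (b0.repr u r.1).im, ?_⟩
    rw [hL0x]
    conv_rhs => rw [← b0.sum_repr u]
    refine Finset.sum_congr rfl fun i _ => ?_
    rw [hb0]
    congr 1
    simp only [cc]
    rw [if_pos trivial, if_neg one_ne_zero]
    exact Complex.re_add_im _
  have hLinj : Function.Injective L := by
    rw [← LinearMap.ker_eq_bot, LinearMap.ker_eq_bot']
    intro x hx
    rw [hLx] at hx
    have h1 : L0 x = 0 := Th_inj (e := e) (by rw [hx, map_zero])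
    have h2 := Fintype.linearIndependent_iff.1 hBli (cc x) h1
    have hε : ∀ ε : Fin 2, ε = 0 ∨ ε = 1 := by decide
    funext ⟨i, ε⟩
    have h3 := h2 i
    simp only [cc] at h3
    have h4 := congrArg Complex.re h3
    have h5 := congrArg Complex.im h3
    simp only [Complex.add_re, Complex.ofReal_re, Complex.mul_re, Complex.I_re, mul_zero,
      Complex.ofReal_im, Complex.I_im, mul_one, sub_self, add_zero, Complex.zero_re] at h4
    simp only [Complex.add_im, Complex.ofReal_im, Complex.mul_im, Complex.ofReal_re, Complex.I_im,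
      mul_one, Complex.I_re, mul_zero, add_zero, zero_add, Complex.zero_im] at h5
    rcases hε ε with rfl | rfl
    · exact h4
    · exact h5
  have hLs0 : ∀ i, L (Pi.single (i, 0) 1) = Th e t i0 (B i) := by
    intro i
    rw [hLx, hL0x, Finset.sum_eq_single i]
    · simp [cc]
    · intro j _ hj
      have h1 : ((j, 0) : Io t i0 × Fin 2) ≠ (i, 0) := fun h => hj (congrArg Prod.fst h)
      have h2 : ((j, 1) : Io t i0 × Fin 2) ≠ (i, 0) := fun h => hj (congrArg Prod.fst h)
      simp only [cc]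
      rw [Pi.single_eq_of_ne h1, Pi.single_eq_of_ne h2]
      simp
    · intro h
      exact absurd (Finset.mem_univ _) h
  have hLs1 : ∀ i, L (Pi.single (i, 1) 1) = Th e t i0 (Complex.I • B i) := by
    intro i
    rw [hLx, hL0x, Finset.sum_eq_single i]
    · simp [cc]
    · intro j _ hj
      have h1 : ((j, 0) : Io t i0 × Fin 2) ≠ (i, 1) := fun h => hj (congrArg Prod.fst h)
      have h2 : ((j, 1) : Io t i0 × Fin 2) ≠ (i, 1) := fun h => hj (congrArg Prod.fst h)
      simp only [cc]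
      rw [Pi.single_eq_of_ne h1, Pi.single_eq_of_ne h2]
      simp
    · intro h
      exact absurd (Finset.mem_univ _) h
  have hε : ∀ ε : Fin 2, ε = 0 ∨ ε = 1 := by decide
  have hIm : ∀ z w, A.E (Th e t i0 z) (Th e t i0 w) =
      (hf (Hm (Eo A e t i0) (Jo t i0) (LinearEquiv.refl ℝ (Io t i0 → ℂ))) z w).im := by
    intro z w
    rw [hf_Hm (h.cx hL0.1)]
    simp [Eo_apply]
  have htr : ∀ (X : Matrix (Io t i0) (Io t i0) ℂ) (z : Io t i0 → ℂ),
      tr (LinearEquiv.refl ℝ (Io t i0 → ℂ)) X z = X.mulVec z := fun X z =>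
    tr_theta (θ := LinearEquiv.refl ℝ (Io t i0 → ℂ)) X z
  have hall : ∀ c ∈ Algebra.adjoin ℚ {P * P}, ∀ X ∈ Der A, c * X ∈ Der A :=
    fun c hc => h.all_mem hty i0 hirr hN hc
  let b : Basis (Fin 2 × Fin g) ℝ (Fin g → ℂ) := Complex.basisOneI.smulTower e
  have hbx : ∀ p, b p = Complex.basisOneI p.1 • e p.2 := fun p => by
    rw [Basis.smulTower_apply]
  have hbp : ∀ p, A.ext (P * P) (b p) = (-(t p.2) ^ 2) • b p := fun p => by
    rw [hbx]
    exact h.e_mem _ _
  -- the exchange operators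
  have hex : ExchK (fun r : Io t i0 × Fin 2 => L (Pi.single r 1))
      {T | T ∈ A.CR A.LA ∧ ∀ v ∈ Vc b (fun p => -(t p.2) ^ 2) (-(t i0) ^ 2), T v = 0} := by
    intro i j hij
    obtain ⟨k', hki, hkj⟩ := exists_third hL0.2 i j
    obtain ⟨T1, ⟨X1, hX1, hX1'⟩, c1, -, a1, a2, a3⟩ := hG i k' (Ne.symm hki)
    obtain ⟨T2, ⟨X2, hX2, hX2'⟩, c2, -, b1, b2, b3⟩ := hG k' j hkj
    obtain ⟨T, hT, hT1, hT2⟩ := h.place_mem hall (CR_der hX1 hX2) i0
    have hval : ∀ z : Io t i0 → ℂ, T (Th e t i0 z) =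
        Th e t i0 (T1.mulVec (T2.mulVec z) - T2.mulVec (T1.mulVec z)) := by
      intro z
      rw [Th_val hT1 z, LinearMap.sub_apply, LinearMap.comp_apply, LinearMap.comp_apply, hX2',
        hX1', hX1', hX2', htr, htr, htr, htr, map_sub]
    have hreal : ∀ (c : ℝ) (z : Io t i0 → ℂ), (c : ℂ) • z = c • z := by
      intro c z
      funext x
      simp
    -- values on multiples of the basis
    have v1 : ∀ z : ℂ, T (Th e t i0 (z • B j)) = Th e t i0 (z • B i) := by
      intro z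
      rw [hval, Matrix.mulVec_smul, b1, Matrix.mulVec_smul, a1, Matrix.mulVec_smul,
        a3 j (Ne.symm hij) (Ne.symm hkj), smul_zero, Matrix.mulVec_zero, sub_zero]
    have v2 : ∀ z : ℂ, T (Th e t i0 (z • B i)) = (-(c1 * c2)) • Th e t i0 (z • B j) := by
      intro z
      rw [hval, Matrix.mulVec_smul, b3 i (Ne.symm hki) hij, smul_zero, Matrix.mulVec_zero,
        Matrix.mulVec_smul, a2, Matrix.mulVec_smul, Matrix.mulVec_smul, b2, zero_sub, ← map_smul]
      congr 1
      rw [← hreal]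
      simp only [smul_smul, ← neg_smul]
      congr 1
      push_cast
      ring
    have v3 : ∀ l, l ≠ i → l ≠ j → ∀ z : ℂ, T (Th e t i0 (z • B l)) = 0 := by
      intro l hli hlj z
      rw [hval]
      by_cases hlk : l = k'
      · subst hlk
        simp only [Matrix.mulVec_smul, b2, a1, a3 j (Ne.symm hij) (Ne.symm hkj),
          b3 i (Ne.symm hki) hij, smul_zero, sub_zero, map_zero]
      · rw [Matrix.mulVec_smul, b3 l hlk hlj, smul_zero, Matrix.mulVec_zero, Matrix.mulVec_smul,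
          a3 l hli hlk, smul_zero, Matrix.mulVec_zero, sub_zero, map_zero]
    refine ⟨T, ⟨hT, fun v hv => ?_⟩, -(c1 * c2), fun ε => ?_, fun ε => ?_, fun l hl1 hl2 ε => ?_⟩
    · rw [← b.sum_repr v, map_sum]
      refine Finset.sum_eq_zero fun p _ => ?_
      by_cases hp : (-(t p.2) ^ 2 : ℝ) = -(t i0) ^ 2
      · rw [mem_Vc.1 hv p hp, zero_smul, map_zero]
      · rw [map_smul, hbx, hT2 p.2 (fun h3 => hp (by rw [h3])), smul_zero]
    · change T (L (Pi.single (j, ε) 1)) = L (Pi.single (i, ε) 1)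
      rcases hε ε with rfl | rfl
      · have := v1 1
        rw [one_smul, one_smul] at this
        rw [hLs0, hLs0, this]
      · rw [hLs1, hLs1, v1]
    · change T (L (Pi.single (i, ε) 1)) = (-(c1 * c2)) • L (Pi.single (j, ε) 1)
      rcases hε ε with rfl | rfl
      · have := v2 1
        rw [one_smul, one_smul] at this
        rw [hLs0, hLs0, this]
      · rw [hLs1, hLs1, v2]
    · change T (L (Pi.single (l, ε) 1)) = 0
      rcases hε ε with rfl | rfl
      · have := v3 l hl1 hl2 1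
        rw [one_smul] at this
        rw [hLs0, this]
      · rw [hLs1, v3 l hl1 hl2]
  have hdim : ∀ p : Fin 2 × Fin g, (Finset.univ.filter fun q : Fin 2 × Fin g =>
      (-(t q.2) ^ 2 : ℝ) = -(t p.2) ^ 2).card = 2 * Fintype.card (Io t i0) := by
    intro p
    have e1 : (Finset.univ.filter fun q : Fin 2 × Fin g => (-(t q.2) ^ 2 : ℝ) = -(t p.2) ^ 2) =
        (Finset.univ : Finset (Fin 2)) ×ˢ
          (Finset.univ.filter fun j => t j = t p.2 ∨ t j = -t p.2) := by
      ext ⟨a, j⟩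
      simp only [Finset.mem_filter, Finset.mem_univ, true_and, Finset.mem_product]
      rw [neg_inj, sq_eq_sq_iff_eq_or_eq_neg]
    rw [e1, Finset.card_product, Finset.card_univ, Fintype.card_fin, ← hcd p.2,
      Fintype.card_subtype]
  have hcι : Fintype.card (Fin 2 × Fin g) = 2 * g := by
    rw [Fintype.card_prod, Fintype.card_fin, Fintype.card_fin]
  have h3 := hL0.2
  refine final_place h.hP hPs b (ev := fun p => -(t p.2) ^ 2) hbp hirr
    (fun p => place_root h.hM h.he p.2) (ρ := -(t i0) ^ 2) (place_root h.hM h.he i0) L hLinj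
    (fun x => h.Th_mem hL0.1 _) ?_ hex ?_ ?_ (by omega) hdim (by rw [hcι]; exact hk) φ hφ hZ1 hZ2 w
  · intro v hv
    obtain ⟨x, hx⟩ := hL0s (Pr e t i0 v)
    exact ⟨x, by rw [hLx, hx, h.Th_Pr hv]⟩
  · intro i j hij ε δ
    have h1 := hB i j
    rw [if_neg hij] at h1
    rcases hε ε with rfl | rfl <;> rcases hε δ with rfl | rfl
    · rw [hLs0, hLs0, hIm, h1, Complex.zero_im]
    · rw [hLs0, hLs1, hIm, hf_smul_right, h1, mul_zero, Complex.zero_im]
    · rw [hLs1, hLs0, hIm, hf_smul_left, h1, mul_zero, Complex.zero_im]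
    · rw [hLs1, hLs1, hIm, hf_smul_right, hf_smul_left, h1, mul_zero, mul_zero, Complex.zero_im]
  · intro i
    rw [hLs0, hLs1, hIm, hf_smul_right, hB, if_pos rfl, Complex.mul_im, Complex.I_re, Complex.I_im,
      Complex.ofReal_re, Complex.ofReal_im, mul_zero, one_mul, zero_add]
    exact hσ i

end Pool.Agent.W5h86.LP
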