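import Pool.Agent.W5h86.LP.Main
import Pool.Agent.W5h86.LY.Fin2

set_option autoImplicit false

/-!
# The main theorem
-/

open Module Function Polynomial

noncomputable section

namespace Pool.Agent.W5h86.LP

open Pool.Agent.Y102 Pool.Agent.W516.DR Pool.Agent.W516.KC Pool.Agent.W5h86.LZ
open Pool.Agent.W5h86.LY Pool.Agent.W5h86.RK

variable {g : ℕ}

/-- **The main theorem.** -/
theorem main5 (A : AbVar g) {P : Module.End ℚ A.H1} (hP : P ∈ A.EA) (hPs : IsSkew A.om P)
    (hEA : ∀ Q ∈ A.EA, Q ∈ Algebra.adjoin ℚ {P})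
    (hsimple : ∀ Q ∈ A.EA, Q ≠ 0 → Function.Injective Q)
    {M : (Fin g → ℂ) →ₗ[ℂ] (Fin g → ℂ)} (hM : ∀ w, M (A.per w) = A.per (P w)) {n : ℕ}
    (hn : 3 ≤ n)
    (hsum : ∀ s : ℂ, aeval s (minpoly ℚ P) = 0 →
      finrank ℂ (LinearMap.ker (M - s • LinearMap.id)) +
        finrank ℂ (LinearMap.ker (M - (-s) • LinearMap.id)) = n)
    (hsig : ∀ s : ℂ, aeval s (minpoly ℚ P) = 0 →
      finrank ℂ (LinearMap.ker (M - s • LinearMap.id)) ≤ 1 ∨
        finrank ℂ (LinearMap.ker (M - (-s) • LinearMap.id)) ≤ 1)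
    (hind : ∃ s : ℂ, aeval s (minpoly ℚ P) = 0 ∧ ¬ (LinearMap.ker (M - s • LinearMap.id) = ⊥ ∨
      LinearMap.ker (M - (-s) • LinearMap.id) = ⊥))
    (hN : ∀ f : ℚ[X], (∀ s s' : ℂ, aeval s (minpoly ℚ P) = 0 → aeval s' (minpoly ℚ P) = 0 →
      aeval (s ^ 2) f = aeval (s' ^ 2) f →
      (LinearMap.ker (M - s • LinearMap.id) = ⊥ ∨ LinearMap.ker (M - (-s) • LinearMap.id) = ⊥) →
      (LinearMap.ker (M - s' • LinearMap.id) = ⊥ ∨
        LinearMap.ker (M - (-s') • LinearMap.id) = ⊥)) →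
      ∀ s s' : ℂ, aeval s (minpoly ℚ P) = 0 → aeval s' (minpoly ℚ P) = 0 →
      aeval (s ^ 2) f = aeval (s' ^ 2) f → s ^ 2 = s' ^ 2) {k : ℕ}
    (hk : 2 * k < n ∨ (Odd n ∧ k < n) ∨ 2 * g < 2 * k + n ∨ (Odd n ∧ 2 * g < 2 * k + 2 * n))
    (φ : A.H1 [⋀^Fin k × Fin 2]→ₗ[ℚ] ℚ)
    (hφ : IsDeRhamBettiForm QBar A.dR tau k φ.toMultilinearMap)
    {Z : Module.End ℚ A.H1} (hZ1 : IsSkew A.om Z) (hZ2 : Z * P = P * Z)
    (w : Fin k × Fin 2 → A.H1) : ∑ r, φ (update w r (Z (w r))) = 0 := by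
  classical
  have hEAc : ∀ Q ∈ Algebra.adjoin ℚ {P}, Q ∈ A.EA := by
    intro Q hQ
    rw [Algebra.adjoin_singleton_eq_range_aeval] at hQ
    obtain ⟨p, rfl⟩ := hQ
    exact A.aeval_mem hP p
  have hinj : ∀ Q ∈ Algebra.adjoin ℚ {P}, Q ≠ 0 → Function.Injective Q :=
    fun Q hQ hQ0 => hsimple Q (hEAc Q hQ) hQ0
  obtain ⟨s0, hs0, hs0i⟩ := hind
  have hnt : Nontrivial A.H1 := by
    by_contra hcon
    rw [not_nontrivial_iff_subsingleton] at hcon
    have h1 : Subsingleton (Module.End ℚ A.H1) := ⟨fun a b => LinearMap.ext fun v =>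
      Subsingleton.elim _ _⟩
    rw [minpoly.subsingleton, map_one] at hs0
    exact one_ne_zero hs0
  have hirr : Irreducible (minpoly ℚ (P * P)) :=
    irr_minpoly fun Q hQ hQ0 => hinj Q (F_le hQ) hQ0
  obtain ⟨e, t, he⟩ := exists_basis_M (skew_M hM hPs)
  have hfr : ∀ s : ℂ, finrank ℂ (LinearMap.ker (M - s • LinearMap.id)) =
      Fintype.card {i // (t i * Complex.I : ℂ) = s} := fun s =>
    finrank_eig e M (fun i => (t i * Complex.I : ℂ)) he s
  have hinjI : ∀ x y : ℝ, ((x : ℂ) * Complex.I = y * Complex.I) ↔ x = y := by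
    intro x y
    constructor
    · intro h
      exact_mod_cast mul_right_cancel₀ Complex.I_ne_zero h
    · intro h
      rw [h]
  have hc1 : ∀ i, finrank ℂ (LinearMap.ker (M - (t i * Complex.I : ℂ) • LinearMap.id)) =
      (Finset.univ.filter fun j => t j = t i).card := by
    intro i
    rw [hfr, Fintype.card_subtype]
    congr 1
    ext j
    rw [Finset.mem_filter, Finset.mem_filter, hinjI]
  have hc2 : ∀ i, finrank ℂ (LinearMap.ker (M - (-(t i * Complex.I : ℂ)) • LinearMap.id)) =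
      (Finset.univ.filter fun j => t j = -t i).card := by
    intro i
    rw [hfr, Fintype.card_subtype]
    congr 1
    ext j
    have h1 : (-(t i * Complex.I : ℂ)) = ((-t i : ℝ) : ℂ) * Complex.I := by
      push_cast
      ring
    rw [Finset.mem_filter, Finset.mem_filter, h1, hinjI]
  have ht : ∀ i, t i ≠ 0 := by
    intro i h0
    have h1 := hsum _ (conj_root hM he i)
    have h2 := hsig _ (conj_root hM he i)
    rw [h0, Complex.ofReal_zero, zero_mul, neg_zero] at h1 h2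
    omega
  have h : St A P M e t := ⟨hM, he, skew_M hM hPs, hP, hEA, ht⟩
  have hcard : ∀ i, Fintype.card (Io t i) = n := by
    intro i
    rw [← hsum _ (conj_root hM he i), hc1, hc2, Fintype.card_subtype, Finset.filter_or,
      Finset.card_union_of_disjoint]
    rw [Finset.disjoint_filter]
    intro j _ h1 h2
    rw [h1] at h2
    exact ht i (by linarith)
  have hDf : ∀ i, Df t i ↔ (LinearMap.ker (M - (t i * Complex.I : ℂ) • LinearMap.id) = ⊥ ∨
      LinearMap.ker (M - (-(t i * Complex.I : ℂ)) • LinearMap.id) = ⊥) := by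
    intro i
    rw [← Submodule.finrank_eq_zero (R := ℂ), ← Submodule.finrank_eq_zero (R := ℂ), hc1, hc2,
      Finset.card_eq_zero, Finset.card_eq_zero, Finset.filter_eq_empty_iff,
      Finset.filter_eq_empty_iff]
    constructor
    · intro hd
      right
      intro j _
      exact hd j
    · rintro (h1 | h1)
      · exact absurd rfl (h1 (Finset.mem_univ i))
      · intro j
        exact h1 (Finset.mem_univ j)
  have hdef : ∀ (s : ℂ) (i : Fin g), s ^ 2 = ((-(t i) ^ 2 : ℝ) : ℂ) →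
      (Df t i ↔ (LinearMap.ker (M - s • LinearMap.id) = ⊥ ∨
        LinearMap.ker (M - (-s) • LinearMap.id) = ⊥)) := by
    intro s i hs
    rcases sq_neg_real hs with h1 | h1
    · rw [h1]
      exact hDf i
    · rw [h1, hDf i]
      have h2 : ((-t i : ℝ) : ℂ) * Complex.I = -(t i * Complex.I : ℂ) := by
        push_cast
        ring
      rw [h2, neg_neg, or_comm]
  have hty : Ty t := by
    intro i
    by_cases hd : Df t i
    · exact Or.inl hd
    right
    have huniq : ∀ (S : Finset (Fin g)) (a b : Fin g), S.card ≤ 1 → a ∈ S → b ∈ S → a = b := by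
      intro S a b hS ha hb
      exact Finset.card_le_one.1 hS a ha b hb
    rcases hsig _ (conj_root hM he i) with h1 | h1
    · rw [hc1] at h1
      refine ⟨i, ⟨fun j hj => ?_, by rw [hcard]; exact hn⟩, Or.inl rfl⟩
      exact huniq _ _ _ h1 (Finset.mem_filter.2 ⟨Finset.mem_univ _, hj⟩)
        (Finset.mem_filter.2 ⟨Finset.mem_univ _, rfl⟩)
    · rw [hc2] at h1
      unfold Df at hd
      push Not at hd
      obtain ⟨j, hj⟩ := hd
      refine ⟨j, ⟨fun l hl => ?_, by rw [hcard]; exact hn⟩, Or.inr (by rw [hj, neg_neg])⟩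
      exact huniq _ _ _ h1 (Finset.mem_filter.2 ⟨Finset.mem_univ _, by rw [hl, hj]⟩)
        (Finset.mem_filter.2 ⟨Finset.mem_univ _, hj⟩)
  have hreal : ∀ (f : ℚ[X]) (r : ℝ), aeval (r : ℂ) f = ((aeval r f : ℝ) : ℂ) := by
    intro f r
    have h1 := aeval_algebraMap_apply ℂ r f
    exact h1
  have hsq : ∀ i, (t i * Complex.I : ℂ) ^ 2 = ((-(t i) ^ 2 : ℝ) : ℂ) := by
    intro i
    rw [mul_pow, Complex.I_sq]
    push_cast
    ring
  have hN' : ∀ f : ℚ[X], (∀ i j, aeval (-(t i) ^ 2 : ℝ) f = aeval (-(t j) ^ 2 : ℝ) f →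
      Df t i → Df t j) → ∀ i j, aeval (-(t i) ^ 2 : ℝ) f = aeval (-(t j) ^ 2 : ℝ) f →
      t i ^ 2 = t j ^ 2 := by
    intro f hf i j hij
    have h1 := hN f (fun s s' hs hs' hss hd => by
      obtain ⟨i, hi⟩ := conj_sq hM he hs
      obtain ⟨j, hj⟩ := conj_sq hM he hs'
      rw [← hdef s' j hj]
      rw [← hdef s i hi] at hd
      refine hf i j ?_ hd
      rw [hi, hj, hreal, hreal] at hss
      exact_mod_cast hss) (t i * Complex.I) (t j * Complex.I) (conj_root hM he i)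
      (conj_root hM he j) (by rw [hsq, hsq, hreal, hreal, hij])
    rw [hsq, hsq] at h1
    have h2 : (-(t i) ^ 2 : ℝ) = -(t j) ^ 2 := by exact_mod_cast h1
    linarith
  obtain ⟨i, hi⟩ := conj_sq hM he hs0
  rw [← hdef s0 i hi] at hs0i
  rcases hty i with h1 | ⟨i0, hL, -⟩
  · exact absurd h1 hs0i
  exact h.main hty hL (fun i => by rw [hcard, hcard]) hPs hirr hN' (by rw [hcard]; exact hk) φ hφ
    hZ1 hZ2 w

end Pool.Agent.W5h86.LP
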