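import Pool.Agent.W5h86.LY.Slot

set_option autoImplicit false

/-!
# Invariant forms in all degrees different from the dimension
-/

open Module

namespace Pool.Agent.W5h86.LP

open Pool.Agent.W5h86.LZ Pool.Agent.W5h86.LY

variable {κ : Type} [Fintype κ] [DecidableEq κ]

section Basic

variable {V : Type} [AddCommGroup V] [Module ℝ V]

/-- **Invariant forms of odd degree are zero**, if the degree is not the dimension. -/
theorem zero_of_exch (e : Basis (κ × Fin 2) ℝ V) {K : Set (V →ₗ[ℝ] V)} (hK : ExchK e K)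
    {N : Type} [Fintype N] [DecidableEq N] (hN : Fintype.card N ≠ Fintype.card κ)
    (hpar : ¬ ∃ k, Fintype.card N = 2 * k)
    (ψ : V [⋀^N]→ₗ[ℝ] ℝ) (hψ : ∀ T ∈ K, Kills T ψ) : ψ = 0 := by
  refine e.ext_alternating fun v hv => ?_
  rw [AlternatingMap.zero_apply]
  refine zero_of_unpaired (hK.exch hψ) hv hN fun hp => hpar ?_
  let S := {a : κ // ∃ r, (v r).1 = a}
  have hb : Function.Bijective (fun r : N => ((⟨(v r).1, r, rfl⟩, (v r).2) : S × Fin 2)) := by
    constructor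
    · intro r r' hr
      exact hv (Prod.ext (congrArg (fun x : S × Fin 2 => x.1.1) hr)
        (congrArg (fun x : S × Fin 2 => x.2) hr))
    · rintro ⟨⟨a, r, hr⟩, ε⟩
      rcases eq_or_other (v r).2 ε with h | h
      · exact ⟨r, Prod.ext (Subtype.ext hr) h.symm⟩
      · obtain ⟨t, ht⟩ := hp r (v r).1 (v r).2 rfl
        refine ⟨t, Prod.ext (Subtype.ext ?_) ?_⟩
        · exact (congrArg Prod.fst ht).trans hr
        · exact (congrArg Prod.snd ht).trans h.symm
  haveI : Fintype S := Fintype.ofFinite S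
  refine ⟨Fintype.card S, ?_⟩
  rw [Fintype.card_of_bijective hb, Fintype.card_prod, Fintype.card_fin, mul_comm]

/-- **An invariant form is annihilated by all skew-symmetric operators**, if its degree is not
the dimension. -/
theorem kills_of_exch (e : Basis (κ × Fin 2) ℝ V) {K : Set (V →ₗ[ℝ] V)} (hK : ExchK e K)
    {E : V →ₗ[ℝ] V →ₗ[ℝ] ℝ} (halt : ∀ v, E v v = 0)
    (h0 : ∀ i j, i ≠ j → ∀ ε δ, E (e (i, ε)) (e (j, δ)) = 0)
    (h1 : ∀ i, E (e (i, 0)) (e (i, 1)) ≠ 0)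
    (hKE : ∀ T ∈ K, ∀ u v, E (T u) v + E u (T v) = 0)
    {N : Type} [Fintype N] [DecidableEq N] (hN : Fintype.card N ≠ Fintype.card κ)
    (ψ : V [⋀^N]→ₗ[ℝ] ℝ) (hψ : ∀ T ∈ K, Kills T ψ) {Y : V →ₗ[ℝ] V}
    (hY : ∀ u v, E (Y u) v + E u (Y v) = 0) : Kills Y ψ := by
  by_cases hpar : ∃ k, Fintype.card N = 2 * k
  · obtain ⟨k, hk⟩ := hpar
    have hcard : Fintype.card N = Fintype.card (Fin k × Fin 2) := by
      rw [Fintype.card_prod, Fintype.card_fin, Fintype.card_fin, hk, mul_comm]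
    let σ : N ≃ Fin k × Fin 2 := Fintype.equivOfCardEq hcard
    obtain ⟨c, hc⟩ := unique e hK (k := k) (by omega) (ψ.domDomCongr σ) (pw E k)
      (fun T hT => (kills_domDomCongr σ).2 (hψ T hT)) (fun T hT => kills_pw (hKE T hT) k)
      (fun α hα => pw_ne_zero halt h0 h1 hα)
    rw [← kills_domDomCongr σ, hc]
    intro v
    simp only [AlternatingMap.smul_apply, ← Finset.smul_sum]
    rw [kills_pw hY k v, smul_zero]
  · intro v
    rw [zero_of_exch e hK hN hpar ψ hψ]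
    simp

end Basic

section Slot

variable {V : Type} [AddCommGroup V] [Module ℝ V] (L : (κ × Fin 2 → ℝ) →ₗ[ℝ] V)
    (hL : Function.Injective L) (V' : Submodule ℝ V)
    {K : Set (V →ₗ[ℝ] V)} (hKr : ∀ T ∈ K, ∀ x, ∃ y, T (L x) = L y)
    (hK' : ∀ T ∈ K, ∀ v ∈ V', T v = 0)
    (hex : ExchK (fun r : κ × Fin 2 => L (Pi.single r 1)) K)
    {N : Type} [Fintype N] [DecidableEq N]
    (ψ : V [⋀^N]→ₗ[ℝ] ℝ) (hψ : ∀ T ∈ K, Kills T ψ)

include hL hKr hK' hex hψ

/-- the operators in the coordinates -/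
lemma slot_data : ∃ G : V →ₗ[ℝ] (κ × Fin 2 → ℝ), (∀ x, G (L x) = x) ∧
    ExchK (Pi.basisFun ℝ (κ × Fin 2)) {T' | ∃ T ∈ K, T' = G.comp (T.comp L)} ∧
    (∀ T : V →ₗ[ℝ] V, (∀ x, ∃ y, T (L x) = L y) → ∀ x, T (L x) = L ((G.comp (T.comp L)) x)) ∧
    ∀ (s : Finset N) (b : N → V), (∀ r, r ∉ s → b r ∈ V') →
      ∀ T' ∈ {T' | ∃ T ∈ K, T' = G.comp (T.comp L)}, Kills T' (slot ψ L b s) := by
  obtain ⟨G, hG⟩ := L.exists_leftInverse_of_injective (LinearMap.ker_eq_bot.2 hL)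
  have hGL : ∀ x, G (L x) = x := fun x => LinearMap.congr_fun hG x
  have hres : ∀ T : V →ₗ[ℝ] V, (∀ x, ∃ y, T (L x) = L y) →
      ∀ x, T (L x) = L ((G.comp (T.comp L)) x) := by
    intro T hT x
    obtain ⟨y, hy⟩ := hT x
    rw [LinearMap.comp_apply, LinearMap.comp_apply, hy, hGL]
  have hb' : ∀ r, Pi.basisFun ℝ (κ × Fin 2) r = Pi.single r 1 := fun r => Pi.basisFun_apply ℝ _ r
  refine ⟨G, hGL, ?_, hres, ?_⟩
  · intro i j hij
    obtain ⟨T, hT, c, h2, h3, h4⟩ := hex i j hij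
    refine ⟨_, ⟨T, hT, rfl⟩, c, fun ε => ?_, fun ε => ?_, fun k hk1 hk2 ε => ?_⟩
    · rw [LinearMap.comp_apply, LinearMap.comp_apply, hb', h2 ε, hGL, hb']
    · rw [LinearMap.comp_apply, LinearMap.comp_apply, hb', h3 ε, map_smul, hGL, hb']
    · rw [LinearMap.comp_apply, LinearMap.comp_apply, hb', h4 k hk1 hk2 ε, map_zero]
  · rintro s b hb T' ⟨T, hT, rfl⟩ y
    rw [← slot_sum ψ (hres T (hKr T hT)) (fun r hr => hK' T hT _ (hb r hr))]
    exact hψ T hT _

/-- **The slots of odd degree vanish.** -/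
theorem slot_zero {s : Finset N} (hs : s.card ≠ Fintype.card κ) (hpar : ¬ ∃ k, s.card = 2 * k)
    {b : N → V} (hb : ∀ r, r ∉ s → b r ∈ V') : slot ψ L b s = 0 := by
  obtain ⟨G, -, h1, -, h2⟩ := slot_data L hL V' hKr hK' hex ψ hψ
  exact zero_of_exch _ h1 (by rwa [Fintype.card_coe]) (by rwa [Fintype.card_coe]) _ (h2 s b hb)

/-- **Operators on the first space annihilate the invariant forms**, if the slots in the degree
of the dimension vanish. -/
theorem kills_slot (hdec : ∀ v, ∃ x, v - L x ∈ V')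
    {E : V →ₗ[ℝ] V →ₗ[ℝ] ℝ} (halt : ∀ v, E v v = 0)
    (h0 : ∀ i j, i ≠ j → ∀ ε δ,
      E (L (Pi.single (i, ε) 1)) (L (Pi.single (j, δ) 1)) = 0)
    (h1 : ∀ i, E (L (Pi.single (i, 0) 1)) (L (Pi.single (i, 1) 1)) ≠ 0)
    (hKE : ∀ T ∈ K, ∀ u v, E (T u) v + E u (T v) = 0)
    (hz : ∀ s : Finset N, s.card = Fintype.card κ → ∀ b : N → V, (∀ r, r ∉ s → b r ∈ V') →
      slot ψ L b s = 0) {Y : V →ₗ[ℝ] V}
    (hYr : ∀ x, ∃ y, Y (L x) = L y) (hY' : ∀ v ∈ V', Y v = 0)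
    (hYE : ∀ u v, E (Y u) v + E u (Y v) = 0) : Kills Y ψ := by
  obtain ⟨G, hGL, hex', hres, hkl⟩ := slot_data L hL V' hKr hK' hex ψ hψ
  have hb' : ∀ r, Pi.basisFun ℝ (κ × Fin 2) r = Pi.single r 1 := fun r => Pi.basisFun_apply ℝ _ r
  intro v
  choose x hx using fun r => hdec (v r)
  let D : MultilinearMap ℝ (fun _ : N => V) ℝ :=
    ∑ p, ψ.toMultilinearMap.compLinearMap (fun p' => if p' = p then Y else LinearMap.id)
  have hD : ∀ u : N → V, D u = ∑ p, ψ (Function.update u p (Y (u p))) := by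
    intro u
    simp only [D]
    rw [MultilinearMap.sum_apply]
    refine Finset.sum_congr rfl fun p _ => ?_
    rw [MultilinearMap.compLinearMap_apply]
    change ψ _ = ψ _
    congr 1
    funext p'
    by_cases hp : p' = p
    · subst hp
      rw [if_pos rfl, Function.update_self]
    · rw [if_neg hp, Function.update_of_ne hp, LinearMap.id_apply]
  rw [← hD]
  have hv : v = (fun r => L (x r)) + fun r => v r - L (x r) := by
    funext r
    rw [Pi.add_apply, add_sub_cancel]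
  rw [hv, D.map_add_univ]
  refine Finset.sum_eq_zero fun s _ => ?_
  have hw : s.piecewise (fun r => L (x r)) (fun r => v r - L (x r)) =
      wx L (fun r => v r - L (x r)) s (fun r => x r.1) := by
    funext r
    unfold wx
    by_cases hr : r ∈ s
    · rw [Finset.piecewise_eq_of_mem _ _ _ hr, dif_pos hr]
    · rw [Finset.piecewise_eq_of_notMem _ _ _ hr, dif_neg hr]
  rw [hw, hD, slot_sum ψ (hres Y hYr) (fun r _ => hY' _ (hx r))]
  by_cases hsc : s.card = Fintype.card κ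
  · rw [hz s hsc _ fun r _ => hx r]
    simp
  have hE' : ∀ u v, (E.compl₁₂ L L) u v = E (L u) (L v) := fun u v => by
    rw [LinearMap.compl₁₂_apply]
  refine kills_of_exch (Pi.basisFun ℝ (κ × Fin 2)) hex' (E := E.compl₁₂ L L)
    (fun u => by rw [hE', halt])
    (fun i j hij ε δ => by rw [hE', hb', hb', h0 i j hij]) (fun i => by rw [hE', hb', hb']; exact h1 i)
    (fun T' hT' u v => ?_) ?_ (slot ψ L _ s) (hkl s _ fun r _ => hx r)
    (Y := G.comp (Y.comp L)) (fun u v => ?_) _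
  · obtain ⟨T, hT, rfl⟩ := hT'
    rw [hE', hE', ← hres T (hKr T hT), ← hres T (hKr T hT), hKE T hT]
  · rwa [Fintype.card_coe]
  · rw [hE', hE', ← hres Y hYr, ← hres Y hYr, hYE]

end Slot

end Pool.Agent.W5h86.LP
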