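import Pool.Agent.W5h86.LP.Ld
import Pool.Agent.W5h86.RK.Mn

set_option autoImplicit false

/-!
# Killing the definite places
-/

open Module Function Polynomial

noncomputable section

namespace Pool.Agent.W5h86.LP

open Pool.Agent.Y102 Pool.Agent.W516.DR Pool.Agent.W516.KC Pool.Agent.W5h86.LZ
open Pool.Agent.W5h86.LY Pool.Agent.W5h86.RK

variable {g : ℕ} {A : AbVar g} {P : Module.End ℚ A.H1}
  {M : (Fin g → ℂ) →ₗ[ℂ] (Fin g → ℂ)} {e : Basis (Fin g) ℂ (Fin g → ℂ)} {t : Fin g → ℝ}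
  {i0 : Fin g}

/-- definite places -/
def Df (t : Fin g → ℝ) (i : Fin g) : Prop := ∀ j, t j ≠ -t i

lemma Df.eq {i k : Fin g} (hi : Df t i) (h : t k ^ 2 = t i ^ 2) : t k = t i := by
  rcases sq_eq_sq_iff_eq_or_eq_neg.1 h with h | h
  · exact h
  · exact absurd h (hi k)

lemma Df.of_eq {i k : Fin g} (hi : Df t i) (h : t k = t i) : Df t k := fun j => by
  rw [h]
  exact hi j

lemma Df.of_sq {i k : Fin g} (hi : Df t i) (h : t k ^ 2 = t i ^ 2) : Df t k :=
  hi.of_eq (hi.eq h)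

lemma rsmul (r : ℝ) (v : Fin g → ℂ) : r • v = (r : ℂ) • v := by
  funext x
  rw [Pi.smul_apply, Pi.smul_apply, Complex.real_smul, smul_eq_mul]

lemma zsmul (z : ℂ) (v : Fin g → ℂ) : z • v = z.re • v + z.im • (Complex.I • v) := by
  funext x
  simp only [Pi.smul_apply, Pi.add_apply, smul_eq_mul, Complex.real_smul]
  conv_lhs => rw [← Complex.re_add_im z]
  ring

/-- coordinates of the vectors of a place -/
lemma St.repr_zero (h : St A P M e t) {s : ℝ} {v : Fin g → ℂ}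
    (hv : A.ext (P * P) v = (-s ^ 2) • v) (k : Fin g) (hk : t k ^ 2 ≠ s ^ 2) : e.repr v k = 0 := by
  have h3 : e.repr (A.ext (P * P) v) k = (-(t k : ℂ) ^ 2) * e.repr v k := by
    rw [ext_sq h.hM, h.repr_M, h.repr_M]
    linear_combination ((t k : ℂ) ^ 2 * e.repr v k) * Complex.I_sq
  rw [hv, rsmul, map_smul, Finsupp.smul_apply, smul_eq_mul] at h3
  push_cast at h3
  have h5 : ((t k) ^ 2 - s ^ 2 : ℂ) * e.repr v k = 0 := by linear_combination h3
  refine (mul_eq_zero.1 h5).resolve_left ?_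
  intro h6
  apply hk
  have h7 : ((t k : ℂ)) ^ 2 = (s : ℂ) ^ 2 := sub_eq_zero.1 h6
  exact_mod_cast h7

lemma St.e_mem (h : St A P M e t) (i : Fin g) (z : ℂ) :
    A.ext (P * P) (z • e i) = (-(t i) ^ 2) • (z • e i) :=
  mem_Wp.1 (smul_mem_Wp h.hM h.he i z)

lemma St.pl_mem (h : St A P M e t) {X : (Fin g → ℂ) →ₗ[ℝ] (Fin g → ℂ)}
    (hX : ∀ v, X (M v) = M (X v)) {s : ℝ} {v : Fin g → ℂ}
    (hv : A.ext (P * P) v = (-s ^ 2) • v) : A.ext (P * P) (X v) = (-s ^ 2) • X v := by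
  rw [ext_sq h.hM] at hv ⊢
  rw [← hX, ← hX, hv, map_smul]

/-- the complex structure at a definite place -/
lemma St.def_I (h : St A P M e t) {i : Fin g} (hi : Df t i) {v : Fin g → ℂ}
    (hv : A.ext (P * P) v = (-(t i) ^ 2) • v) : M v = t i • (Complex.I • v) := by
  apply e.repr.injective
  ext k
  rw [h.repr_M, rsmul, map_smul, map_smul, Finsupp.smul_apply, Finsupp.smul_apply, smul_eq_mul,
    smul_eq_mul, ← mul_assoc]
  by_cases hk : t k ^ 2 = t i ^ 2
  · rw [hi.eq hk]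
  · rw [h.repr_zero hv k hk, mul_zero, mul_zero]

lemma St.cl (h : St A P M e t) {i : Fin g} (hi : Df t i) {X : (Fin g → ℂ) →ₗ[ℝ] (Fin g → ℂ)}
    (hX : ∀ v, X (M v) = M (X v)) (z : ℂ) {v : Fin g → ℂ}
    (hv : A.ext (P * P) v = (-(t i) ^ 2) • v) : X (z • v) = z • X v := by
  have h1 : X (Complex.I • v) = Complex.I • X v := by
    have h2 := hX v
    rw [h.def_I hi hv, h.def_I hi (h.pl_mem hX hv), map_smul] at h2
    exact smul_right_injective _ (h.ht i) h2
  rw [zsmul z v, zsmul z (X v), map_add, map_smul, map_smul, h1]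

open Classical in
/-- the complex-linear map -/
def XD (e : Basis (Fin g) ℂ (Fin g → ℂ)) (t : Fin g → ℝ) (X : (Fin g → ℂ) →ₗ[ℝ] (Fin g → ℂ)) :
    (Fin g → ℂ) →ₗ[ℂ] (Fin g → ℂ) :=
  e.constr ℂ (fun i => if Df t i then X (e i) else 0)

open Classical in
lemma XD_e (X : (Fin g → ℂ) →ₗ[ℝ] (Fin g → ℂ)) (i : Fin g) :
    XD e t X (e i) = if Df t i then X (e i) else 0 := by
  unfold XD
  rw [Basis.constr_basis]

lemma St.XD_eq (h : St A P M e t) {i : Fin g} (hi : Df t i)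
    {X : (Fin g → ℂ) →ₗ[ℝ] (Fin g → ℂ)} (hX : ∀ v, X (M v) = M (X v)) {u : Fin g → ℂ}
    (hu : A.ext (P * P) u = (-(t i) ^ 2) • u) : XD e t X u = X u := by
  classical
  conv_lhs => rw [← e.sum_repr u]
  conv_rhs => rw [← e.sum_repr u]
  rw [map_sum, map_sum]
  refine Finset.sum_congr rfl fun k _ => ?_
  by_cases hk : t k ^ 2 = t i ^ 2
  · have hkD : Df t k := hi.of_sq hk
    have h1 := h.e_mem k 1
    rw [one_smul] at h1
    rw [map_smul, XD_e, if_pos hkD, h.cl hkD hX _ h1]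
  · rw [h.repr_zero hu k hk, zero_smul, map_zero, map_zero]

lemma XD_nd {X : (Fin g → ℂ) →ₗ[ℝ] (Fin g → ℂ)} {i : Fin g} (hi : ¬ Df t i) (z : ℂ) :
    XD e t X (z • e i) = 0 := by
  rw [map_smul, XD_e, if_neg hi, smul_zero]

/-- orthogonality of the places -/
lemma St.orth_pl (h : St A P M e t) {s : ℝ} {u : Fin g → ℂ}
    (hu : A.ext (P * P) u = (-s ^ 2) • u) {j : Fin g} (hj : t j ^ 2 ≠ s ^ 2) (w : ℂ) :
    A.E u (w • e j) = 0 := by
  rw [← e.sum_repr u, map_sum, LinearMap.sum_apply]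
  refine Finset.sum_eq_zero fun k _ => ?_
  by_cases hk : t k ^ 2 = s ^ 2
  · exact h.orth (fun h1 => hj (by rw [← h1, hk])) _ _
  · rw [h.repr_zero hu k hk, zero_smul, map_zero, LinearMap.zero_apply]

lemma St.XD_skew (h : St A P M e t) {X : (Fin g → ℂ) →ₗ[ℝ] (Fin g → ℂ)}
    (hX : ∀ v, X (M v) = M (X v)) (hs : ∀ u v, A.E (X u) v + A.E u (X v) = 0)
    (u v : Fin g → ℂ) : A.E (XD e t X u) v + A.E u (XD e t X v) = 0 := by
  have key : ∀ (i j : Fin g) (z w : ℂ), A.E (XD e t X (z • e i)) (w • e j) +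
      A.E (z • e i) (XD e t X (w • e j)) = 0 := by
    intro i j z w
    by_cases hi : Df t i
    · by_cases hj : Df t j
      · rw [h.XD_eq hi hX (h.e_mem i z), h.XD_eq hj hX (h.e_mem j w)]
        exact hs _ _
      · have hne : t j ^ 2 ≠ t i ^ 2 := fun h1 => hj (hi.of_sq h1)
        rw [XD_nd hj, map_zero, add_zero, h.XD_eq hi hX (h.e_mem i z)]
        exact h.orth_pl (h.pl_mem hX (h.e_mem i z)) hne w
    · by_cases hj : Df t j
      · have hne : t i ^ 2 ≠ t j ^ 2 := fun h1 => hi (hj.of_sq h1)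
        rw [XD_nd hi, map_zero, LinearMap.zero_apply, zero_add, h.XD_eq hj hX (h.e_mem j w),
          A.E_anti, h.orth_pl (h.pl_mem hX (h.e_mem j w)) hne z, neg_zero]
      · rw [XD_nd hi, XD_nd hj, map_zero, map_zero, LinearMap.zero_apply, zero_add]
  rw [← e.sum_repr u, ← e.sum_repr v]
  simp only [map_sum, LinearMap.sum_apply]
  rw [← Finset.sum_add_distrib]
  refine Finset.sum_eq_zero fun i _ => ?_
  rw [← Finset.sum_add_distrib]
  refine Finset.sum_eq_zero fun j _ => ?_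
  exact key _ _ _ _

/-- **Eigenvectors of `(ad X)^2` for positive eigenvalues vanish at the definite places.** -/
theorem St.def_kill (h : St A P M e t) {X Y : (Fin g → ℂ) →ₗ[ℝ] (Fin g → ℂ)}
    (hX : ∀ v, X (M v) = M (X v)) (hY : ∀ v, Y (M v) = M (Y v))
    (hs : ∀ u v, A.E (X u) v + A.E u (X v) = 0) {c : ℝ} (hc : 0 < c)
    (hXY : ∀ i, Df t i → ∀ z : ℂ, X (X (Y (z • e i)) - Y (X (z • e i))) -
      (X (Y (X (z • e i))) - Y (X (X (z • e i)))) = c • Y (z • e i)) :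
    ∀ i, Df t i → ∀ z : ℂ, Y (z • e i) = 0 := by
  set D := XD e t X with hD
  set D' := XD e t Y with hD'
  have hrel : D ∘ₗ (D ∘ₗ D' - D' ∘ₗ D) - (D ∘ₗ D' - D' ∘ₗ D) ∘ₗ D = (c : ℂ) • D' := by
    refine e.ext fun i => ?_
    simp only [LinearMap.sub_apply, LinearMap.comp_apply, LinearMap.smul_apply]
    by_cases hi : Df t i
    · have h1 := h.e_mem i 1
      have h2 := hXY i hi 1
      rw [one_smul] at h1 h2
      rw [h.XD_eq hi hX h1, h.XD_eq hi hY h1, h.XD_eq hi hX (h.pl_mem hY h1),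
        h.XD_eq hi hY (h.pl_mem hX h1), h.XD_eq hi hX (h.pl_mem hX h1),
        h.XD_eq hi hX (h.pl_mem hY (h.pl_mem hX h1)), h.XD_eq hi hY (h.pl_mem hX (h.pl_mem hX h1)),
        ← rsmul, ← h2, map_sub, map_sub, h.XD_eq hi hX (h.pl_mem hX (h.pl_mem hY h1)),
        h.XD_eq hi hX (h.pl_mem hY (h.pl_mem hX h1))]
    · have h1 : D (e i) = 0 := by
        have := XD_nd (e := e) (X := X) hi 1
        rwa [one_smul] at this
      have h2 : D' (e i) = 0 := by
        have := XD_nd (e := e) (X := Y) hi 1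
        rwa [one_smul] at this
      rw [h1, h2]
      simp
  have hsym : ∀ u v, A.E ((Complex.I • D) u) v = A.E u ((Complex.I • D) v) := by
    intro u v
    rw [LinearMap.smul_apply, LinearMap.smul_apply, (A.E_I (D u) v).2]
    have h1 := h.XD_skew hX hs u (Complex.I • v)
    rw [← hD, D.map_smul] at h1
    linarith
  obtain ⟨b, r, hb⟩ := A.exists_eigenbasis (fun _ : Fin 1 => Complex.I • D) (fun _ _ => rfl)
    (fun _ u v => hsym u v)
  have hDb : ∀ k, D (b k) = (-(Complex.I * (r 0 k : ℂ))) • b k := by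
    intro k
    have h1 := hb 0 k
    rw [LinearMap.smul_apply] at h1
    have h2 := congrArg (fun v => (-Complex.I) • v) h1
    simp only [smul_smul] at h2
    rw [neg_mul, Complex.I_mul_I, neg_neg, one_smul] at h2
    rw [h2, neg_mul]
  have hrep : ∀ (a : Fin g) (v : Fin g → ℂ),
      b.repr (D v) a = (-(Complex.I * (r 0 a : ℂ))) * b.repr v a := by
    intro a v
    have h1 : b.coord a ∘ₗ D = (-(Complex.I * (r 0 a : ℂ))) • b.coord a := by
      refine b.ext fun j => ?_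
      rw [LinearMap.comp_apply, hDb, map_smul, LinearMap.smul_apply, Basis.coord_apply,
        b.repr_self]
      by_cases hij : j = a
      · rw [hij]
      · rw [Finsupp.single_eq_of_ne (Ne.symm hij), smul_zero, smul_zero]
    exact LinearMap.congr_fun h1 v
  have hD0 : D' = 0 := by
    refine b.ext fun k => ?_
    rw [LinearMap.zero_apply]
    apply b.repr.injective
    ext a
    rw [map_zero, Finsupp.zero_apply]
    have h1 := congrArg (fun v => b.repr v a) (LinearMap.congr_fun hrel (b k))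
    simp only [LinearMap.sub_apply, LinearMap.comp_apply, LinearMap.smul_apply, hDb, map_smul,
      map_sub, Finsupp.sub_apply, Finsupp.smul_apply, smul_eq_mul, hrep] at h1
    have h2 : (((-((r 0 a - r 0 k) ^ 2 + c) : ℝ)) : ℂ) * b.repr (D' (b k)) a = 0 := by
      push_cast
      linear_combination h1 - (((r 0 a : ℂ) - r 0 k) ^ 2 * b.repr (D' (b k)) a) * Complex.I_sq
    refine (mul_eq_zero.1 h2).resolve_left ?_
    have h3 : (-((r 0 a - r 0 k) ^ 2 + c) : ℝ) ≠ 0 := by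
      have := sq_nonneg (r 0 a - r 0 k)
      linarith
    exact_mod_cast h3
  intro i hi z
  rw [← h.XD_eq hi hY (h.e_mem i z), ← hD', hD0, LinearMap.zero_apply]

section Fit

variable {L : Type} [AddCommGroup L] [Module ℝ L] [FiniteDimensional ℝ L]

lemma aeval_stab (f : Module.End ℝ L) (G : Submodule ℝ L) (hG : ∀ y ∈ G, f y ∈ G) (q : ℝ[X])
    {y : L} (hy : y ∈ G) : aeval f q y ∈ G := by
  have h1 : ∀ n : ℕ, (f ^ n) y ∈ G := by
    intro n
    induction n with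
    | zero => rw [pow_zero, Module.End.one_apply]; exact hy
    | succ n ih => rw [pow_succ', Module.End.mul_apply]; exact hG _ ih
  induction q using Polynomial.induction_on' with
  | add p q hp hq => rw [map_add, LinearMap.add_apply]; exact G.add_mem hp hq
  | monomial n a =>
    rw [aeval_monomial, Module.End.mul_apply, Module.algebraMap_end_apply]
    exact G.smul_mem _ (h1 n)

/-- **Fitting.** -/
lemma fitting (f : Module.End ℝ L) (G K N : Submodule ℝ L) (hG : ∀ y ∈ G, f y ∈ G)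
    (hK : ∀ y ∈ K, f y ∈ K) (hN : ∀ y ∈ G, f y ∈ N → y ∈ N) {y0 : L} (hy0 : y0 ∈ G)
    (h0 : f y0 ∈ K) : ∃ n ∈ G, n ∈ N ∧ y0 - n ∈ K := by
  have hp0 : minpoly ℝ f ≠ 0 := minpoly.ne_zero (Algebra.IsIntegral.isIntegral f)
  obtain ⟨q, hq, hq0⟩ := exists_eq_pow_rootMultiplicity_mul_and_not_dvd (minpoly ℝ f) hp0 0
  set m := rootMultiplicity 0 (minpoly ℝ f) with hm
  rw [C_0, sub_zero] at hq hq0
  have hq1 : q.coeff 0 ≠ 0 := fun h => hq0 (X_dvd_iff.2 h)
  have hgn : (q.coeff 0)⁻¹ • aeval f q y0 ∈ G := G.smul_mem _ (aeval_stab f G hG q hy0)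
  refine ⟨(q.coeff 0)⁻¹ • aeval f q y0, hgn, ?_, ?_⟩
  · have h1 : ∀ m : ℕ, ∀ y ∈ G, (f ^ m) y ∈ N → y ∈ N := by
      intro m
      induction m with
      | zero =>
        intro y _ hy
        rwa [pow_zero, Module.End.one_apply] at hy
      | succ m ih =>
        intro y hyG hy
        rw [pow_succ, Module.End.mul_apply] at hy
        exact hN y hyG (ih _ (hG y hyG) hy)
    refine h1 m _ hgn ?_
    have h2 : (f ^ m) (aeval f q y0) = 0 := by
      have h3 := minpoly.aeval ℝ f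
      rw [hq, map_mul, map_pow, aeval_X] at h3
      have h4 := LinearMap.congr_fun h3 y0
      rwa [Module.End.mul_apply, LinearMap.zero_apply] at h4
    rw [map_smul, h2, smul_zero]
    exact N.zero_mem
  · have h1 : aeval f q y0 = aeval f q.divX (f y0) + q.coeff 0 • y0 := by
      conv_lhs => rw [← divX_mul_X_add q]
      rw [map_add, map_mul, aeval_X, aeval_C, LinearMap.add_apply, Module.End.mul_apply,
        Module.algebraMap_end_apply]
    rw [h1, smul_add, smul_smul, inv_mul_cancel₀ hq1, one_smul]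
    have h2 : y0 - ((q.coeff 0)⁻¹ • aeval f q.divX (f y0) + y0) =
        -((q.coeff 0)⁻¹ • aeval f q.divX (f y0)) := by abel
    rw [h2]
    exact K.neg_mem (K.smul_mem _ (aeval_stab f K hK _ h0))

end Fit

/-- the double commutator -/
def ff (S : (Fin g → ℂ) →ₗ[ℝ] (Fin g → ℂ)) (c : ℝ) :
    Module.End ℝ ((Fin g → ℂ) →ₗ[ℝ] (Fin g → ℂ)) where
  toFun Y := (S.comp (S.comp Y - Y.comp S) - (S.comp Y - Y.comp S).comp S) - c • Y
  map_add' Y Z := by
    refine LinearMap.ext fun v => ?_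
    simp only [LinearMap.sub_apply, LinearMap.comp_apply, LinearMap.add_apply,
      LinearMap.smul_apply, map_add, map_sub, smul_add]
    abel
  map_smul' r Y := by
    refine LinearMap.ext fun v => ?_
    simp only [LinearMap.sub_apply, LinearMap.comp_apply, LinearMap.smul_apply, map_smul,
      map_sub, smul_sub, RingHom.id_apply]
    rw [smul_comm c r]

lemma ff_apply (S : (Fin g → ℂ) →ₗ[ℝ] (Fin g → ℂ)) (c : ℝ)
    (Y : (Fin g → ℂ) →ₗ[ℝ] (Fin g → ℂ)) :
    ff S c Y = (S.comp (S.comp Y - Y.comp S) - (S.comp Y - Y.comp S).comp S) - c • Y := rfl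

/-- the operators which vanish at the definite places -/
def Nn (A : AbVar g) (e : Basis (Fin g) ℂ (Fin g → ℂ)) (t : Fin g → ℝ) :
    Submodule ℝ ((Fin g → ℂ) →ₗ[ℝ] (Fin g → ℂ)) where
  carrier := {T | T ∈ A.CR A.LA ∧ ∀ i, Df t i → ∀ z : ℂ, T (z • e i) = 0}
  zero_mem' := ⟨Submodule.zero_mem _, fun i _ z => rfl⟩
  add_mem' := by
    rintro a b ⟨h1, h2⟩ ⟨h3, h4⟩
    exact ⟨Submodule.add_mem _ h1 h3, fun i hi z => by
      rw [LinearMap.add_apply, h2 i hi, h4 i hi, add_zero]⟩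
  smul_mem' := by
    rintro c a ⟨h1, h2⟩
    exact ⟨Submodule.smul_mem _ _ h1, fun i hi z => by
      rw [LinearMap.smul_apply, h2 i hi, smul_zero]⟩

lemma mem_Nn {T : (Fin g → ℂ) →ₗ[ℝ] (Fin g → ℂ)} :
    T ∈ Nn A e t ↔ T ∈ A.CR A.LA ∧ ∀ i, Df t i → ∀ z : ℂ, T (z • e i) = 0 := Iff.rfl

/-- **Lifting.** -/
theorem St.lift0 (h : St A P M e t) (hu : ∀ i, t i = t i0 → i = i0)
    {S' T' : (Io t i0 → ℂ) →ₗ[ℝ] (Io t i0 → ℂ)} (hS : S' ∈ Go A e t i0) (hT : T' ∈ Go A e t i0)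
    {c : ℝ} (hc : 0 < c)
    (hrel : ∀ z, S' (S' (T' z) - T' (S' z)) - (S' (T' (S' z)) - T' (S' (S' z))) = c • T' z) :
    ∃ N ∈ Nn A e t, ∀ z, N (Th e t i0 z) = Th e t i0 (T' z) := by
  obtain ⟨S, hS1, hS2⟩ := hS
  obtain ⟨T, hT1, hT2⟩ := hT
  have hbr : ∀ X ∈ A.CR A.LA, ∀ Y ∈ A.CR A.LA, X.comp Y - Y.comp X ∈ A.CR A.LA :=
    fun X hX Y hY => CR_bracket (fun X hX Y hY => A.LA_bracket hX hY) hX hY
  let K : Submodule ℝ ((Fin g → ℂ) →ₗ[ℝ] (Fin g → ℂ)) :=
    { carrier := {Y | ∀ z, Y (Th e t i0 z) = 0}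
      zero_mem' := fun z => rfl
      add_mem' := fun {a b} ha hb z => by
        rw [LinearMap.add_apply, ha, hb, add_zero]
      smul_mem' := fun c a ha z => by
        rw [LinearMap.smul_apply, ha, smul_zero] }
  have hKm : ∀ Y, Y ∈ K ↔ ∀ z, Y (Th e t i0 z) = 0 := fun Y => Iff.rfl
  have g1 : ∀ Y ∈ A.CR A.LA, ff S c Y ∈ A.CR A.LA := by
    intro Y hY
    rw [ff_apply]
    exact Submodule.sub_mem _ (hbr _ hS1 _ (hbr _ hS1 _ hY)) (Submodule.smul_mem _ _ hY)
  have g2 : ∀ Y ∈ K, ff S c Y ∈ K := by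
    intro Y hY
    rw [hKm] at hY ⊢
    intro z
    rw [ff_apply]
    simp only [LinearMap.sub_apply, LinearMap.comp_apply, LinearMap.smul_apply, hY, hS2, map_zero,
      smul_zero, sub_zero]
  have g3 : ∀ Y ∈ A.CR A.LA, ff S c Y ∈ Nn A e t → Y ∈ Nn A e t := by
    intro Y hY hfY
    refine ⟨hY, ?_⟩
    refine h.def_kill (X := S) (h.M_comm hS1) (h.M_comm hY)
      (fun u v => CR_skew (fun X hX => A.LA_skew hX) hS1 u v) hc fun i hi z => ?_
    have h1 := hfY.2 i hi z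
    rw [ff_apply] at h1
    simp only [LinearMap.sub_apply, LinearMap.comp_apply, LinearMap.smul_apply] at h1
    exact sub_eq_zero.1 h1
  have g4 : ff S c T ∈ K := by
    rw [hKm]
    intro z
    rw [ff_apply]
    simp only [LinearMap.sub_apply, LinearMap.comp_apply, LinearMap.smul_apply, hS2, hT2]
    rw [← map_sub, hS2, ← map_sub, ← map_sub, hrel, map_smul, sub_self]
  obtain ⟨n, hn1, hn2, hn3⟩ := fitting (ff S c) (A.CR A.LA) K (Nn A e t) g1 g2 g3 hT1 g4
  refine ⟨n, hn2, fun z => ?_⟩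
  have h1 := (hKm _).1 hn3 z
  rw [LinearMap.sub_apply, hT2, sub_eq_zero] at h1
  exact h1.symm

end Pool.Agent.W5h86.LP
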