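import Pool.Agent.W5h86.LP.Sep1
import Pool.Agent.W5h86.LY.Main2

set_option autoImplicit false

/-!
# Exchange operators which vanish at the definite places
-/

open Module Function Polynomial Matrix

noncomputable section

namespace Pool.Agent.W5h86.LP

open Pool.Agent.Y102 Pool.Agent.W516.DR Pool.Agent.W516.KC Pool.Agent.W5h86.LZ
open Pool.Agent.W5h86.LY Pool.Agent.W5h86.RK

section Comb

variable {κ : Type} [Fintype κ] [DecidableEq κ]

lemma dbl (b : Basis κ ℂ (κ → ℂ)) {S T : Matrix κ κ ℂ} {p i j : κ} (hpi : p ≠ i) (hpj : p ≠ j)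
    (hij : i ≠ j) {a c : ℝ} (S1 : S *ᵥ b i = b p) (S2 : S *ᵥ b p = (a : ℂ) • b i)
    (S3 : ∀ k, k ≠ p → k ≠ i → S *ᵥ b k = 0) (T1 : T *ᵥ b j = b i)
    (T2 : T *ᵥ b i = (c : ℂ) • b j) (T3 : ∀ k, k ≠ i → k ≠ j → T *ᵥ b k = 0) (z : κ → ℂ) :
    S *ᵥ (S *ᵥ (T *ᵥ z) - T *ᵥ (S *ᵥ z)) - (S *ᵥ (T *ᵥ (S *ᵥ z)) - T *ᵥ (S *ᵥ (S *ᵥ z))) =
      (a : ℂ) • (T *ᵥ z) := by
  have key : S.mulVecLin ∘ₗ (S.mulVecLin ∘ₗ T.mulVecLin - T.mulVecLin ∘ₗ S.mulVecLin) -
      (S.mulVecLin ∘ₗ T.mulVecLin - T.mulVecLin ∘ₗ S.mulVecLin) ∘ₗ S.mulVecLin =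
      (a : ℂ) • T.mulVecLin := by
    have Sj : S *ᵥ b j = 0 := S3 j (Ne.symm hpj) (Ne.symm hij)
    have Tp : T *ᵥ b p = 0 := T3 p hpi hpj
    refine b.ext fun k => ?_
    simp only [LinearMap.sub_apply, LinearMap.comp_apply, LinearMap.smul_apply, mulVecLin_apply]
    by_cases hki : k = i
    · subst hki
      simp only [T2, S1, Sj, Tp, S2, mulVec_smul, mulVec_zero, smul_zero, sub_zero, zero_sub,
        neg_neg]
    · by_cases hkj : k = j
      · subst hkj
        simp only [T1, S1, Sj, S2, mulVec_zero, sub_zero]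
      · by_cases hkp : k = p
        · subst hkp
          simp only [Tp, S2, T2, S1, Sj, mulVec_zero, mulVec_smul, smul_zero, zero_sub, sub_zero,
            mulVec_neg, neg_zero]
        · simp only [T3 k hki hkj, S3 k hkp hki, mulVec_zero, sub_zero, smul_zero]
  have h1 := LinearMap.congr_fun key z
  simp only [LinearMap.sub_apply, LinearMap.comp_apply, LinearMap.smul_apply,
    mulVecLin_apply] at h1
  exact h1

lemma hf_sum_right (H : Matrix κ κ ℂ) (u : κ → ℂ) (s : Finset κ) (c : κ → ℂ)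
    (B : κ → κ → ℂ) : hf H u (∑ j ∈ s, c j • B j) = ∑ j ∈ s, c j * hf H u (B j) := by
  induction s using Finset.induction_on with
  | empty => rw [Finset.sum_empty, Finset.sum_empty, hf_zero_right]
  | insert a s ha ih =>
    rw [Finset.sum_insert ha, Finset.sum_insert ha, hf_add_right, hf_smul_right, ih]

/-- **Signs.** -/
lemma exists_pos {H : Matrix κ κ ℂ} (hH : H.IsHermitian) (b : Basis κ ℂ (κ → ℂ)) {σ : κ → ℝ}
    (hB : ∀ i j, hf H (b i) (b j) = if i = j then (σ i : ℂ) else 0) {v : κ → ℂ}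
    (hv : 0 < qf H v) : ∃ p, 0 < σ p := by
  by_contra hcon
  push Not at hcon
  have h1 : ∀ k, hf H (b k) v = b.repr v k * σ k := by
    intro k
    conv_lhs => rw [← b.sum_repr v]
    rw [hf_sum_right, Finset.sum_eq_single k]
    · rw [hB, if_pos rfl]
    · intro j _ hj
      rw [hB, if_neg (Ne.symm hj), mul_zero]
    · intro h
      exact absurd (Finset.mem_univ _) h
  have h2 : hf H v v = ∑ k, b.repr v k * star (b.repr v k * σ k) := by
    have h3 : hf H v (∑ k, b.repr v k • b k) = ∑ k, b.repr v k * star (b.repr v k * σ k) := by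
      rw [hf_sum_right]
      refine Finset.sum_congr rfl fun k _ => ?_
      rw [hf_swap hH (b k) v, h1]
    rwa [b.sum_repr] at h3
  rw [qf_eq, h2, Complex.re_sum] at hv
  have h4 : ∑ k, (b.repr v k * star (b.repr v k * σ k)).re ≤ 0 := by
    refine Finset.sum_nonpos fun k _ => ?_
    have h5 : b.repr v k * star (b.repr v k * σ k) =
        ((Complex.normSq (b.repr v k) * σ k : ℝ) : ℂ) := by
      rw [star_mul', Complex.star_def, Complex.conj_ofReal, ← mul_assoc,
        Complex.mul_conj]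
      push_cast
      ring
    rw [h5, Complex.ofReal_re]
    exact mul_nonpos_of_nonneg_of_nonpos (Complex.normSq_nonneg _) (hcon k)
  linarith

lemma neg_of_pos {H : Matrix κ κ ℂ} (hH : H.IsHermitian) (hL : Lor H) {B : κ → κ → ℂ}
    {σ : κ → ℝ} (hσ : ∀ i, σ i ≠ 0)
    (hB : ∀ i j, hf H (B i) (B j) = if i = j then (σ i : ℂ) else 0) {i j : κ} (hij : i ≠ j)
    (hi : 0 < σ i) : σ j < 0 := by
  by_contra hcon
  push Not at hcon
  have hq : ∀ k, qf H (B k) = σ k := fun k => by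
    rw [qf_eq, hB, if_pos rfl, Complex.ofReal_re]
  refine Lor.false hL hH (u := B i) (v := B j) (by rw [hq]; exact hi.le) (by rw [hq]; exact hcon)
    (by rw [hB, if_neg hij]) ?_ ?_
  · intro h0
    have h1 := hB i i
    rw [if_pos rfl, h0, hf_zero_right] at h1
    exact hσ i (by exact_mod_cast h1.symm)
  · intro c hc
    have h1 := hB j j
    rw [if_pos rfl] at h1
    have h2 : hf H (B j) (B j) = 0 := by
      conv_lhs =>
        arg 3
        rw [hc]
      rw [hf_smul_right, hB, if_neg (Ne.symm hij), mul_zero]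
    rw [h2] at h1
    exact hσ j (by exact_mod_cast h1.symm)

end Comb

variable {g : ℕ} {A : AbVar g} {P : Module.End ℚ A.H1}
  {M : (Fin g → ℂ) →ₗ[ℂ] (Fin g → ℂ)} {e : Basis (Fin g) ℂ (Fin g → ℂ)} {t : Fin g → ℝ}
  {i0 : Fin g}

/-- the operators of the place which lift to operators vanishing at the definite places -/
def Hn (A : AbVar g) (e : Basis (Fin g) ℂ (Fin g → ℂ)) (t : Fin g → ℝ) (i0 : Fin g) :
    Submodule ℝ (Matrix (Io t i0) (Io t i0) ℂ) where
  carrier := {X | ∃ N ∈ Nn A e t, ∀ z, N (Th e t i0 z) = Th e t i0 (X *ᵥ z)}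
  zero_mem' := ⟨0, Submodule.zero_mem _, fun z => by
    rw [zero_mulVec, map_zero, LinearMap.zero_apply]⟩
  add_mem' := by
    rintro a b ⟨T, hT, h1⟩ ⟨S, hS, h2⟩
    exact ⟨T + S, Submodule.add_mem _ hT hS, fun z => by
      rw [LinearMap.add_apply, add_mulVec, map_add, h1, h2]⟩
  smul_mem' := by
    rintro c a ⟨T, hT, h1⟩
    exact ⟨c • T, Submodule.smul_mem _ c hT, fun z => by
      rw [LinearMap.smul_apply, smul_mulVec, map_smul, h1]⟩

/-- **The exchange operators lift to operators vanishing at the definite places.** -/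
theorem St.good_Hn (h : St A P M e t) (hu : ∀ i, t i = t i0 → i = i0)
    (hcard : 3 ≤ Fintype.card (Io t i0)) :
    ∃ (B : Io t i0 → Io t i0 → ℂ) (σ : Io t i0 → ℝ), (∀ i, σ i ≠ 0) ∧
      (∀ i j, hf (Hm (Eo A e t i0) (Jo t i0) (LinearEquiv.refl ℝ (Io t i0 → ℂ))) (B i) (B j) =
        if i = j then (σ i : ℂ) else 0) ∧
      ∀ i j, i ≠ j → Good (Hn A e t i0) B i j := by
  classical
  obtain ⟨B, σ, hσ, hB, hG⟩ := h.exists_exch hu hcard
  refine ⟨B, σ, hσ, hB, ?_⟩
  set H := Hm (Eo A e t i0) (Jo t i0) (LinearEquiv.refl ℝ (Io t i0 → ℂ)) with hHd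
  have hL := h.lieData hu
  have hne : Nonempty (Io t i0) := ⟨j0 t i0⟩
  have hli : LinearIndependent ℂ B := li_of_orth hσ hB
  let b : Basis (Io t i0) ℂ (Io t i0 → ℂ) := basisOfLinearIndependentOfCardEqFinrank hli
    (Module.finrank_fintype_fun_eq_card ℂ).symm
  have hb : ⇑b = B := coe_basisOfLinearIndependentOfCardEqFinrank _ _
  have htr : ∀ (X : Matrix (Io t i0) (Io t i0) ℂ) (z : Io t i0 → ℂ),
      tr (LinearEquiv.refl ℝ (Io t i0 → ℂ)) X z = X *ᵥ z := fun X z =>
    tr_theta (θ := LinearEquiv.refl ℝ (Io t i0 → ℂ)) X z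
  have hpos : ∃ p, 0 < σ p := exists_pos (v := ee (j0 t i0)) hL.herm b (by rw [hb]; exact hB)
    (h.hpos hu)
  have hneg : ∀ i j, i ≠ j → 0 < σ i → σ j < 0 := fun i j hij hi =>
    neg_of_pos hL.herm ⟨_, h.hneg hu⟩ hσ hB hij hi
  have key : ∀ p i j, p ≠ i → p ≠ j → i ≠ j → σ p * σ i < 0 → Good (Hn A e t i0) B i j := by
    intro p i j hpi hpj hij hs
    obtain ⟨S, hS, a, ha, S1, S2, S3⟩ := hG p i hpi
    obtain ⟨T, hT, c, hc, T1, T2, T3⟩ := hG i j hij
    have ha' : a * σ i = -σ p := by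
      have h1 := hf_skew (hL.skew S hS) (B i) (B p)
      rw [S1, S2, hf_smul_right, hB, hB, if_pos rfl, if_pos rfl] at h1
      have h2 : ((a * σ i : ℝ) : ℂ) = ((-σ p : ℝ) : ℂ) := by
        push_cast
        linear_combination h1
      exact_mod_cast h2
    have hapos : 0 < a := by
      have h1 : a * (σ i * σ i) = -(σ p * σ i) := by rw [← mul_assoc, ha']; ring
      have h2 : 0 < a * (σ i * σ i) := by rw [h1]; linarith
      exact pos_of_mul_pos_left h2 (mul_self_nonneg _)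
    obtain ⟨N, hN, hN2⟩ := h.lift0 hu hS hT hapos (fun z => by
      rw [htr, htr, htr, htr, htr, htr, htr, htr]
      have h1 := dbl b hpi hpj hij (a := a) (c := c) (S := S) (T := T) (by rw [hb]; exact S1)
        (by rw [hb]; exact S2) (by rw [hb]; exact S3) (by rw [hb]; exact T1)
        (by rw [hb]; exact T2) (by rw [hb]; exact T3) z
      rw [h1]
      funext x
      rw [Pi.smul_apply, Pi.smul_apply, Complex.real_smul, smul_eq_mul])
    exact ⟨T, ⟨N, hN, fun z => by rw [hN2, htr]⟩, c, hc, T1, T2, T3⟩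
  obtain ⟨p, hp⟩ := hpos
  have hthird : ∀ i j : Io t i0, ∃ k, k ≠ i ∧ k ≠ j := by
    intro i j
    by_contra hcon
    push Not at hcon
    have h1 : (Finset.univ : Finset (Io t i0)) ⊆ {i, j} := by
      intro k _
      rw [Finset.mem_insert, Finset.mem_singleton]
      by_cases hk : k = i
      · exact Or.inl hk
      · exact Or.inr (hcon k hk)
    have h2 := Finset.card_le_card h1
    have h3 := Finset.card_le_two (a := i) (b := j)
    rw [Finset.card_univ] at h2
    omega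
  intro i j hij
  obtain ⟨k, hki, hkj⟩ := hthird i j
  by_cases hpi : p = i
  · subst hpi
    exact key k p j hki hkj hij (mul_neg_of_neg_of_pos (hneg p k (Ne.symm hki) hp) hp)
  · by_cases hpj : p = j
    · subst hpj
      exact (key k p i hkj hki (Ne.symm hij)
        (mul_neg_of_neg_of_pos (hneg p k (Ne.symm hkj) hp) hp)).symm
    · exact key p i j hpi hpj hij (mul_neg_of_pos_of_neg hp (hneg p i hpi hp))

end Pool.Agent.W5h86.LP
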