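import Pool.Agent.W5h86.LP.Sep2

set_option autoImplicit false

/-!
# Separating the indefinite places from the definite places
-/

open Module Function Polynomial Matrix

noncomputable section

namespace Pool.Agent.W5h86.LP

open Pool.Agent.Y102 Pool.Agent.W516.DR Pool.Agent.W516.KC Pool.Agent.W5h86.LZ
open Pool.Agent.W5h86.LY Pool.Agent.W5h86.RK

section Comb

variable {κ : Type} [Fintype κ] [DecidableEq κ]

lemma exists_third (hcard : 3 ≤ Fintype.card κ) (i j : κ) : ∃ k, k ≠ i ∧ k ≠ j := by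
  by_contra hcon
  push Not at hcon
  have h1 : (Finset.univ : Finset κ) ⊆ {i, j} := by
    intro k _
    rw [Finset.mem_insert, Finset.mem_singleton]
    by_cases hk : k = i
    · exact Or.inl hk
    · exact Or.inr (hcon k hk)
  have h2 := Finset.card_le_card h1
  have h3 := Finset.card_le_two (a := i) (b := j)
  rw [Finset.card_univ] at h2
  omega

/-- matrices which commute with the exchange operators are scalar -/
lemma comm_scalar (b : Basis κ ℂ (κ → ℂ)) (hcard : 3 ≤ Fintype.card κ) {Y : Matrix κ κ ℂ}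
    (hT : ∀ i j, i ≠ j → ∃ (T : Matrix κ κ ℂ) (c : ℂ), T *ᵥ b j = b i ∧ T *ᵥ b i = c • b j ∧
      (∀ k, k ≠ i → k ≠ j → T *ᵥ b k = 0) ∧ ∀ z, Y *ᵥ (T *ᵥ z) = T *ᵥ (Y *ᵥ z)) :
    ∃ l : ℂ, ∀ z, Y *ᵥ z = l • z := by
  have key : ∀ i j, i ≠ j → ∃ d : ℂ, Y *ᵥ b i = b.repr (Y *ᵥ b j) j • b i + d • b j := by
    intro i j hij
    obtain ⟨T, c, T1, T2, T3, hc⟩ := hT i j hij
    refine ⟨b.repr (Y *ᵥ b j) i * c, ?_⟩
    have h1 := hc (b j)
    rw [T1] at h1
    rw [h1]
    have h2 : T *ᵥ (∑ k, b.repr (Y *ᵥ b j) k • b k) =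
        b.repr (Y *ᵥ b j) j • b i + (b.repr (Y *ᵥ b j) i * c) • b j := by
      have h3 : T *ᵥ (∑ k, b.repr (Y *ᵥ b j) k • b k) =
          ∑ k, b.repr (Y *ᵥ b j) k • (T *ᵥ b k) := by
        have h4 := map_sum T.mulVecLin (fun k => b.repr (Y *ᵥ b j) k • b k) Finset.univ
        simp only [map_smul, mulVecLin_apply] at h4
        exact h4
      rw [h3, Fintype.sum_eq_add j i (Ne.symm hij) (fun k hk => by rw [T3 k hk.2 hk.1, smul_zero]),
        T1, T2, smul_smul]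
    rwa [b.sum_repr] at h2
  have hdiag : ∀ i j, i ≠ j → b.repr (Y *ᵥ b i) i = b.repr (Y *ᵥ b j) j := by
    intro i j hij
    obtain ⟨d, hd⟩ := key i j hij
    conv_lhs => rw [hd]
    rw [map_add, map_smul, map_smul, Finsupp.add_apply, Finsupp.smul_apply, Finsupp.smul_apply,
      b.repr_self, b.repr_self, Finsupp.single_eq_same, Finsupp.single_eq_of_ne hij,
      smul_zero, add_zero, smul_eq_mul, mul_one]
  have hoff : ∀ i k, k ≠ i → b.repr (Y *ᵥ b i) k = 0 := by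
    intro i k hki
    obtain ⟨j, hji, hjk⟩ := exists_third hcard i k
    obtain ⟨d, hd⟩ := key i j (Ne.symm hji)
    rw [hd, map_add, map_smul, map_smul, Finsupp.add_apply, Finsupp.smul_apply,
      Finsupp.smul_apply, b.repr_self, b.repr_self, Finsupp.single_eq_of_ne hki,
      Finsupp.single_eq_of_ne (Ne.symm hjk), smul_zero, smul_zero, add_zero]
  have hne : Nonempty κ := Fintype.card_pos_iff.1 (by omega)
  obtain ⟨p⟩ := hne
  refine ⟨b.repr (Y *ᵥ b p) p, fun z => ?_⟩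
  have h1 : Y.mulVecLin = (b.repr (Y *ᵥ b p) p) • LinearMap.id := by
    refine b.ext fun i => ?_
    rw [mulVecLin_apply, LinearMap.smul_apply, LinearMap.id_apply]
    apply b.repr.injective
    ext k
    rw [map_smul, Finsupp.smul_apply, b.repr_self, smul_eq_mul]
    by_cases hk : k = i
    · subst hk
      rw [Finsupp.single_eq_same, mul_one]
      by_cases hkp : k = p
      · rw [hkp]
      · exact hdiag k p hkp
    · rw [hoff i k hk, Finsupp.single_eq_of_ne hk, mul_zero]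
  exact LinearMap.congr_fun h1 z

end Comb

variable {g : ℕ} {A : AbVar g} {P : Module.End ℚ A.H1}
  {M : (Fin g → ℂ) →ₗ[ℂ] (Fin g → ℂ)} {e : Basis (Fin g) ℂ (Fin g → ℂ)} {t : Fin g → ℝ}
  {i0 : Fin g}

/-- Lorentzian places -/
def Lo (t : Fin g → ℝ) (i0 : Fin g) : Prop :=
  (∀ i, t i = t i0 → i = i0) ∧ 3 ≤ Fintype.card (Io t i0)

/-- all places are definite or Lorentzian -/
def Ty (t : Fin g → ℝ) : Prop := ∀ i, Df t i ∨ ∃ i0, Lo t i0 ∧ (t i = t i0 ∨ t i = -t i0)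

lemma Lo.not_df (h : Lo t i0) : ¬ Df t i0 := by
  classical
  intro hd
  obtain ⟨k, hk, -⟩ := exists_third h.2 (j0 t i0) (j0 t i0)
  rcases k.2 with h1 | h1
  · exact hk (Subtype.ext (h.1 _ h1))
  · exact hd _ h1

lemma Df.neg {i k : Fin g} (hi : Df t i) (h : t k = -t i) : False := hi k h

lemma Lo.not_df' (h : Lo t i0) {i : Fin g} (hi : t i = t i0 ∨ t i = -t i0) : ¬ Df t i := by
  intro hd
  rcases hi with h1 | h1
  · exact h.not_df (hd.of_eq h1.symm)
  · exact hd i0 (by rw [h1, neg_neg])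

/-- operators are determined by their values on the multiples of the basis -/
lemma ext_ze {W : Type} [AddCommGroup W] [Module ℝ W] {F G : (Fin g → ℂ) →ₗ[ℝ] W}
    (h : ∀ i (z : ℂ), F (z • e i) = G (z • e i)) : F = G := by
  refine LinearMap.ext fun v => ?_
  rw [← e.sum_repr v, map_sum, map_sum]
  exact Finset.sum_congr rfl fun i _ => h i _

lemma St.ze (h : St A P M e t) {i : Fin g} (hi : t i = t i0 ∨ t i = -t i0) (z : ℂ) :
    ∃ w, z • e i = Th e t i0 w := by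
  refine ⟨Pr e t i0 (z • e i), (h.Th_Pr ?_).symm⟩
  have h1 := h.e_mem i z
  have h2 : t i ^ 2 = t i0 ^ 2 := by
    rcases hi with hi | hi <;> rw [hi]
    ring
  rwa [h2] at h1

lemma St.nn_pl (h : St A P M e t) {N : (Fin g → ℂ) →ₗ[ℝ] (Fin g → ℂ)} (hN : N ∈ Nn A e t)
    {i : Fin g} (hi : Df t i) {u : Fin g → ℂ} (hu : A.ext (P * P) u = (-(t i) ^ 2) • u) :
    N u = 0 := by
  rw [← e.sum_repr u, map_sum]
  refine Finset.sum_eq_zero fun k _ => ?_
  by_cases hk : t k ^ 2 = t i ^ 2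
  · exact hN.2 k (hi.of_sq hk) _
  · rw [h.repr_zero hu k hk, zero_smul, map_zero]

lemma St.nn_bracket (h : St A P M e t) {N Y : (Fin g → ℂ) →ₗ[ℝ] (Fin g → ℂ)}
    (hN : N ∈ Nn A e t) (hY : Y ∈ A.CR A.LA) : N.comp Y - Y.comp N ∈ Nn A e t := by
  refine ⟨CR_bracket (fun X hX Y hY => A.LA_bracket hX hY) hN.1 hY, fun i hi z => ?_⟩
  rw [LinearMap.sub_apply, LinearMap.comp_apply, LinearMap.comp_apply, hN.2 i hi, map_zero,
    sub_zero]
  exact h.nn_pl hN hi (h.pl_mem (h.M_comm hY) (h.e_mem i z))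

/-- the orthogonal complement commutes with the ideal -/
lemma St.nn_comm (h : St A P M e t) {X : (Fin g → ℂ) →ₗ[ℝ] (Fin g → ℂ)} (hX : X ∈ A.CR A.LA)
    (htr : ∀ N ∈ Nn A e t, LinearMap.trace ℝ (Fin g → ℂ) (X.comp N) = 0)
    {N : (Fin g → ℂ) →ₗ[ℝ] (Fin g → ℂ)} (hN : N ∈ Nn A e t) (v : Fin g → ℂ) :
    X (N v) = N (X v) := by
  have h1 : X.comp N - N.comp X = 0 := by
    refine CR_nd A.trace_LA (CR_bracket (fun X hX Y hY => A.LA_bracket hX hY) hX hN.1)
      fun Y' hY' => ?_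
    have e1 : (X.comp N - N.comp X).comp Y' = X.comp (N.comp Y') - N.comp (X.comp Y') := by
      refine LinearMap.ext fun v => ?_
      simp only [LinearMap.sub_apply, LinearMap.comp_apply]
    have e2 : X.comp (N.comp Y' - Y'.comp N) = X.comp (N.comp Y') - (X.comp Y').comp N := by
      refine LinearMap.ext fun v => ?_
      simp only [LinearMap.sub_apply, LinearMap.comp_apply, map_sub]
    have h2 := htr _ (h.nn_bracket hN hY')
    rw [e2, map_sub] at h2
    rw [e1, map_sub, LinearMap.trace_comp_comm' (X.comp Y') N]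
    exact h2
  have h2 := LinearMap.congr_fun h1 v
  rw [LinearMap.sub_apply, LinearMap.comp_apply, LinearMap.comp_apply, LinearMap.zero_apply,
    sub_eq_zero] at h2
  exact h2

/-- operators commuting with the ideal are scalar on the Lorentzian places -/
lemma St.nn_scalar (h : St A P M e t) (hL : Lo t i0) {X : (Fin g → ℂ) →ₗ[ℝ] (Fin g → ℂ)}
    (hX : X ∈ A.CR A.LA) (hc : ∀ N ∈ Nn A e t, ∀ v, X (N v) = N (X v)) :
    ∃ l : ℂ, ∀ z, X (Th e t i0 z) = Th e t i0 (l • z) := by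
  classical
  obtain ⟨B, σ, hσ, hB, hG⟩ := h.good_Hn hL.1 hL.2
  have hne : Nonempty (Io t i0) := ⟨j0 t i0⟩
  have hli : LinearIndependent ℂ B := li_of_orth hσ hB
  let b : Basis (Io t i0) ℂ (Io t i0 → ℂ) := basisOfLinearIndependentOfCardEqFinrank hli
    (Module.finrank_fintype_fun_eq_card ℂ).symm
  have hb : ⇑b = B := coe_basisOfLinearIndependentOfCardEqFinrank _ _
  obtain ⟨X', h1, h2⟩ := h.exists_res hL.1 (h.M_comm hX)
  obtain ⟨Y, hY⟩ := exists_tr (h.cx hL.1) h2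
  have hY' : ∀ z, X' z = Y *ᵥ z := fun z => by
    rw [← hY]
    exact tr_theta (θ := LinearEquiv.refl ℝ (Io t i0 → ℂ)) Y z
  obtain ⟨l, hl⟩ := comm_scalar b hL.2 (Y := Y) (fun i j hij => by
    obtain ⟨T, ⟨N, hN, hN2⟩, c, -, T1, T2, T3⟩ := hG i j hij
    refine ⟨T, (c : ℂ), by rw [hb]; exact T1, by rw [hb]; exact T2, by rw [hb]; exact T3,
      fun z => ?_⟩
    apply Th_inj (e := e)
    have h3 := hc N hN (Th e t i0 z)
    rw [hN2, h1, h1, hN2, hY', hY'] at h3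
    exact h3)
  exact ⟨l, fun z => by rw [h1, hY', hl]⟩

/-- the scalars are purely imaginary -/
lemma St.im_scalar (h : St A P M e t) (hu : ∀ i, t i = t i0 → i = i0)
    {X : (Fin g → ℂ) →ₗ[ℝ] (Fin g → ℂ)} (hs : ∀ u v, A.E (X u) v + A.E u (X v) = 0) {l : ℂ}
    (hX : ∀ z, X (Th e t i0 z) = Th e t i0 (l • z)) : l.re = 0 := by
  have hpos : 0 < A.E (e i0) (Complex.I • e i0) := A.E_pos (e.ne_zero _)
  have h2 := hs (Th e t i0 (ee (j0 t i0))) (Th e t i0 (Complex.I • ee (j0 t i0)))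
  rw [hX, hX, ← Eo_apply, ← Eo_apply] at h2
  have h3 : l • ee (j0 t i0) = l.re • ee (j0 t i0) + l.im • (Complex.I • ee (j0 t i0)) := by
    funext x
    simp only [Pi.smul_apply, Pi.add_apply, smul_eq_mul, Complex.real_smul]
    conv_lhs => rw [← Complex.re_add_im l]
    ring
  have hL : ∀ (r : ℝ) (u v : Io t i0 → ℂ), Eo A e t i0 (r • u) v = r * Eo A e t i0 u v := by
    intro r u v
    rw [map_smul, LinearMap.smul_apply, smul_eq_mul]
  have h4 : Eo A e t i0 (Complex.I • ee (j0 t i0)) (Complex.I • ee (j0 t i0)) = 0 := A.E_self _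
  rw [h3, map_add, LinearMap.add_apply, hL, hL, h4, h.E_j0 hu, h.E_j0 hu, smul_smul,
    Pi.smul_apply, Pi.smul_apply, ee_same] at h2
  simp only [smul_eq_mul, mul_one, Complex.I_im, one_mul, mul_zero, add_zero, Complex.mul_im,
    Complex.I_re] at h2
  have h5 : (2 * l.re) * A.E (e i0) (Complex.I • e i0) = 0 := by linarith
  rcases mul_eq_zero.1 h5 with h6 | h6
  · linarith
  · exact absurd h6 hpos.ne'

/-- the trace of a diagonal operator -/
lemma trace_diag (e : Basis (Fin g) ℂ (Fin g → ℂ)) {F : (Fin g → ℂ) →ₗ[ℝ] (Fin g → ℂ)}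
    {r : Fin g → ℝ} (hF : ∀ i (z : ℂ), F (z • e i) = r i • (z • e i)) :
    LinearMap.trace ℝ (Fin g → ℂ) F = ∑ p : Fin 2 × Fin g, r p.2 := by
  classical
  let b : Basis (Fin 2 × Fin g) ℝ (Fin g → ℂ) := Complex.basisOneI.smulTower e
  rw [LinearMap.trace_eq_matrix_trace ℝ b, Matrix.trace]
  refine Finset.sum_congr rfl fun p _ => ?_
  rw [Matrix.diag_apply, LinearMap.toMatrix_apply]
  have h1 : b p = Complex.basisOneI p.1 • e p.2 := by
    rw [Basis.smulTower_apply]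
  have h2 : F (b p) = r p.2 • b p := by rw [h1, hF]
  rw [h2, map_smul, Finsupp.smul_apply, b.repr_self, Finsupp.single_eq_same, smul_eq_mul, mul_one]

/-- **The trace form is nondegenerate on the ideal.** -/
lemma St.nn_nd (h : St A P M e t) (hty : Ty t) {X : (Fin g → ℂ) →ₗ[ℝ] (Fin g → ℂ)}
    (hX : X ∈ Nn A e t)
    (htr : ∀ N ∈ Nn A e t, LinearMap.trace ℝ (Fin g → ℂ) (X.comp N) = 0) : X = 0 := by
  have hc : ∀ N ∈ Nn A e t, ∀ v, X (N v) = N (X v) := fun N hN v => h.nn_comm hX.1 htr hN v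
  have key : ∀ i, ∃ r : ℝ, r ≤ 0 ∧ (∀ z : ℂ, X (X (z • e i)) = r • (z • e i)) ∧
      (r = 0 → ∀ z : ℂ, X (z • e i) = 0) := by
    intro i
    rcases hty i with hi | ⟨i0, hL, hi⟩
    · exact ⟨0, le_rfl, fun z => by rw [hX.2 i hi, map_zero, zero_smul], fun _ z => hX.2 i hi z⟩
    · obtain ⟨l, hl⟩ := h.nn_scalar hL hX.1 hc
      have hre := h.im_scalar hL.1 (fun u v => CR_skew (fun X hX => A.LA_skew hX) hX.1 u v) hl
      have hl2 : l = (l.im : ℂ) * Complex.I := by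
        conv_lhs => rw [← Complex.re_add_im l, hre]
        simp
      refine ⟨-(l.im ^ 2), by nlinarith [sq_nonneg l.im], fun z => ?_, fun h0 z => ?_⟩
      · obtain ⟨w, hw⟩ := h.ze hi z
        rw [hw, hl, hl, smul_smul]
        have h3 : l * l = ((-(l.im ^ 2) : ℝ) : ℂ) := by
          rw [hl2]
          simp only [Complex.mul_im, Complex.ofReal_re, Complex.I_im, mul_one, Complex.ofReal_im,
            Complex.I_re, mul_zero, add_zero]
          push_cast
          linear_combination ((l.im : ℂ) ^ 2) * Complex.I_sq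
        rw [h3, ← map_smul]
        congr 1
      · obtain ⟨w, hw⟩ := h.ze hi z
        have h4 : l.im = 0 := by
          have : l.im ^ 2 = 0 := by linarith
          exact pow_eq_zero_iff two_ne_zero |>.1 this
        rw [hw, hl, hl2, h4, Complex.ofReal_zero, zero_mul, zero_smul, map_zero]
  choose r hr1 hr2 hr3 using key
  have h1 := htr X hX
  rw [trace_diag e (F := X.comp X) (r := r) (fun i z => hr2 i z)] at h1
  have h2 := (Finset.sum_eq_zero_iff_of_nonpos (fun p _ => hr1 _)).1 h1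
  refine ext_ze (e := e) fun i z => ?_
  rw [LinearMap.zero_apply]
  exact hr3 i (h2 (0, i) (Finset.mem_univ _)) z

lemma surj_of_nd (V : Type) [AddCommGroup V] [Module ℝ V] [FiniteDimensional ℝ V]
    (W : Submodule ℝ V) (Φ : W →ₗ[ℝ] (W →ₗ[ℝ] ℝ)) (h : ∀ x, Φ x = 0 → x = 0) :
    Function.Surjective Φ := by
  have hfr : finrank ℝ W = finrank ℝ (W →ₗ[ℝ] ℝ) :=
    (Subspace.dual_finrank_eq (K := ℝ) (V := W)).symm
  exact (LinearMap.injective_iff_surjective_of_finrank_eq_finrank hfr).1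
    ((injective_iff_map_eq_zero _).2 h)

/-- **The decomposition.** -/
lemma St.nn_dec (h : St A P M e t) (hty : Ty t) (X : (Fin g → ℂ) →ₗ[ℝ] (Fin g → ℂ)) :
    ∃ N ∈ Nn A e t, ∀ N' ∈ Nn A e t, LinearMap.trace ℝ (Fin g → ℂ) ((X - N).comp N') = 0 := by
  let β : ((Fin g → ℂ) →ₗ[ℝ] (Fin g → ℂ)) →ₗ[ℝ] ((Fin g → ℂ) →ₗ[ℝ] (Fin g → ℂ)) →ₗ[ℝ] ℝ :=
    LinearMap.mk₂ ℝ (fun X Y => LinearMap.trace ℝ (Fin g → ℂ) (X.comp Y))
      (fun X X' Y => by rw [LinearMap.add_comp, map_add])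
      (fun c X Y => by rw [LinearMap.smul_comp, map_smul])
      (fun X Y Y' => by rw [LinearMap.comp_add, map_add])
      (fun c X Y => by rw [LinearMap.comp_smul, map_smul])
  have hβ : ∀ X Y : (Fin g → ℂ) →ₗ[ℝ] (Fin g → ℂ),
      β X Y = LinearMap.trace ℝ (Fin g → ℂ) (X.comp Y) := fun X Y => rfl
  let W : Submodule ℝ ((Fin g → ℂ) →ₗ[ℝ] (Fin g → ℂ)) := Nn A e t
  let Φ : W →ₗ[ℝ] (W →ₗ[ℝ] ℝ) := β.compl₁₂ W.subtype W.subtype
  have hΦ : ∀ x y : W, Φ x y = LinearMap.trace ℝ (Fin g → ℂ) (LinearMap.comp x.1 y.1) :=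
    fun x y => rfl
  have hsurj : Function.Surjective Φ := by
    refine surj_of_nd _ W Φ fun x hx => ?_
    apply Subtype.ext
    refine h.nn_nd hty x.2 fun N hN => ?_
    have h1 := LinearMap.congr_fun hx (⟨N, hN⟩ : W)
    rw [hΦ] at h1
    exact h1
  obtain ⟨n, hn⟩ := hsurj ((β X).comp W.subtype)
  refine ⟨n.1, n.2, fun N' hN' => ?_⟩
  have h1 := LinearMap.congr_fun hn (⟨N', hN'⟩ : W)
  rw [hΦ] at h1
  have h2 : LinearMap.trace ℝ (Fin g → ℂ) (LinearMap.comp n.1 N') =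
      LinearMap.trace ℝ (Fin g → ℂ) (X.comp N') := h1
  rw [LinearMap.sub_comp, map_sub, h2, sub_self]

/-- the rational derived algebra -/
def Der (A : AbVar g) : Submodule ℚ (Module.End ℚ A.H1) :=
  Submodule.span ℚ {Z | ∃ X ∈ A.LA, ∃ Y ∈ A.LA, Z = X * Y - Y * X}

lemma Der_le : Der A ≤ A.LA := by
  refine Submodule.span_le.2 ?_
  rintro _ ⟨X, hX, Y, hY, rfl⟩
  exact A.LA_bracket hX hY

lemma CR_der {X Y : (Fin g → ℂ) →ₗ[ℝ] (Fin g → ℂ)} (hX : X ∈ A.CR A.LA) (hY : Y ∈ A.CR A.LA) :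
    X.comp Y - Y.comp X ∈ A.CR (Der A) := by
  unfold AbVar.CR at hX
  induction hX using Submodule.span_induction with
  | mem X hX =>
    obtain ⟨Q, hQ, rfl⟩ := hX
    unfold AbVar.CR at hY
    induction hY using Submodule.span_induction with
    | mem Y hY =>
      obtain ⟨Q', hQ', rfl⟩ := hY
      refine Submodule.subset_span ⟨_, Submodule.subset_span ⟨Q, hQ, Q', hQ', rfl⟩, ?_⟩
      refine A.ext_per fun w => ?_
      rw [LinearMap.sub_apply, LinearMap.comp_apply, LinearMap.comp_apply, AbVar.ext_apply,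
        AbVar.ext_apply, AbVar.ext_apply, AbVar.ext_apply, AbVar.ext_apply, LinearMap.sub_apply,
        map_sub]
      rfl
    | zero => rw [LinearMap.comp_zero, LinearMap.zero_comp, sub_zero]; exact Submodule.zero_mem _
    | add a b _ _ ha hb =>
      rw [LinearMap.comp_add, LinearMap.add_comp, add_sub_add_comm]
      exact Submodule.add_mem _ ha hb
    | smul c a _ ha =>
      rw [LinearMap.comp_smul, LinearMap.smul_comp]
      have h1 := Submodule.smul_mem _ c ha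
      rw [smul_sub] at h1
      exact h1
  | zero => rw [LinearMap.comp_zero, LinearMap.zero_comp, sub_zero]; exact Submodule.zero_mem _
  | add a b _ _ ha hb =>
    rw [LinearMap.comp_add, LinearMap.add_comp, add_sub_add_comm]
    exact Submodule.add_mem _ ha hb
  | smul c a _ ha =>
    rw [LinearMap.comp_smul, LinearMap.smul_comp]
    have h1 := Submodule.smul_mem _ c ha
    rw [smul_sub] at h1
    exact h1

/-- **The commutators are in the ideal, up to the definite places.** -/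
theorem St.exists_W (h : St A P M e t) (hty : Ty t) {X Y : (Fin g → ℂ) →ₗ[ℝ] (Fin g → ℂ)}
    (hX : X ∈ A.CR A.LA) (hY : Y ∈ A.CR A.LA) :
    ∃ W ∈ A.CR (Der A), (∀ i, Df t i → ∀ z : ℂ, W (z • e i) = 0) ∧
      ∀ i, ¬ Df t i → ∀ z : ℂ, W (z • e i) = X (Y (z • e i)) - Y (X (z • e i)) := by
  obtain ⟨Xn, hXn, hX2⟩ := h.nn_dec hty X
  obtain ⟨Yn, hYn, hY2⟩ := h.nn_dec hty Y
  have hXm : X - Xn ∈ A.CR A.LA := Submodule.sub_mem _ hX hXn.1
  have hYm : Y - Yn ∈ A.CR A.LA := Submodule.sub_mem _ hY hYn.1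
  have cX : ∀ N ∈ Nn A e t, ∀ v, (X - Xn) (N v) = N ((X - Xn) v) :=
    fun N hN v => h.nn_comm hXm hX2 hN v
  have cY : ∀ N ∈ Nn A e t, ∀ v, (Y - Yn) (N v) = N ((Y - Yn) v) :=
    fun N hN v => h.nn_comm hYm hY2 hN v
  refine ⟨Xn.comp Yn - Yn.comp Xn, CR_der hXn.1 hYn.1, fun i hi z => ?_, fun i hi z => ?_⟩
  · exact (h.nn_bracket hXn hYn.1).2 i hi z
  · rcases hty i with hi' | ⟨i0, hL, hi'⟩
    · exact absurd hi' hi
    obtain ⟨l, hl⟩ := h.nn_scalar hL hXm cX
    obtain ⟨m, hm⟩ := h.nn_scalar hL hYm cY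
    obtain ⟨w, hw⟩ := h.ze hi' z
    set v := z • e i with hv
    have h1 := cX Yn hYn v
    have h2 := cY Xn hXn v
    have h3 : (X - Xn) ((Y - Yn) v) = (Y - Yn) ((X - Xn) v) := by
      rw [hw, hm, hl, hl, hm, smul_smul, smul_smul, mul_comm]
    simp only [LinearMap.sub_apply, LinearMap.comp_apply, map_sub] at h1 h2 h3 ⊢
    have h4 : X (Y v) - Y (X v) - (Xn (Yn v) - Yn (Xn v)) = 0 := by
      have e1 : X (Yn v) - Xn (Yn v) - (Yn (X v) - Yn (Xn v)) = 0 := by rw [h1, sub_self]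
      have e2 : Y (Xn v) - Yn (Xn v) - (Xn (Y v) - Xn (Yn v)) = 0 := by rw [h2, sub_self]
      have e3 : X (Y v) - Xn (Y v) - (X (Yn v) - Xn (Yn v)) -
          (Y (X v) - Yn (X v) - (Y (Xn v) - Yn (Xn v))) = 0 := by
        rw [h3, sub_self]
      have e4 : X (Y v) - Y (X v) - (Xn (Yn v) - Yn (Xn v)) =
          (X (Y v) - Xn (Y v) - (X (Yn v) - Xn (Yn v)) -
          (Y (X v) - Yn (X v) - (Y (Xn v) - Yn (Xn v)))) +
          (X (Yn v) - Xn (Yn v) - (Yn (X v) - Yn (Xn v))) -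
          (Y (Xn v) - Yn (Xn v) - (Xn (Y v) - Xn (Yn v))) := by abel
      rw [e4, e1, e2, e3]
      simp
    exact (sub_eq_zero.1 h4).symm

end Pool.Agent.W5h86.LP
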